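import Pool.Agent.Q148.HD.Six

set_option autoImplicit false

/-! Orders reached in every dimension. -/

namespace Pool.Agent.Q148.HD

open Finset

/-- An `n`-dimensional Hadamard array of order `N` exists, on some index set. -/
def On (n N : ℕ) : Prop :=
  ∃ (X : Type) (_ : Fintype X) (_ : DecidableEq X) (A : (Fin n → X) → ℤ),
    Fintype.card X = N ∧ IsHn A

theorem hasH_of_on {n N : ℕ} (h : On n N) : HasH n N := by
  obtain ⟨X, _, _, A, hX, hpm, hA⟩ := h
  let e : Fin N ≃ X := (Fintype.equivFinOfCardEq hX).symm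
  refine ⟨fun i => A (fun r => e (i r)), fun i => hpm _, ?_⟩
  intro l x y
  by_cases hxy : x = y
  · subst hxy
    rw [if_pos rfl]
    have : ∀ i : Fin n → Fin N, A (fun r => e (Function.update i l x r)) *
        A (fun r => e (Function.update i l x r)) = 1 := fun i => by
      rcases hpm (fun r => e (Function.update i l x r)) with h | h <;> rw [h] <;> norm_num
    rw [sum_congr rfl (fun i _ => this i)]
    simp
  · rw [if_neg hxy]
    rw [← hA l (e x) (e y) (fun hh => hxy (e.injective hh))]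
    refine Fintype.sum_equiv (Equiv.arrowCongr (Equiv.refl _) e) _ _ (fun i => ?_)
    have hu : ∀ z : Fin N, (fun r => e (Function.update i l z r)) =
        Function.update (Equiv.arrowCongr (Equiv.refl _) e i) l (e z) := by
      intro z
      ext r
      by_cases hr : r = l
      · subst hr; simp
      · simp [hr, Equiv.arrowCongr]
    show A (fun r => e (Function.update i l x r)) * A (fun r => e (Function.update i l y r)) = _
    rw [hu, hu]

theorem on_one (n : ℕ) : On n 1 :=
  ⟨PUnit, inferInstance, inferInstance, fun _ => 1, rfl, fun _ => Or.inl rfl,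
    fun _ _ _ h => absurd (Subsingleton.elim _ _) h⟩

theorem sum_arrow2 {X Y : Type} [Fintype X] [Fintype Y] {n : ℕ}
    (F : (Fin n → X) → (Fin n → Y) → ℤ) :
    ∑ i : Fin n → X × Y, F (fun r => (i r).1) (fun r => (i r).2) = ∑ a, ∑ b, F a b := by
  classical
  rw [← Fintype.sum_prod_type']
  exact Fintype.sum_equiv (Equiv.arrowProdEquivProdArrow _ _ _) _ _ (fun i => rfl)

theorem on_mul {n N M : ℕ} (h : On n N) (h' : On n M) : On n (N * M) := by
  classical
  obtain ⟨X, _, _, a, hX, pa, ha⟩ := h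
  obtain ⟨Y, _, _, b, hY, pb, hb⟩ := h'
  refine ⟨X × Y, inferInstance, inferInstance, fun i => a (fun r => (i r).1) * b (fun r => (i r).2),
    by rw [Fintype.card_prod, hX, hY], fun i => ?_, ?_⟩
  · show a (fun r => (i r).1) * b (fun r => (i r).2) = 1 ∨
      a (fun r => (i r).1) * b (fun r => (i r).2) = -1
    rcases pa (fun r => (i r).1) with h | h <;> rcases pb (fun r => (i r).2) with h' | h' <;>
      rw [h, h'] <;> norm_num
  · intro l x y hxy
    have e1 : ∀ (i : Fin n → X × Y) (z : X × Y), (fun r => (Function.update i l z r).1) =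
        Function.update (fun r => (i r).1) l z.1 := by
      intro i z
      ext r
      by_cases hr : r = l
      · subst hr; simp
      · simp [hr]
    have e2 : ∀ (i : Fin n → X × Y) (z : X × Y), (fun r => (Function.update i l z r).2) =
        Function.update (fun r => (i r).2) l z.2 := by
      intro i z
      ext r
      by_cases hr : r = l
      · subst hr; simp
      · simp [hr]
    simp only [e1, e2]
    refine (sum_arrow2 (fun (i : Fin n → X) (j : Fin n → Y) =>
      a (Function.update i l x.1) * b (Function.update j l x.2) *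
      (a (Function.update i l y.1) * b (Function.update j l y.2)))).trans ?_
    have e3 : ∑ i : Fin n → X, ∑ j : Fin n → Y, a (Function.update i l x.1) *
        b (Function.update j l x.2) * (a (Function.update i l y.1) * b (Function.update j l y.2)) =
        (∑ i, a (Function.update i l x.1) * a (Function.update i l y.1)) *
        ∑ j, b (Function.update j l x.2) * b (Function.update j l y.2) := by
      rw [sum_mul_sum]
      exact sum_congr rfl (fun i _ => sum_congr rfl (fun j _ => by ring))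
    rw [e3]
    by_cases h1 : x.1 = y.1
    · rw [hb l _ _ (fun h2 => hxy (Prod.ext h1 h2)), mul_zero]
    · rw [ha l _ _ h1, zero_mul]

/-- A complementary family of `2 ^ r` arrays on a group of order `N` exists. -/
def FN (r N : ℕ) : Prop :=
  ∃ (K : Type) (_ : AddCommGroup K) (_ : Fintype K), Fintype.card K = N ∧ Fam r K

theorem fn_succ {r N : ℕ} (h : FN r N) : FN (r + 1) N := by
  obtain ⟨K, _, _, hK, h⟩ := h
  exact ⟨K, _, _, hK, fam_succ h⟩

theorem fn_mul {r s N M : ℕ} (h : FN r N) (h' : FN s M) : FN (r + s) (N * M) := by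
  obtain ⟨K, _, _, hK, h⟩ := h
  obtain ⟨L, _, _, hL, h'⟩ := h'
  exact ⟨K × L, inferInstance, inferInstance, by rw [Fintype.card_prod, hK, hL], fam_mul h h'⟩

theorem fn_three {q1 q2 q3 : ℕ} (h1 : PP q1) (h2 : PP q2) (h3 : PP q3) :
    FN 3 (q1 * (q2 * q3)) := by
  obtain ⟨G1, _, _, c1, g1⟩ := good_PP h1
  obtain ⟨G2, _, _, c2, g2⟩ := good_PP h2
  obtain ⟨G3, _, _, c3, g3⟩ := good_PP h3
  exact ⟨G1 × G2 × G3, inferInstance, inferInstance, by simp [Fintype.card_prod, c1, c2, c3],
    fam_three g1 g2 g3⟩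

theorem fn_six {q1 q2 q3 q4 q5 q6 : ℕ} (h1 : PP q1) (h2 : PP q2) (h3 : PP q3) (h4 : PP q4)
    (h5 : PP q5) (h6 : PP q6) : FN 4 (q1 * (q2 * (q3 * (q4 * (q5 * q6))))) := by
  obtain ⟨G1, _, _, c1, g1⟩ := good_PP h1
  obtain ⟨G2, _, _, c2, g2⟩ := good_PP h2
  obtain ⟨G3, _, _, c3, g3⟩ := good_PP h3
  obtain ⟨G4, _, _, c4, g4⟩ := good_PP h4
  obtain ⟨G5, _, _, c5, g5⟩ := good_PP h5
  obtain ⟨G6, _, _, c6, g6⟩ := good_PP h6
  exact ⟨G1 × (G2 × (G3 × (G4 × (G5 × (G6 × PUnit))))), inferInstance, inferInstance,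
    by simp [Fintype.card_prod, c1, c2, c3, c4, c5, c6], fam_six g1 g2 g3 g4 g5 g6⟩

theorem peel3 {m k : ℕ} (hm : Odd m) (hk : m.primeFactors.card ≤ k + 3) :
    ∃ q1 q2 q3 m', m = q1 * (q2 * q3) * m' ∧ PP q1 ∧ PP q2 ∧ PP q3 ∧ Odd m' ∧
      m'.primeFactors.card ≤ k := by
  obtain ⟨q1, m1, e1, p1, o1, c1⟩ := peel (k := k + 2) hm (by omega)
  obtain ⟨q2, m2, e2, p2, o2, c2⟩ := peel (k := k + 1) o1 (by omega)
  obtain ⟨q3, m3, e3, p3, o3, c3⟩ := peel (k := k) o2 (by omega)
  exact ⟨q1, q2, q3, m3, by rw [e1, e2, e3]; ring, p1, p2, p3, o3, c3⟩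

theorem one_of_card_zero {m : ℕ} (hm : Odd m) (h : m.primeFactors.card ≤ 0) : m = 1 := by
  have hm0 : m ≠ 0 := by rintro rfl; simp at hm
  have h0 : m.primeFactors = ∅ := card_eq_zero.1 (by omega)
  rcases Nat.primeFactors_eq_empty.1 h0 with h | h
  · exact absurd h hm0
  · exact h

/-- Odd numbers with at most `3 (j + 1)` prime factors carry a family of `2 ^ (2 j + 3)` arrays. -/
theorem fn_all (j : ℕ) : (∀ m : ℕ, Odd m → m.primeFactors.card ≤ 3 * (j + 1) → FN (2 * j + 3) m) ∧
    (∀ m : ℕ, Odd m → m.primeFactors.card ≤ 3 * (j + 2) → FN (2 * (j + 1) + 3) m) := by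
  induction j with
  | zero =>
    constructor
    · intro m hm hc
      obtain ⟨q1, q2, q3, m', e, p1, p2, p3, o, c⟩ := peel3 (k := 0) hm (by omega)
      have := one_of_card_zero o c
      subst this
      rw [e, mul_one]
      exact fn_three p1 p2 p3
    · intro m hm hc
      obtain ⟨q1, q2, q3, m', e, p1, p2, p3, o, c⟩ := peel3 (k := 3) hm (by omega)
      obtain ⟨q4, q5, q6, m'', e', p4, p5, p6, o', c'⟩ := peel3 (k := 0) o (by omega)
      have := one_of_card_zero o' c'
      subst this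
      have h := fn_succ (fn_six p1 p2 p3 p4 p5 p6)
      have he : m = q1 * (q2 * (q3 * (q4 * (q5 * q6)))) := by rw [e, e']; ring
      rw [he]
      exact h
  | succ j ih =>
    refine ⟨ih.2, ?_⟩
    intro m hm hc
    obtain ⟨q1, q2, q3, m', e, p1, p2, p3, o, c⟩ := peel3 (k := 3 * (j + 1) + 3) hm (by omega)
    obtain ⟨q4, q5, q6, m'', e', p4, p5, p6, o', c'⟩ := peel3 (k := 3 * (j + 1)) o (by omega)
    have h := fn_mul (ih.1 m'' o' c') (fn_six p1 p2 p3 p4 p5 p6)
    have he : m = m'' * (q1 * (q2 * (q3 * (q4 * (q5 * q6))))) := by rw [e, e']; ring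
    have hr : 2 * (j + 1 + 1) + 3 = 2 * j + 3 + 4 := by ring
    rw [he, hr]
    exact h

theorem peelk (k : ℕ) : ∀ {m l : ℕ}, Odd m → m.primeFactors.card ≤ l + k →
    ∃ a m', m = a * m' ∧ Odd a ∧ a.primeFactors.card ≤ k ∧ Odd m' ∧ m'.primeFactors.card ≤ l := by
  induction k with
  | zero =>
    intro m l hm hc
    exact ⟨1, m, by ring, odd_one, by simp, hm, by omega⟩
  | succ k ih =>
    intro m l hm hc
    obtain ⟨a, m', e, oa, ca, om, cm⟩ := ih (l := l + 1) hm (by omega)
    obtain ⟨q, m'', e', pq, om', cm'⟩ := peel (k := l) om cm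
    have oq : Odd q := by
      rcases pq with rfl | h
      · exact odd_one
      · exact h.2
    have cq : q.primeFactors.card ≤ 1 := by
      rcases pq with rfl | h
      · simp
      · obtain ⟨p, s, hp, hs, rfl⟩ := (isPrimePow_nat_iff _).1 h.1
        rw [Nat.primeFactors_prime_pow hs.ne' hp]
        simp
    refine ⟨a * q, m'', by rw [e, e']; ring, oa.mul oq, ?_, om', cm'⟩
    have ha0 : a ≠ 0 := by rintro rfl; simp at oa
    have hq0 : q ≠ 0 := by rintro rfl; simp at oq
    rw [Nat.primeFactors_mul ha0 hq0]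
    exact (card_union_le _ _).trans (by omega)

theorem on_two_mul {j m : ℕ} (hm : Odd m) (hc : m.primeFactors.card ≤ 3 * (j + 1)) :
    On (2 * j + 4) (2 * m) := by
  classical
  obtain ⟨K, _, _, hK, h⟩ := (fn_all j).1 m hm hc
  obtain ⟨A, hA⟩ := exists_hn (m := 2 * j + 3) ⟨j + 1, by ring⟩ (by omega) h
  exact ⟨Bool × K, inferInstance, inferInstance, A, by simp [hK], hA⟩

theorem on_pow (j b : ℕ) : ∀ m : ℕ, Odd m → m.primeFactors.card ≤ 3 * (j + 1) * b →
    On (2 * j + 4) (2 ^ b * m) := by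
  induction b with
  | zero =>
    intro m hm hc
    have := one_of_card_zero hm (by simpa using hc)
    subst this
    simpa using on_one _
  | succ b ih =>
    intro m hm hc
    obtain ⟨a, m', e, oa, ca, om, cm⟩ := peelk (3 * (j + 1)) (l := 3 * (j + 1) * b) hm
      (by rw [mul_add, mul_one] at hc; exact hc)
    have := on_mul (on_two_mul oa ca) (ih m' om cm)
    have e : 2 ^ (b + 1) * m = 2 * a * (2 ^ b * m') := by
      rw [e]; ring
    rw [e]; exact this

theorem main_all (n : ℕ) (hn : 4 ≤ n) (t : ℕ) (ht : 1 ≤ t)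
    (hc : (t.primeFactors.erase 2).card ≤ 3 * (n / 2 - 1) * (t.factorization 2 + 1)) :
    HasH n (2 * t) := by
  have ht0 : t ≠ 0 := by omega
  have hmul : 2 ^ t.factorization 2 * (t / 2 ^ t.factorization 2) = t :=
    Nat.ordProj_mul_ordCompl_eq_self t 2
  have hodd : Odd (t / 2 ^ t.factorization 2) := by
    rw [← Nat.not_even_iff_odd, even_iff_two_dvd]
    exact Nat.not_dvd_ordCompl Nat.prime_two ht0
  have hsub : (t / 2 ^ t.factorization 2).primeFactors ⊆ t.primeFactors.erase 2 := by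
    intro r hr
    have hr' := Nat.mem_primeFactors.1 hr
    refine mem_erase.2 ⟨?_, Nat.mem_primeFactors.2 ⟨hr'.1, hr'.2.1.trans
      (Nat.ordCompl_dvd t 2), ht0⟩⟩
    rintro rfl
    exact Nat.not_dvd_ordCompl Nat.prime_two ht0 hr'.2.1
  obtain ⟨j, hj⟩ : ∃ j, n / 2 = j + 2 := ⟨n / 2 - 2, by omega⟩
  have hj' : n / 2 - 1 = j + 1 := by omega
  rw [hj'] at hc
  have h := on_pow j (t.factorization 2 + 1) _ hodd ((card_le_card hsub).trans hc)
  have e : 2 ^ (t.factorization 2 + 1) * (t / 2 ^ t.factorization 2) = 2 * t := by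
    conv_rhs => rw [← hmul]
    ring
  rw [e] at h
  have h1 := hasH_of_on h
  have hn' : n = 2 * j + 4 ∨ n = 2 * j + 5 := by omega
  rcases hn' with rfl | rfl
  · exact h1
  · exact HasH_succ (by omega) h1

end Pool.Agent.Q148.HD
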