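import Pool.Agent.Q148.HD.System

set_option autoImplicit false

/-! From four dimensions to all dimensions, tensor products, and the orders reached. -/

namespace Pool.Agent.Q148.HD

open Finset

/-- An `n`-dimensional Hadamard matrix of order `N` exists. -/
def HasH (n N : ℕ) : Prop :=
  ∃ A : (Fin n → Fin N) → ℤ, (∀ i, A i = 1 ∨ A i = -1) ∧
    ∀ l : Fin n, ∀ x y : Fin N,
      (∑ i : Fin n → Fin N, A (Function.update i l x) * A (Function.update i l y)) =
        if x = y then (N : ℤ) ^ n else 0

/-- A four-dimensional Hadamard array of order `N` exists, on some index set. -/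
def O4 (N : ℕ) : Prop :=
  ∃ (X : Type) (_ : Fintype X) (a : X → X → X → X → ℤ), Fintype.card X = N ∧ IsH4 a

theorem sum_cons {X : Type} [Fintype X] {n : ℕ} (F : (Fin (n + 1) → X) → ℤ) :
    ∑ j, F j = ∑ x, ∑ i : Fin n → X, F (Fin.cons x i) := by
  rw [← Fintype.sum_prod_type']
  exact (Fintype.sum_equiv (Fin.consEquiv (fun _ => X)) _ _ (fun _ => rfl)).symm

theorem sum_four {X : Type} [Fintype X] (F : X → X → X → X → ℤ) :
    ∑ i : Fin 4 → X, F (i 0) (i 1) (i 2) (i 3) = ∑ p, ∑ q, ∑ r, ∑ s, F p q r s := by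
  rw [sum_cons]
  refine sum_congr rfl (fun p _ => ?_)
  rw [sum_cons]
  refine sum_congr rfl (fun q _ => ?_)
  rw [sum_cons]
  refine sum_congr rfl (fun r _ => ?_)
  rw [sum_cons]
  refine sum_congr rfl (fun s _ => ?_)
  rw [Fintype.sum_unique]
  rfl

theorem HasH_four {N : ℕ} (h : O4 N) : HasH 4 N := by
  obtain ⟨X, _, a, hX, hpm, h1, h2, h3, h4⟩ := h
  classical
  let e : Fin N ≃ X := (Fintype.equivFinOfCardEq hX).symm
  have hsum : ∀ F : X → ℤ, ∑ x : Fin N, F (e x) = ∑ x, F x := fun F => Equiv.sum_comp e F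
  have hcard : (Fintype.card X : ℤ) = N := by rw [hX]
  refine ⟨fun i => a (e (i 0)) (e (i 1)) (e (i 2)) (e (i 3)), fun i => hpm _ _ _ _, ?_⟩
  intro l x y
  by_cases hxy : x = y
  · subst hxy
    rw [if_pos rfl]
    have : ∀ i : Fin 4 → Fin N, a (e (Function.update i l x 0)) (e (Function.update i l x 1))
        (e (Function.update i l x 2)) (e (Function.update i l x 3)) *
        a (e (Function.update i l x 0)) (e (Function.update i l x 1))
        (e (Function.update i l x 2)) (e (Function.update i l x 3)) = 1 := by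
      intro i
      rcases hpm (e (Function.update i l x 0)) (e (Function.update i l x 1))
        (e (Function.update i l x 2)) (e (Function.update i l x 3)) with h | h <;> rw [h] <;>
        norm_num
    rw [sum_congr rfl (fun i _ => this i)]
    simp
  · rw [if_neg hxy]
    have hne : e x ≠ e y := fun h => hxy (e.injective h)
    fin_cases l
    · have : ∑ i : Fin 4 → Fin N, a (e (Function.update i 0 x 0)) (e (Function.update i 0 x 1))
          (e (Function.update i 0 x 2)) (e (Function.update i 0 x 3)) *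
          a (e (Function.update i 0 y 0)) (e (Function.update i 0 y 1))
          (e (Function.update i 0 y 2)) (e (Function.update i 0 y 3)) =
          ∑ i : Fin 4 → Fin N, (fun _ q r s : Fin N => a (e x) (e q) (e r) (e s) *
            a (e y) (e q) (e r) (e s)) (i 0) (i 1) (i 2) (i 3) := by
        refine sum_congr rfl (fun i _ => ?_)
        simp [Function.update]
      show _ = (0 : ℤ)
      refine this.trans ((sum_four (fun _ q r s : Fin N => a (e x) (e q) (e r) (e s) *
            a (e y) (e q) (e r) (e s))).trans ?_)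
      refine sum_eq_zero (fun p _ => ?_)
      have h := h1 _ _ hne
      rw [← hsum] at h
      simp only [← hsum] at h
      exact h
    · have : ∑ i : Fin 4 → Fin N, a (e (Function.update i 1 x 0)) (e (Function.update i 1 x 1))
          (e (Function.update i 1 x 2)) (e (Function.update i 1 x 3)) *
          a (e (Function.update i 1 y 0)) (e (Function.update i 1 y 1))
          (e (Function.update i 1 y 2)) (e (Function.update i 1 y 3)) =
          ∑ i : Fin 4 → Fin N, (fun p _ r s : Fin N => a (e p) (e x) (e r) (e s) *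
            a (e p) (e y) (e r) (e s)) (i 0) (i 1) (i 2) (i 3) := by
        refine sum_congr rfl (fun i _ => ?_)
        simp [Function.update]
      show _ = (0 : ℤ)
      refine this.trans ((sum_four (fun p _ r s : Fin N => a (e p) (e x) (e r) (e s) *
            a (e p) (e y) (e r) (e s))).trans ?_)
      have h := h2 _ _ hne
      rw [← hsum] at h
      simp only [← hsum] at h
      rw [show (∑ p : Fin N, ∑ q : Fin N, ∑ r : Fin N, ∑ s : Fin N, a (e p) (e x) (e r) (e s) *
            a (e p) (e y) (e r) (e s)) = ∑ q : Fin N, ∑ p : Fin N, ∑ r : Fin N, ∑ s : Fin N,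
            a (e p) (e x) (e r) (e s) * a (e p) (e y) (e r) (e s) from sum_comm]
      exact sum_eq_zero (fun q _ => h)
    · have : ∑ i : Fin 4 → Fin N, a (e (Function.update i 2 x 0)) (e (Function.update i 2 x 1))
          (e (Function.update i 2 x 2)) (e (Function.update i 2 x 3)) *
          a (e (Function.update i 2 y 0)) (e (Function.update i 2 y 1))
          (e (Function.update i 2 y 2)) (e (Function.update i 2 y 3)) =
          ∑ i : Fin 4 → Fin N, (fun p q _ s : Fin N => a (e p) (e q) (e x) (e s) *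
            a (e p) (e q) (e y) (e s)) (i 0) (i 1) (i 2) (i 3) := by
        refine sum_congr rfl (fun i _ => ?_)
        simp [Function.update]
      show _ = (0 : ℤ)
      refine this.trans ((sum_four (fun p q _ s : Fin N => a (e p) (e q) (e x) (e s) *
            a (e p) (e q) (e y) (e s))).trans ?_)
      have h := h3 _ _ hne
      rw [← hsum] at h
      simp only [← hsum] at h
      have hr : ∀ p q : Fin N, ∑ _r : Fin N, ∑ s : Fin N, a (e p) (e q) (e x) (e s) *
            a (e p) (e q) (e y) (e s) = (N : ℤ) * ∑ s : Fin N, a (e p) (e q) (e x) (e s) *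
            a (e p) (e q) (e y) (e s) := fun p q => by simp
      simp only [hr, ← mul_sum, h, mul_zero]
    · have : ∑ i : Fin 4 → Fin N, a (e (Function.update i 3 x 0)) (e (Function.update i 3 x 1))
          (e (Function.update i 3 x 2)) (e (Function.update i 3 x 3)) *
          a (e (Function.update i 3 y 0)) (e (Function.update i 3 y 1))
          (e (Function.update i 3 y 2)) (e (Function.update i 3 y 3)) =
          ∑ i : Fin 4 → Fin N, (fun p q r _ : Fin N => a (e p) (e q) (e r) (e x) *
            a (e p) (e q) (e r) (e y)) (i 0) (i 1) (i 2) (i 3) := by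
        refine sum_congr rfl (fun i _ => ?_)
        simp [Function.update]
      show _ = (0 : ℤ)
      refine this.trans ((sum_four (fun p q r _ : Fin N => a (e p) (e q) (e r) (e x) *
            a (e p) (e q) (e r) (e y))).trans ?_)
      have h := h4 _ _ hne
      rw [← hsum] at h
      simp only [← hsum] at h
      have hr : ∀ p q r : Fin N, ∑ _s : Fin N, a (e p) (e q) (e r) (e x) *
            a (e p) (e q) (e r) (e y) = (N : ℤ) * (a (e p) (e q) (e r) (e x) *
            a (e p) (e q) (e r) (e y)) := fun p q r => by simp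
      simp only [hr, ← mul_sum, h, mul_zero]

section step

variable {X : Type} [AddCommGroup X] [Fintype X] [DecidableEq X]

theorem step_sum {n : ℕ} (A : (Fin (n + 1) → X) → ℤ)
    (h : ∀ l : Fin (n + 1), ∀ x y : X, x ≠ y →
      ∑ i : Fin (n + 1) → X, A (Function.update i l x) * A (Function.update i l y) = 0)
    (hX : (0 : ℤ) < Fintype.card X) :
    ∀ l : Fin (n + 2), ∀ x y : X, x ≠ y →
      ∑ j : Fin (n + 2) → X,
        A (Fin.tail (Function.update j l x) + Pi.single 0 (Function.update j l x 0)) *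
        A (Fin.tail (Function.update j l y) + Pi.single 0 (Function.update j l y 0)) = 0 := by
  intro l x y hxy
  rw [sum_cons]
  refine Fin.cases ?_ (fun k => ?_) l
  · have e1 : ∀ (x0 : X) (i : Fin (n + 1) → X) (x : X),
        A (Fin.tail (Function.update (Fin.cons x0 i : Fin (n + 2) → X) 0 x) +
          Pi.single 0 (Function.update (Fin.cons x0 i : Fin (n + 2) → X) 0 x 0)) =
        A (Function.update i 0 (i 0 + x)) := by
      intro x0 i x
      congr 1
      ext k
      refine Fin.cases ?_ (fun k' => ?_) k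
      · simp [Fin.tail]
      · simp [Fin.tail, Function.update]
    simp only [e1]
    have hS : (Fintype.card X : ℤ) * ∑ i : Fin (n + 1) → X,
        A (Function.update i 0 (i 0 + x)) * A (Function.update i 0 (i 0 + y)) = 0 := by
      have hc : ∑ c : X, ∑ i : Fin (n + 1) → X,
          A (Function.update i 0 (c + x)) * A (Function.update i 0 (c + y)) = 0 :=
        sum_eq_zero (fun c _ => h 0 _ _ (fun hh => hxy (add_left_cancel hh)))
      rw [← hc]
      have : (Fintype.card X : ℤ) * ∑ i : Fin (n + 1) → X,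
          A (Function.update i 0 (i 0 + x)) * A (Function.update i 0 (i 0 + y)) =
          ∑ c : X, ∑ i : Fin (n + 1) → X,
          A (Function.update i 0 (i 0 + x)) * A (Function.update i 0 (i 0 + y)) := by simp
      rw [this, ← Fintype.sum_prod_type', ← Fintype.sum_prod_type']
      refine Fintype.sum_equiv
        { toFun := fun z : X × (Fin (n + 1) → X) => (z.2 0, Function.update z.2 0 z.1)
          invFun := fun z : X × (Fin (n + 1) → X) => (z.2 0, Function.update z.2 0 z.1)
          left_inv := fun z => by simp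
          right_inv := fun z => by simp } _ _ (fun z => ?_)
      simp
    have := (mul_eq_zero.1 hS).resolve_left hX.ne'
    rw [this]; simp
  · have e2 : ∀ (x0 : X) (i : Fin (n + 1) → X) (x : X),
        Fin.tail (Function.update (Fin.cons x0 i : Fin (n + 2) → X) k.succ x) +
          Pi.single 0 (Function.update (Fin.cons x0 i : Fin (n + 2) → X) k.succ x 0) =
        Function.update (i + Pi.single 0 x0) k (x + (Pi.single 0 x0 : Fin (n + 1) → X) k) := by
      intro x0 i x
      ext m
      by_cases hm : m = k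
      · subst hm
        simp [Fin.tail, Function.update_of_ne (Fin.succ_ne_zero m).symm]
      · have h1 : Function.update (Fin.cons x0 i : Fin (n + 2) → X) k.succ x m.succ = i m := by
          rw [Function.update_of_ne (fun hh => hm (Fin.succ_injective _ hh)), Fin.cons_succ]
        simp [Fin.tail, h1, Function.update_of_ne (Fin.succ_ne_zero k).symm,
          Function.update_of_ne hm]
    simp only [e2]
    refine sum_eq_zero (fun x0 _ => ?_)
    have := h k (x + (Pi.single 0 x0 : Fin (n + 1) → X) k) (y + (Pi.single 0 x0 : Fin (n + 1) → X) k)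
      (fun hh => hxy (add_right_cancel hh))
    rw [← this]
    exact Fintype.sum_equiv (Equiv.addRight (Pi.single 0 x0)) _ _ (fun i => rfl)

end step

theorem HasH_succ {n N : ℕ} (hN : 1 ≤ N) (h : HasH (n + 1) N) : HasH (n + 2) N := by
  haveI : NeZero N := ⟨by omega⟩
  obtain ⟨A, hpm, hA⟩ := h
  have hA' : ∀ l : Fin (n + 1), ∀ x y : Fin N, x ≠ y →
      ∑ i : Fin (n + 1) → Fin N, A (Function.update i l x) * A (Function.update i l y) = 0 :=
    fun l x y hxy => by rw [hA, if_neg hxy]
  refine ⟨fun j => A (Fin.tail j + Pi.single 0 (j 0)), fun j => hpm _, ?_⟩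
  intro l x y
  by_cases hxy : x = y
  · subst hxy
    rw [if_pos rfl]
    have : ∀ i : Fin (n + 1) → Fin N, A i * A i = 1 := fun i => by
      rcases hpm i with h | h <;> rw [h] <;> norm_num
    simp only [this]
    simp
  · rw [if_neg hxy]
    exact step_sum A hA' (by simp; omega) l x y hxy

theorem HasH_all {N : ℕ} (h : O4 N) (hN : 1 ≤ N) : ∀ n, 4 ≤ n → HasH n N := by
  intro n hn
  induction n, hn using Nat.le_induction with
  | base => exact HasH_four h
  | succ n hn ih =>
    obtain ⟨m, rfl⟩ : ∃ m, n = m + 1 := ⟨n - 1, by omega⟩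
    exact HasH_succ hN ih

theorem O4_one : O4 1 :=
  ⟨PUnit, inferInstance, fun _ _ _ _ => 1, rfl, fun _ _ _ _ => Or.inl rfl,
    fun _ _ h => absurd (Subsingleton.elim _ _) h, fun _ _ h => absurd (Subsingleton.elim _ _) h,
    fun _ _ h => absurd (Subsingleton.elim _ _) h, fun _ _ h => absurd (Subsingleton.elim _ _) h⟩

theorem sum_prod3 {X Y : Type} [Fintype X] [Fintype Y] (f : X → X → X → ℤ) (g : Y → Y → Y → ℤ) :
    ∑ q : X × Y, ∑ r : X × Y, ∑ s : X × Y, f q.1 r.1 s.1 * g q.2 r.2 s.2 =
      (∑ q, ∑ r, ∑ s, f q r s) * ∑ q, ∑ r, ∑ s, g q r s := by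
  have h1 : ∀ q r : X × Y, ∑ s : X × Y, f q.1 r.1 s.1 * g q.2 r.2 s.2 =
      (∑ s, f q.1 r.1 s) * ∑ s, g q.2 r.2 s := by
    intro q r
    rw [sum_mul_sum, Fintype.sum_prod_type]
  have h2 : ∀ q : X × Y, ∑ r : X × Y, (∑ s, f q.1 r.1 s) * ∑ s, g q.2 r.2 s =
      (∑ r, ∑ s, f q.1 r s) * ∑ r, ∑ s, g q.2 r s := by
    intro q
    rw [sum_mul_sum, Fintype.sum_prod_type]
  simp only [h1, h2]
  rw [sum_mul_sum, Fintype.sum_prod_type]

theorem O4_mul {N M : ℕ} (h : O4 N) (h' : O4 M) : O4 (N * M) := by
  obtain ⟨X, _, a, hX, pa, a1, a2, a3, a4⟩ := h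
  obtain ⟨Y, _, b, hY, pb, b1, b2, b3, b4⟩ := h'
  classical
  refine ⟨X × Y, inferInstance, fun p q r s => a p.1 q.1 r.1 s.1 * b p.2 q.2 r.2 s.2,
    by rw [Fintype.card_prod, hX, hY], fun p q r s => ?_, fun x y hxy => ?_, fun x y hxy => ?_,
    fun x y hxy => ?_, fun x y hxy => ?_⟩
  · show a p.1 q.1 r.1 s.1 * b p.2 q.2 r.2 s.2 = 1 ∨ a p.1 q.1 r.1 s.1 * b p.2 q.2 r.2 s.2 = -1
    rcases pa p.1 q.1 r.1 s.1 with h | h <;> rcases pb p.2 q.2 r.2 s.2 with h' | h' <;>
      rw [h, h'] <;> norm_num
  · have e := sum_prod3 (fun q r s => a x.1 q r s * a y.1 q r s)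
      (fun q r s => b x.2 q r s * b y.2 q r s)
    refine Eq.trans (sum_congr rfl (fun q _ => sum_congr rfl (fun r _ => sum_congr rfl
      (fun s _ => ?_)))) (e.trans ?_)
    · ring
    · by_cases h1 : x.1 = y.1
      · rw [b1 _ _ (fun h2 => hxy (Prod.ext h1 h2)), mul_zero]
      · rw [a1 _ _ h1, zero_mul]
  · have e := sum_prod3 (fun q r s => a q x.1 r s * a q y.1 r s)
      (fun q r s => b q x.2 r s * b q y.2 r s)
    refine Eq.trans (sum_congr rfl (fun q _ => sum_congr rfl (fun r _ => sum_congr rfl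
      (fun s _ => ?_)))) (e.trans ?_)
    · ring
    · by_cases h1 : x.1 = y.1
      · rw [b2 _ _ (fun h2 => hxy (Prod.ext h1 h2)), mul_zero]
      · rw [a2 _ _ h1, zero_mul]
  · have e := sum_prod3 (fun q r s => a q r x.1 s * a q r y.1 s)
      (fun q r s => b q r x.2 s * b q r y.2 s)
    refine Eq.trans (sum_congr rfl (fun q _ => sum_congr rfl (fun r _ => sum_congr rfl
      (fun s _ => ?_)))) (e.trans ?_)
    · ring
    · by_cases h1 : x.1 = y.1
      · rw [b3 _ _ (fun h2 => hxy (Prod.ext h1 h2)), mul_zero]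
      · rw [a3 _ _ h1, zero_mul]
  · have e := sum_prod3 (fun q r s => a q r s x.1 * a q r s y.1)
      (fun q r s => b q r s x.2 * b q r s y.2)
    refine Eq.trans (sum_congr rfl (fun q _ => sum_congr rfl (fun r _ => sum_congr rfl
      (fun s _ => ?_)))) (e.trans ?_)
    · ring
    · by_cases h1 : x.1 = y.1
      · rw [b4 _ _ (fun h2 => hxy (Prod.ext h1 h2)), mul_zero]
      · rw [a4 _ _ h1, zero_mul]

/-- One, or an odd prime power. -/
def PP (q : ℕ) : Prop := q = 1 ∨ (IsPrimePow q ∧ Odd q)

theorem good_PP {q : ℕ} (h : PP q) :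
    ∃ (G : Type) (_ : AddCommGroup G) (_ : Fintype G), Fintype.card G = q ∧ Good G := by
  rcases h with rfl | ⟨h, ho⟩
  · exact ⟨PUnit, inferInstance, inferInstance, rfl, good_punit⟩
  · exact good_primePow h ho

theorem O4_three {q1 q2 q3 : ℕ} (h1 : PP q1) (h2 : PP q2) (h3 : PP q3) :
    O4 (2 * (q1 * (q2 * q3))) := by
  obtain ⟨G1, _, _, c1, g1⟩ := good_PP h1
  obtain ⟨G2, _, _, c2, g2⟩ := good_PP h2
  obtain ⟨G3, _, _, c3, g3⟩ := good_PP h3
  obtain ⟨a, ha⟩ := exists_h4_good g1 g2 g3
  refine ⟨_, _, a, ?_, ha⟩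
  simp [Fintype.card_prod, c1, c2, c3]

theorem peel {m k : ℕ} (hm : Odd m) (hk : m.primeFactors.card ≤ k + 1) :
    ∃ q m', m = q * m' ∧ PP q ∧ Odd m' ∧ m'.primeFactors.card ≤ k := by
  by_cases h1 : m = 1
  · exact ⟨1, 1, by simp [h1], Or.inl rfl, odd_one, by simp⟩
  have hm0 : m ≠ 0 := by rintro rfl; simp at hm
  have hp : (m.minFac).Prime := Nat.minFac_prime h1
  set p := m.minFac with hpdef
  have hpm : p ∣ m := Nat.minFac_dvd m
  have hmul : p ^ m.factorization p * (m / p ^ m.factorization p) = m :=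
    Nat.ordProj_mul_ordCompl_eq_self m p
  have hodd2 : Odd (m / p ^ m.factorization p) := by
    rw [← hmul] at hm
    exact (Nat.odd_mul.1 hm).2
  have hodd1 : Odd (p ^ m.factorization p) := by
    rw [← hmul] at hm
    exact (Nat.odd_mul.1 hm).1
  refine ⟨p ^ m.factorization p, m / p ^ m.factorization p, hmul.symm,
    Or.inr ⟨?_, hodd1⟩, hodd2, ?_⟩
  · exact hp.isPrimePow.pow (by
      have := (hp.factorization_pos_of_dvd hm0 hpm)
      omega)
  · have hsub : (m / p ^ m.factorization p).primeFactors ⊆ m.primeFactors.erase p := by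
      intro r hr
      have hr' := Nat.mem_primeFactors.1 hr
      refine mem_erase.2 ⟨?_, Nat.mem_primeFactors.2 ⟨hr'.1, hr'.2.1.trans
        (Nat.ordCompl_dvd m p), hm0⟩⟩
      rintro rfl
      exact Nat.not_dvd_ordCompl hp hm0 hr'.2.1
    have hc := card_le_card hsub
    rw [card_erase_of_mem (Nat.mem_primeFactors.2 ⟨hp, hpm, hm0⟩)] at hc
    omega

theorem O4_pow (b : ℕ) : ∀ m : ℕ, Odd m → m.primeFactors.card ≤ 3 * b → O4 (2 ^ b * m) := by
  induction b with
  | zero =>
    intro m hm hc
    have hm0 : m ≠ 0 := by rintro rfl; simp at hm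
    have : m = 1 := by
      have h0 : m.primeFactors = ∅ := card_eq_zero.1 (by omega)
      rcases Nat.primeFactors_eq_empty.1 h0 with h | h
      · exact absurd h hm0
      · exact h
    subst this
    simpa using O4_one
  | succ b ih =>
    intro m hm hc
    obtain ⟨q1, m1, e1, p1, o1, c1⟩ := peel (k := 3 * b + 2) hm (by omega)
    obtain ⟨q2, m2, e2, p2, o2, c2⟩ := peel (k := 3 * b + 1) o1 (by omega)
    obtain ⟨q3, m3, e3, p3, o3, c3⟩ := peel (k := 3 * b) o2 (by omega)
    have := O4_mul (O4_three p1 p2 p3) (ih m3 o3 c3)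
    have e : 2 ^ (b + 1) * m = 2 * (q1 * (q2 * q3)) * (2 ^ b * m3) := by
      rw [e1, e2, e3]; ring
    rw [e]; exact this

theorem main_orders (n : ℕ) (hn : 4 ≤ n) (t : ℕ) (ht : 1 ≤ t)
    (hc : (t.primeFactors.erase 2).card ≤ 3 * (t.factorization 2 + 1)) : HasH n (2 * t) := by
  have ht0 : t ≠ 0 := by omega
  have hmul : 2 ^ t.factorization 2 * (t / 2 ^ t.factorization 2) = t :=
    Nat.ordProj_mul_ordCompl_eq_self t 2
  have hodd : Odd (t / 2 ^ t.factorization 2) := by
    rw [← Nat.not_even_iff_odd, even_iff_two_dvd]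
    exact Nat.not_dvd_ordCompl Nat.prime_two ht0
  have hsub : (t / 2 ^ t.factorization 2).primeFactors ⊆ t.primeFactors.erase 2 := by
    intro r hr
    have hr' := Nat.mem_primeFactors.1 hr
    refine mem_erase.2 ⟨?_, Nat.mem_primeFactors.2 ⟨hr'.1, hr'.2.1.trans
      (Nat.ordCompl_dvd t 2), ht0⟩⟩
    rintro rfl
    exact Nat.not_dvd_ordCompl Nat.prime_two ht0 hr'.2.1
  have h := O4_pow (t.factorization 2 + 1) _ hodd ((card_le_card hsub).trans hc)
  have e : 2 ^ (t.factorization 2 + 1) * (t / 2 ^ t.factorization 2) = 2 * t := by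
    conv_rhs => rw [← hmul]
    ring
  rw [e] at h
  exact HasH_all h (by omega) n hn

end Pool.Agent.Q148.HD
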