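import Pool.Agent.Q148.HD.Golay

set_option autoImplicit false

/-! Orders whose binary digit sum is small. -/

namespace Pool.Agent.Q148.HD

open Finset

section dyadic

variable {m : ℕ} [NeZero m]

/-- The residues in an interval. -/
def itv (m : ℕ) [NeZero m] (s L : ℕ) : Finset (ZMod m) :=
  univ.filter (fun x : ZMod m => s ≤ x.val ∧ x.val < s + L)

theorem mem_itv (s L : ℕ) (x : ZMod m) : x ∈ itv m s L ↔ s ≤ x.val ∧ x.val < s + L := by
  simp [itv]

theorem itv_shift {s L : ℕ} (h : s + 2 * L ≤ m) :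
    (itv m s L).image (fun x => x + (L : ZMod m)) = itv m (s + L) L := by
  rcases Nat.eq_zero_or_pos L with rfl | hL
  · ext x; rw [mem_image, mem_itv]
    constructor
    · rintro ⟨y, hy, _⟩; rw [mem_itv] at hy; omega
    · intro hx; omega
  have hLm : L < m := by omega
  have hLv : (L : ZMod m).val = L := ZMod.val_cast_of_lt hLm
  ext x
  rw [mem_image, mem_itv]
  constructor
  · rintro ⟨y, hy, rfl⟩
    rw [mem_itv] at hy
    have : (y + (L : ZMod m)).val = y.val + L := by
      rw [ZMod.val_add_of_lt (by rw [hLv]; omega), hLv]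
    rw [this]; omega
  · intro hx
    refine ⟨x - (L : ZMod m), ?_, by ring⟩
    rw [mem_itv, ZMod.val_sub (by rw [hLv]; omega), hLv]
    omega

theorem itv_union (s L M : ℕ) : itv m s L ∪ itv m (s + L) M = itv m s (L + M) := by
  ext x
  rw [mem_union, mem_itv, mem_itv, mem_itv]
  omega

theorem itv_disjoint (s L M : ℕ) : Disjoint (itv m s L) (itv m (s + L) M) := by
  rw [disjoint_left]
  intro x hx hx'
  rw [mem_itv] at hx hx'
  omega

theorem gol_itv (a : ℕ) : ∀ s : ℕ, s + 2 ^ a ≤ m → Gol (itv m s (2 ^ a)) := by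
  induction a with
  | zero =>
    intro s hs
    have hsm : s < m := by simpa using hs
    have : itv m s (2 ^ 0) = {(s : ZMod m)} := by
      ext x
      rw [mem_itv, mem_singleton]
      constructor
      · intro h
        have hx : x.val = s := by simp at h; omega
        rw [← hx, ZMod.natCast_zmod_val]
      · rintro rfl
        rw [ZMod.val_cast_of_lt hsm]
        simp
    rw [this]
    exact gol_singleton _
  | succ a ih =>
    intro s hs
    have hs' : s + 2 * 2 ^ a ≤ m := by rw [pow_succ] at hs; omega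
    have h1 := ih s (by omega)
    have h2 := gol_double h1 (((2 ^ a : ℕ)) : ZMod m) (by
      rw [itv_shift hs']
      exact itv_disjoint _ _ _)
    rw [itv_shift hs', itv_union, ← two_mul, ← pow_succ'] at h2
    exact h2

theorem parts_itv (l : List ℕ) : (l.map (fun a => 2 ^ a)).sum ≤ m →
    Parts (itv m 0 ((l.map (fun a => 2 ^ a)).sum)) l.length := by
  induction l with
  | nil =>
    intro _
    have : itv m 0 0 = ∅ := by
      ext x; rw [mem_itv]; simp
    simpa [this] using (parts_empty : Parts (∅ : Finset (ZMod m)) 0)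
  | cons a l ih =>
    intro h
    simp only [List.map_cons, List.sum_cons] at h ⊢
    have h1 := ih (Nat.le_trans (Nat.le_add_left _ _) h)
    have h2 := gol_itv (m := m) a (l.map (fun a => 2 ^ a)).sum (by rw [add_comm]; exact h)
    have h3 := parts_union h1 h2 (by
      have := itv_disjoint (m := m) 0 (l.map (fun a => 2 ^ a)).sum (2 ^ a)
      rwa [zero_add] at this)
    have h4 := itv_union (m := m) 0 (l.map (fun a => 2 ^ a)).sum (2 ^ a)
    rw [zero_add] at h4
    rw [h4, add_comm] at h3
    exact h3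

end dyadic

/-- If `t` is a sum of at most `2 ^ r` powers of two, there is a complementary family of
`2 ^ (r + 1)` arrays on a group of order `t`. -/
theorem fn_dyadic {r t : ℕ} (ht : 1 ≤ t) (l : List ℕ) (hl : l.length ≤ 2 ^ r)
    (hs : (l.map (fun a => 2 ^ a)).sum = t) : FN (r + 1) t := by
  haveI : NeZero t := ⟨by omega⟩
  have h := parts_itv (m := t) l (by omega)
  rw [hs] at h
  have hu : itv t 0 t = univ := by
    ext x
    rw [mem_itv]
    simp [ZMod.val_lt x]
  rw [hu] at h
  exact ⟨ZMod t, inferInstance, inferInstance, ZMod.card t, fam_of_parts hl h⟩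

/-- Every number below `2 ^ k` is a sum of at most `k` powers of two. -/
theorem exists_digits (k : ℕ) : ∀ t : ℕ, t < 2 ^ k →
    ∃ l : List ℕ, l.length ≤ k ∧ (l.map (fun a => 2 ^ a)).sum = t := by
  induction k with
  | zero => intro t ht; exact ⟨[], by simp, by simp at ht; simp [ht]⟩
  | succ k ih =>
    intro t ht
    by_cases h : t < 2 ^ k
    · obtain ⟨l, h1, h2⟩ := ih t h
      exact ⟨l, by omega, h2⟩
    · obtain ⟨l, h1, h2⟩ := ih (t - 2 ^ k) (by rw [pow_succ] at ht; omega)
      refine ⟨k :: l, by simp; omega, ?_⟩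
      simp only [List.map_cons, List.sum_cons]
      omega

theorem main_dyadic (n : ℕ) (hn : 4 ≤ n) (t : ℕ) (ht : 1 ≤ t) (l : List ℕ)
    (hl : l.length ≤ 4 ^ (n / 2 - 1)) (hs : (l.map (fun a => 2 ^ a)).sum = t) :
    HasH n (2 * t) := by
  classical
  obtain ⟨j, hj⟩ : ∃ j, n / 2 = j + 2 := ⟨n / 2 - 2, by omega⟩
  have hj' : n / 2 - 1 = j + 1 := by omega
  have hl' : l.length ≤ 2 ^ (2 * j + 2) := by
    rw [hj'] at hl
    refine hl.trans (le_of_eq ?_)
    rw [show (4 : ℕ) = 2 ^ 2 by norm_num, ← pow_mul]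
    congr 1
  obtain ⟨K, _, _, hK, h⟩ := fn_dyadic ht l hl' hs
  obtain ⟨A, hA⟩ := exists_hn (m := 2 * j + 2 + 1) ⟨j + 1, by ring⟩ (by omega) h
  have h1 : On (2 * j + 4) (2 * t) :=
    ⟨Bool × K, inferInstance, inferInstance, A, by simp [hK], hA⟩
  have h2 := hasH_of_on h1
  have hn' : n = 2 * j + 4 ∨ n = 2 * j + 5 := by omega
  rcases hn' with rfl | rfl
  · exact h2
  · exact HasH_succ (by omega) h2

end Pool.Agent.Q148.HD
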