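import Pool.Agent.Q148.HD.Pair
import Pool.Agent.Q148.HD.Big

set_option autoImplicit false

/-! All orders divisible by four. -/

namespace Pool.Agent.Q148.HD

open Finset

/-- An even positive integer below 9699690 has at most six odd prime factors. -/
theorem card_odd_primes_le_six {t : ℕ} (ht : 1 ≤ t) (h2 : 2 ∣ t) (hlt : t < 9699690) :
    (t.primeFactors.erase 2).card ≤ 6 := by
  by_contra hcon
  push Not at hcon
  obtain ⟨T, hT, hTc⟩ := exists_subset_card_eq (s := t.primeFactors.erase 2) (n := 7) hcon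
  have hprime : ∀ p ∈ T, p.Prime ∧ p ∣ t ∧ 3 ≤ p ∧ Odd p := by
    intro p hp
    have h := hT hp
    rw [mem_erase, Nat.mem_primeFactors] at h
    have h2 := h.2.1.two_le
    exact ⟨h.2.1, h.2.2.1, by have := h.1; omega, h.2.1.odd_of_ne_two h.1⟩
  let f := T.orderEmbOfFin hTc
  have hmem : ∀ i, f i ∈ T := fun i => T.orderEmbOfFin_mem hTc i
  have h01 : f 0 < f 1 := f.strictMono (by decide)
  have h12 : f 1 < f 2 := f.strictMono (by decide)
  have h23 : f 2 < f 3 := f.strictMono (by decide)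
  have h34 : f 3 < f 4 := f.strictMono (by decide)
  have h45 : f 4 < f 5 := f.strictMono (by decide)
  have h56 : f 5 < f 6 := f.strictMono (by decide)
  have h2T : 2 ∉ T := fun h => by have := (hprime 2 h).2.2.1; omega
  have hdvd : ∏ p ∈ insert 2 T, p ∣ t := by
    refine (Finset.prod_primes_dvd t (fun p hp => ?_) (fun p hp => ?_))
    · rcases mem_insert.1 hp with rfl | hp
      · exact Nat.prime_two.prime
      · exact (hprime p hp).1.prime
    · rcases mem_insert.1 hp with rfl | hp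
      · exact h2
      · exact (hprime p hp).2.1
  rw [prod_insert h2T] at hdvd
  have hprod : ∏ p ∈ T, p = f 0 * f 1 * f 2 * f 3 * f 4 * f 5 * f 6 := by
    have : ∏ i : Fin 7, f i = ∏ p ∈ T, p := by
      rw [← Finset.map_orderEmbOfFin_univ T hTc, prod_map]; rfl
    rw [← this, Fin.prod_univ_seven]
  obtain ⟨a, ha⟩ := (hprime _ (hmem 0)).2.2.2
  obtain ⟨b, hb⟩ := (hprime _ (hmem 1)).2.2.2
  obtain ⟨c, hc⟩ := (hprime _ (hmem 2)).2.2.2
  obtain ⟨d, hd⟩ := (hprime _ (hmem 3)).2.2.2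
  obtain ⟨e, he⟩ := (hprime _ (hmem 4)).2.2.2
  obtain ⟨g, hg⟩ := (hprime _ (hmem 5)).2.2.2
  obtain ⟨k, hk⟩ := (hprime _ (hmem 6)).2.2.2
  have h0 : 3 ≤ f 0 := (hprime _ (hmem 0)).2.2.1
  have h1 : 5 ≤ f 1 := by omega
  have h2' : 7 ≤ f 2 := by omega
  have h3 : 9 ≤ f 3 := by omega
  have h3' : f 3 ≠ 9 := by
    intro h
    have := (hprime _ (hmem 3)).1
    rw [h] at this
    exact absurd this (by norm_num)
  have h3'' : 11 ≤ f 3 := by omega
  have h4 : 13 ≤ f 4 := by omega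
  have h5 : 15 ≤ f 5 := by omega
  have h5' : f 5 ≠ 15 := by
    intro h
    have := (hprime _ (hmem 5)).1
    rw [h] at this
    exact absurd this (by norm_num)
  have h5'' : 17 ≤ f 5 := by omega
  have h6 : 19 ≤ f 6 := by omega
  have hle : 3 * 5 * 7 * 11 * 13 * 17 * 19 ≤ f 0 * f 1 * f 2 * f 3 * f 4 * f 5 * f 6 :=
    Nat.mul_le_mul (Nat.mul_le_mul (Nat.mul_le_mul (Nat.mul_le_mul (Nat.mul_le_mul
      (Nat.mul_le_mul h0 h1) h2') h3'') h4) h5'') h6
  have := Nat.le_of_dvd ht hdvd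
  rw [hprod] at this
  omega

theorem main_four (n : ℕ) (hn : 4 ≤ n) (m : ℕ) (hm : 1 ≤ m) : HasH n (4 * m) := by
  by_cases h : 4 * m < 19399380
  · have h2 : 2 ∣ 2 * m := Dvd.intro _ rfl
    have h6 := card_odd_primes_le_six (t := 2 * m) (by omega) h2 (by omega)
    have hv : 1 ≤ (2 * m).factorization 2 :=
      Nat.Prime.factorization_pos_of_dvd Nat.prime_two (by omega) h2
    have h4 : 1 ≤ n / 2 - 1 := by omega
    have h5 : 3 * 1 * 2 ≤ 3 * (n / 2 - 1) * ((2 * m).factorization 2 + 1) :=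
      Nat.mul_le_mul (Nat.mul_le_mul le_rfl h4) (by omega)
    have := main_all n hn (2 * m) (by omega) (by omega)
    have e : 2 * (2 * m) = 4 * m := by ring
    rwa [e] at this
  · exact HasH_all (O4_large (Dvd.intro _ rfl) (by omega)) (by omega) n hn

end Pool.Agent.Q148.HD
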