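import Pool.Agent.Q148.HD.General
import Pool.Agent.Q148.HD.Dim

set_option autoImplicit false

/-! Families of `2 ^ r` arrays, and Hadamard arrays in all dimensions. -/

namespace Pool.Agent.Q148.HD

open Finset

/-- `2 ^ r` sign arrays on `K × K` whose axis-parallel autocorrelations sum to zero. -/
def Fam (r : ℕ) (K : Type) [AddCommGroup K] [Fintype K] : Prop :=
  ∃ A : (Fin r → Bool) → K → K → ℤ, (∀ c x u, A c x u = 1 ∨ A c x u = -1) ∧
    (∀ d : K, d ≠ 0 → ∑ c, C1 (A c) (A c) d = 0) ∧ (∀ d : K, d ≠ 0 → ∑ c, C2 (A c) (A c) d = 0)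

theorem fam_punit (r : ℕ) : Fam r PUnit :=
  ⟨fun _ _ _ => 1, by simp, fun d hd => absurd (Subsingleton.elim d 0) hd,
    fun d hd => absurd (Subsingleton.elim d 0) hd⟩

theorem fam_succ {r : ℕ} {K : Type} [AddCommGroup K] [Fintype K] (h : Fam r K) :
    Fam (r + 1) K := by
  obtain ⟨A, hpm, h1, h2⟩ := h
  refine ⟨fun c => A (Fin.tail c), fun c => hpm _, fun d hd => ?_, fun d hd => ?_⟩
  · rw [sum_cons]
    simp only [Fin.tail_cons, h1 d hd, sum_const_zero]
  · rw [sum_cons]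
    simp only [Fin.tail_cons, h2 d hd, sum_const_zero]

theorem C1_prod {K L : Type} [AddCommGroup K] [Fintype K] [AddCommGroup L] [Fintype L]
    (F : K → K → ℤ) (G : L → L → ℤ) (d : K × L) :
    C1 (fun x u : K × L => F x.1 u.1 * G x.2 u.2) (fun x u : K × L => F x.1 u.1 * G x.2 u.2) d =
      C1 F F d.1 * C1 G G d.2 := by
  unfold C1
  rw [sum_prod4, sum_mul]
  refine sum_congr rfl (fun x1 _ => ?_)
  rw [sum_mul]
  refine sum_congr rfl (fun u1 _ => ?_)
  rw [mul_sum]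
  refine sum_congr rfl (fun x2 _ => ?_)
  rw [mul_sum]
  refine sum_congr rfl (fun u2 _ => ?_)
  simp only [Prod.fst_add, Prod.snd_add]
  ring

theorem C2_prod {K L : Type} [AddCommGroup K] [Fintype K] [AddCommGroup L] [Fintype L]
    (F : K → K → ℤ) (G : L → L → ℤ) (d : K × L) :
    C2 (fun x u : K × L => F x.1 u.1 * G x.2 u.2) (fun x u : K × L => F x.1 u.1 * G x.2 u.2) d =
      C2 F F d.1 * C2 G G d.2 := by
  unfold C2
  rw [sum_prod4, sum_mul]
  refine sum_congr rfl (fun x1 _ => ?_)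
  rw [sum_mul]
  refine sum_congr rfl (fun u1 _ => ?_)
  rw [mul_sum]
  refine sum_congr rfl (fun x2 _ => ?_)
  rw [mul_sum]
  refine sum_congr rfl (fun u2 _ => ?_)
  simp only [Prod.fst_add, Prod.snd_add]
  ring

theorem sum_append {r s : ℕ} (f : (Fin r → Bool) → (Fin s → Bool) → ℤ) :
    ∑ c : Fin (r + s) → Bool, f (fun i => c (Fin.castAdd s i)) (fun i => c (Fin.natAdd r i)) =
      ∑ a, ∑ b, f a b := by
  rw [← Fintype.sum_prod_type']
  refine (Fintype.sum_equiv (Fin.appendEquiv r s) _ _ (fun ab => ?_)).symm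
  obtain ⟨a, b⟩ := ab
  simp [Fin.appendEquiv]

theorem fam_mul {r s : ℕ} {K L : Type} [AddCommGroup K] [Fintype K] [AddCommGroup L] [Fintype L]
    (h : Fam r K) (h' : Fam s L) : Fam (r + s) (K × L) := by
  obtain ⟨A, pa, a1, a2⟩ := h
  obtain ⟨B, pb, b1, b2⟩ := h'
  refine ⟨fun c x u => A (fun i => c (Fin.castAdd s i)) x.1 u.1 *
    B (fun i => c (Fin.natAdd r i)) x.2 u.2, fun c x u => ?_, fun d hd => ?_, fun d hd => ?_⟩
  · show A (fun i => c (Fin.castAdd s i)) x.1 u.1 * B (fun i => c (Fin.natAdd r i)) x.2 u.2 = 1 ∨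
      A (fun i => c (Fin.castAdd s i)) x.1 u.1 * B (fun i => c (Fin.natAdd r i)) x.2 u.2 = -1
    rcases pa (fun i => c (Fin.castAdd s i)) x.1 u.1 with h | h <;>
      rcases pb (fun i => c (Fin.natAdd r i)) x.2 u.2 with h' | h' <;> rw [h, h'] <;> norm_num
  · simp only [C1_prod]
    rw [sum_append (fun a b => C1 (A a) (A a) d.1 * C1 (B b) (B b) d.2), ← sum_mul_sum]
    by_cases h1 : d.1 = 0
    · have h2 : d.2 ≠ 0 := fun h2 => hd (Prod.ext h1 h2)
      rw [b1 _ h2, mul_zero]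
    · rw [a1 _ h1, zero_mul]
  · simp only [C2_prod]
    rw [sum_append (fun a b => C2 (A a) (A a) d.1 * C2 (B b) (B b) d.2), ← sum_mul_sum]
    by_cases h1 : d.1 = 0
    · have h2 : d.2 ≠ 0 := fun h2 => hd (Prod.ext h1 h2)
      rw [b2 _ h2, mul_zero]
    · rw [a2 _ h1, zero_mul]

theorem fam_three {G1 G2 G3 : Type} [AddCommGroup G1] [Fintype G1] [AddCommGroup G2]
    [Fintype G2] [AddCommGroup G3] [Fintype G3] (g1 : Good G1) (g2 : Good G2) (g3 : Good G3) :
    Fam 3 (G1 × G2 × G3) := by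
  classical
  obtain ⟨E1, p1, zl1, zr1, c1, e1⟩ := g1
  obtain ⟨E2, p2, zl2, zr2, c2, e2⟩ := g2
  obtain ⟨E3, p3, zl3, zr3, c3, e3⟩ := g3
  have hn : ∀ d : G1 × G2 × G3, d ≠ 0 → ¬(decide (d.1 ≠ 0) = false ∧ decide (d.2.1 ≠ 0) = false ∧
      decide (d.2.2 ≠ 0) = false) := by
    rintro ⟨d1, d2, d3⟩ hd ⟨h1, h2, h3⟩
    simp only [ne_eq, decide_eq_false_iff_not, not_not] at h1 h2 h3
    exact hd (by rw [h1, h2, h3]; rfl)
  have hs : ∀ f : Bool → Bool → Bool → ℤ, ∑ c : Fin 3 → Bool, f (c 0) (c 1) (c 2) =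
      ∑ a, ∑ b, ∑ c, f a b c := by
    intro f
    rw [sum_cons]
    refine sum_congr rfl (fun a _ => ?_)
    rw [sum_cons]
    refine sum_congr rfl (fun b _ => ?_)
    rw [sum_cons]
    refine sum_congr rfl (fun c _ => ?_)
    rw [Fintype.sum_unique]
    rfl
  refine ⟨fun c => sysA E1 E2 E3 (c 0) (c 1) (c 2), fun c => sysA_pm E1 E2 E3 p1 p2 p3 _ _ _,
    fun d hd => ?_, fun d hd => ?_⟩
  · refine (hs (fun a b c => C1 (sysA E1 E2 E3 a b c) (sysA E1 E2 E3 a b c) d)).trans ?_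
    simp only [sysA_C1 E1 E2 E3 p1 p2 p3 zl1 zl2 zl3 c1 c2 c3]
    exact kap_table _ _ _ (hn d hd) _ _ _
  · refine (hs (fun a b c => C2 (sysA E1 E2 E3 a b c) (sysA E1 E2 E3 a b c) d)).trans ?_
    simp only [sysA_C2 E1 E2 E3 p1 p2 p3 zr1 zr2 zr3 e1 e2 e3]
    exact kap_table _ _ _ (hn d hd) _ _ _

section build

variable {K : Type} [AddCommGroup K] [Fintype K] [DecidableEq K]

theorem sum_arrow {n : ℕ} (F : (Fin n → Bool) → (Fin n → K) → ℤ) :
    ∑ i : Fin n → Bool × K, F (fun r => (i r).1) (fun r => (i r).2) = ∑ δ, ∑ s, F δ s := by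
  rw [← Fintype.sum_prod_type']
  exact Fintype.sum_equiv (Equiv.arrowProdEquivProdArrow _ _ _) _ _ (fun i => rfl)

theorem sum_bits {m : ℕ} (f : (Fin m → Bool) → ℤ) :
    ∑ δ : Fin (m + 1) → Bool, f (fun r => xor (δ r.succ) (δ 0)) = 2 * ∑ c, f c := by
  rw [sum_cons]
  have : ∀ x : Bool, ∑ i : Fin m → Bool, f (fun r => xor ((Fin.cons x i : Fin (m + 1) → Bool) r.succ)
      ((Fin.cons x i : Fin (m + 1) → Bool) 0)) = ∑ c, f c := by
    intro x
    simp only [Fin.cons_succ, Fin.cons_zero]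
    have hinv : ∀ i : Fin m → Bool, (fun r => xor (xor (i r) x) x) = i := by
      intro i; ext r; cases i r <;> cases x <;> rfl
    let e : (Fin m → Bool) ≃ (Fin m → Bool) :=
      ⟨fun i r => xor (i r) x, fun i r => xor (i r) x, hinv, hinv⟩
    exact Fintype.sum_equiv e _ _ (fun i => rfl)
  simp only [this]
  simp

theorem exists_hn {m : ℕ} (hm : Odd m) (h3 : 3 ≤ m) (h : Fam m K) :
    ∃ A : (Fin (m + 1) → Bool × K) → ℤ, IsHn A := by
  obtain ⟨A0, hpm, h1, h2⟩ := h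
  let A : (Fin (m + 1) → Bool) → K → K → ℤ := fun δ => A0 (fun r => xor (δ r.succ) (δ 0))
  have hc : ∀ δ, A (cpl δ) = A δ := by
    intro δ
    have : (fun r : Fin m => xor (cpl δ r.succ) (cpl δ 0)) = fun r : Fin m => xor (δ r.succ) (δ 0) := by
      ext r; simp [cpl]
    show A0 (fun r : Fin m => xor (cpl δ r.succ) (cpl δ 0)) = A0 (fun r : Fin m => xor (δ r.succ) (δ 0))
    rw [this]
  have hA1 : ∀ d : K, d ≠ 0 → ∑ δ, C1 (A δ) (A δ) d = 0 := by
    intro d hd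
    have := sum_bits (fun c => C1 (A0 c) (A0 c) d)
    rw [h1 d hd, mul_zero] at this
    exact this
  have hA2 : ∀ d : K, d ≠ 0 → ∑ δ, C2 (A δ) (A δ) d = 0 := by
    intro d hd
    have := sum_bits (fun c => C2 (A0 c) (A0 c) d)
    rw [h2 d hd, mul_zero] at this
    exact this
  have hn : Even (m + 1) := hm.add_one
  let q0 : Fin (m + 1) := ⟨0, by omega⟩
  let q1 : Fin (m + 1) := ⟨1, by omega⟩
  let q2 : Fin (m + 1) := ⟨2, by omega⟩
  let q3 : Fin (m + 1) := ⟨3, by omega⟩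
  let P : Finset (Fin (m + 1)) := {q1, q2}ᶜ
  have hP0 : q0 ∈ P := by simp [P, q0, q1, q2]
  have hP3 : q3 ∈ P := by simp [P, q3, q1, q2]
  have hP1 : q1 ∉ P := by simp [P]
  have hPc : Pᶜ = {q1, q2} := compl_compl _
  let AT : (Fin (m + 1) → Bool) → K → K → ℤ := fun δ x u => A δ u x
  have hcT : ∀ δ, AT (cpl δ) = AT δ := fun δ => by
    funext x u
    show A (cpl δ) u x = A δ u x
    rw [hc]
  have hAT : ∀ d : K, d ≠ 0 → ∑ δ, C1 (AT δ) (AT δ) d = 0 := by
    intro d hd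
    rw [← hA2 d hd]
    refine sum_congr rfl (fun δ _ => ?_)
    unfold C1 C2
    rw [sum_comm]
  have hsym : ∀ δ s, gb P q1 q0 A δ s = gb Pᶜ q0 q1 AT δ s := by
    intro δ s
    unfold gb
    rw [compl_compl]
  refine ⟨fun i => gb P q1 q0 A (fun r => (i r).1) (fun r => (i r).2), fun i => ?_, ?_⟩
  · show gb P q1 q0 A (fun r => (i r).1) (fun r => (i r).2) = 1 ∨
      gb P q1 q0 A (fun r => (i r).1) (fun r => (i r).2) = -1
    unfold gb
    rcases tau_pm (wt fun r => (i r).1) with h | h <;>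
    rcases hpm (fun r => xor ((i r.succ).1) ((i 0).1)) (tw (i q1).1 (∑ r ∈ P, (i r).2))
      (tw (i q0).1 (∑ r ∈ Pᶜ, (i r).2)) with h' | h' <;>
    · rw [h]
      show _ * A0 (fun r => xor ((i r.succ).1) ((i 0).1)) (tw (i q1).1 (∑ r ∈ P, (i r).2))
        (tw (i q0).1 (∑ r ∈ Pᶜ, (i r).2)) = 1 ∨
        _ * A0 (fun r => xor ((i r.succ).1) ((i 0).1)) (tw (i q1).1 (∑ r ∈ P, (i r).2))
        (tw (i q0).1 (∑ r ∈ Pᶜ, (i r).2)) = -1
      rw [h']; norm_num
  · intro l x y hxy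
    obtain ⟨b, z⟩ := x
    obtain ⟨b', z'⟩ := y
    have hup1 : ∀ (i : Fin (m + 1) → Bool × K) (b : Bool) (z : K),
        (fun r => (Function.update i l (b, z) r).1) = Function.update (fun r => (i r).1) l b := by
      intro i b z; ext r
      by_cases h : r = l
      · subst h; simp
      · simp [h]
    have hup2 : ∀ (i : Fin (m + 1) → Bool × K) (b : Bool) (z : K),
        (fun r => (Function.update i l (b, z) r).2) = Function.update (fun r => (i r).2) l z := by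
      intro i b z; funext r
      by_cases h : r = l
      · subst h; simp
      · simp [h]
    simp only [hup1, hup2]
    rw [sum_arrow (fun δ s => gb P q1 q0 A (Function.update δ l b) (Function.update s l z) *
      gb P q1 q0 A (Function.update δ l b') (Function.update s l z'))]
    by_cases hl : l ∈ P
    · by_cases hl0 : l = q0
      · exact orthP hn P q1 q0 hP1 A hc hA1 l q3 hl hP3 (by rw [hl0]; simp [q3, q0]) b b' z z' hxy
      · exact orthP hn P q1 q0 hP1 A hc hA1 l q0 hl hP0 (fun h => hl0 h.symm) b b' z z' hxy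
    · have hl' : l ∈ Pᶜ := mem_compl.2 hl
      simp only [hsym]
      have hq1 : q1 ∈ Pᶜ := by rw [hPc]; simp
      have hq2 : q2 ∈ Pᶜ := by rw [hPc]; simp
      have h0 : q0 ∉ Pᶜ := by simpa using hP0
      by_cases hl1 : l = q1
      · exact orthP hn Pᶜ q0 q1 h0 AT hcT hAT l q2 hl' hq2 (by rw [hl1]; simp [q2, q1]) b b' z z' hxy
      · exact orthP hn Pᶜ q0 q1 h0 AT hcT hAT l q1 hl' hq1 (fun h => hl1 h.symm) b b' z z' hxy

end build

end Pool.Agent.Q148.HD
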