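import Mathlib

set_option autoImplicit false

/-! Four-dimensional Hadamard arrays from eight arrays on `K × K`. -/

namespace Pool.Agent.Q148.HD

open Finset

/-- A four-dimensional Hadamard array on the index set `X`. -/
def IsH4 {X : Type} [Fintype X] (a : X → X → X → X → ℤ) : Prop :=
  (∀ p q r s, a p q r s = 1 ∨ a p q r s = -1) ∧
  (∀ x y, x ≠ y → ∑ q, ∑ r, ∑ s, a x q r s * a y q r s = 0) ∧
  (∀ x y, x ≠ y → ∑ p, ∑ r, ∑ s, a p x r s * a p y r s = 0) ∧
  (∀ x y, x ≠ y → ∑ p, ∑ q, ∑ s, a p q x s * a p q y s = 0) ∧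
  (∀ x y, x ≠ y → ∑ p, ∑ q, ∑ r, a p q r x * a p q r y = 0)

/-- The sign of a Boolean. -/
def sg (b : Bool) : ℤ := if b then -1 else 1

/-- Multiplication of an element of `K` by the sign of a Boolean. -/
def tw {K : Type} [Neg K] (b : Bool) (k : K) : K := if b then -k else k

theorem sg_pm (b : Bool) : sg b = 1 ∨ sg b = -1 := by cases b <;> simp [sg]

variable {K : Type} [AddCommGroup K] [Fintype K]

/-- Correlation in the first variable. -/
def C1 (F G : K → K → ℤ) (d : K) : ℤ := ∑ x, ∑ u, F x u * G (x + d) u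

/-- Correlation in the second variable. -/
def C2 (F G : K → K → ℤ) (d : K) : ℤ := ∑ x, ∑ u, F x u * G x (u + d)

/-- Reflected correlation in the first variable. -/
def Q1 (F G : K → K → ℤ) (d : K) : ℤ := ∑ x, ∑ u, F x u * G (d - x) u

/-- Reflected correlation in the second variable. -/
def Q2 (F G : K → K → ℤ) (d : K) : ℤ := ∑ x, ∑ u, F x u * G x (d - u)

theorem C1_neg (F G : K → K → ℤ) (d : K) : C1 F G (-d) = C1 G F d := by
  unfold C1
  refine Fintype.sum_equiv (Equiv.addRight (-d)) _ _ (fun x => ?_)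
  refine sum_congr rfl (fun u _ => ?_)
  simp [mul_comm]

theorem C2_neg (F G : K → K → ℤ) (d : K) : C2 F G (-d) = C2 G F d := by
  unfold C2
  refine sum_congr rfl (fun x _ => ?_)
  refine Fintype.sum_equiv (Equiv.addRight (-d)) _ _ (fun u => ?_)
  simp [mul_comm]

theorem Q1_comm (F G : K → K → ℤ) (d : K) : Q1 F G d = Q1 G F d := by
  unfold Q1
  refine Fintype.sum_equiv (Equiv.subLeft d) _ _ (fun x => ?_)
  refine sum_congr rfl (fun u _ => ?_)
  simp [mul_comm]

theorem Q2_comm (F G : K → K → ℤ) (d : K) : Q2 F G d = Q2 G F d := by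
  unfold Q2
  refine sum_congr rfl (fun x _ => ?_)
  refine Fintype.sum_equiv (Equiv.subLeft d) _ _ (fun u => ?_)
  simp [mul_comm]

/-- Inner sums over a variable that only shifts. -/
theorem sum_shift (b : Bool) (c : K) (f : K → ℤ) : ∑ s, f (c + tw b s) = ∑ x, f x := by
  cases b
  · exact Fintype.sum_equiv (Equiv.addLeft c) _ _ (fun s => by simp [tw])
  · exact Fintype.sum_equiv (Equiv.subLeft c) _ _ (fun s => by simp [tw, sub_eq_add_neg])

theorem sum_shift' (c : K) (f : K → ℤ) : ∑ s, f (s + c) = ∑ x, f x :=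
  Fintype.sum_equiv (Equiv.addRight c) _ _ (fun s => by simp)

/-- First coordinate, equal bits. -/
theorem sum1 (F G : K → K → ℤ) (b e : Bool) (p p' : K) :
    ∑ q : K, ∑ r : K, ∑ s : K, F (p + tw b r) (q + tw e s) * G (p' + tw b r) (q + tw e s) =
      (Fintype.card K : ℤ) * C1 F G (p' - p) := by
  have h1 : ∀ q r : K, ∑ s : K, F (p + tw b r) (q + tw e s) * G (p' + tw b r) (q + tw e s) =
      ∑ u, F (p + tw b r) u * G (p' + tw b r) u :=
    fun q r => sum_shift e q (fun u => F (p + tw b r) u * G (p' + tw b r) u)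
  have h2 : ∀ r : K, ∑ u, F (p + tw b r) u * G (p' + tw b r) u =
      (fun x => ∑ u, F x u * G (x + (p' - p)) u) (p + tw b r) := by
    intro r
    refine sum_congr rfl (fun u _ => ?_)
    rw [show p + tw b r + (p' - p) = p' + tw b r by abel]
  simp only [h1, h2]
  rw [sum_congr rfl (fun q _ => sum_shift b p (fun x => ∑ u, F x u * G (x + (p' - p)) u))]
  simp [C1]

/-- First coordinate, different bits. -/
theorem sum1' (F G : K → K → ℤ) (b e : Bool) (p p' : K) :
    ∑ q : K, ∑ r : K, ∑ s : K, F (p + tw b r) (q + tw e s) * G (p' + tw (!b) r) (q + tw e s) =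
      (Fintype.card K : ℤ) * Q1 F G (p + p') := by
  have h1 : ∀ q r : K, ∑ s : K, F (p + tw b r) (q + tw e s) * G (p' + tw (!b) r) (q + tw e s) =
      ∑ u, F (p + tw b r) u * G (p' + tw (!b) r) u :=
    fun q r => sum_shift e q (fun u => F (p + tw b r) u * G (p' + tw (!b) r) u)
  have h2 : ∀ r : K, ∑ u, F (p + tw b r) u * G (p' + tw (!b) r) u =
      (fun x => ∑ u, F x u * G (p + p' - x) u) (p + tw b r) := by
    intro r
    refine sum_congr rfl (fun u _ => ?_)
    have : p + p' - (p + tw b r) = p' + tw (!b) r := by cases b <;> simp [tw] <;> abel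
    rw [this]
  simp only [h1, h2]
  rw [sum_congr rfl (fun q _ => sum_shift b p (fun x => ∑ u, F x u * G (p + p' - x) u))]
  simp [Q1]

/-- Third coordinate. -/
theorem sum3 (F G : K → K → ℤ) (b e : Bool) (r r' : K) :
    ∑ p : K, ∑ q : K, ∑ s : K, F (p + tw b r) (q + tw e s) * G (p + tw b r') (q + tw e s) =
      (Fintype.card K : ℤ) * C1 F G (tw b (r' - r)) := by
  have h1 : ∀ p q : K, ∑ s : K, F (p + tw b r) (q + tw e s) * G (p + tw b r') (q + tw e s) =
      ∑ u, F (p + tw b r) u * G (p + tw b r') u :=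
    fun p q => sum_shift e q (fun u => F (p + tw b r) u * G (p + tw b r') u)
  have h2 : ∀ p : K, ∑ u, F (p + tw b r) u * G (p + tw b r') u =
      (fun x => ∑ u, F x u * G (x + tw b (r' - r)) u) (p + tw b r) := by
    intro p
    refine sum_congr rfl (fun u _ => ?_)
    have : p + tw b r + tw b (r' - r) = p + tw b r' := by cases b <;> simp [tw] <;> abel
    rw [this]
  simp only [h1, h2]
  simp only [sum_const, card_univ, nsmul_eq_mul]
  rw [← mul_sum, sum_shift' (tw b r) (fun x => ∑ u, F x u * G (x + tw b (r' - r)) u)]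
  rfl

/-- Second coordinate, equal bits. -/
theorem sum2 (F G : K → K → ℤ) (b e : Bool) (q q' : K) :
    ∑ p : K, ∑ r : K, ∑ s : K, F (p + tw b r) (q + tw e s) * G (p + tw b r) (q' + tw e s) =
      (Fintype.card K : ℤ) * C2 F G (q' - q) := by
  have h1 : ∀ p r : K, ∑ s : K, F (p + tw b r) (q + tw e s) * G (p + tw b r) (q' + tw e s) =
      ∑ u, F (p + tw b r) u * G (p + tw b r) (u + (q' - q)) := by
    intro p r
    rw [← sum_shift e q (fun u => F (p + tw b r) u * G (p + tw b r) (u + (q' - q)))]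
    refine sum_congr rfl (fun s _ => ?_)
    rw [show q + tw e s + (q' - q) = q' + tw e s by abel]
  simp only [h1]
  rw [sum_congr rfl (fun p _ => sum_shift b p (fun x => ∑ u, F x u * G x (u + (q' - q))))]
  simp [C2]

/-- Second coordinate, different bits. -/
theorem sum2' (F G : K → K → ℤ) (b e : Bool) (q q' : K) :
    ∑ p : K, ∑ r : K, ∑ s : K, F (p + tw b r) (q + tw e s) * G (p + tw b r) (q' + tw (!e) s) =
      (Fintype.card K : ℤ) * Q2 F G (q + q') := by
  have h1 : ∀ p r : K, ∑ s : K, F (p + tw b r) (q + tw e s) * G (p + tw b r) (q' + tw (!e) s) =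
      ∑ u, F (p + tw b r) u * G (p + tw b r) (q + q' - u) := by
    intro p r
    rw [← sum_shift e q (fun u => F (p + tw b r) u * G (p + tw b r) (q + q' - u))]
    refine sum_congr rfl (fun s _ => ?_)
    have : q + q' - (q + tw e s) = q' + tw (!e) s := by cases e <;> simp [tw] <;> abel
    rw [this]
  simp only [h1]
  rw [sum_congr rfl (fun p _ => sum_shift b p (fun x => ∑ u, F x u * G x (q + q' - u)))]
  simp [Q2]

/-- Fourth coordinate. -/
theorem sum4 (F G : K → K → ℤ) (b e : Bool) (s s' : K) :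
    ∑ p : K, ∑ q : K, ∑ r : K, F (p + tw b r) (q + tw e s) * G (p + tw b r) (q + tw e s') =
      (Fintype.card K : ℤ) * C2 F G (tw e (s' - s)) := by
  have h1 : ∀ p q : K, ∑ r : K, F (p + tw b r) (q + tw e s) * G (p + tw b r) (q + tw e s') =
      ∑ x, F x (q + tw e s) * G x (q + tw e s') :=
    fun p q => sum_shift b p (fun x => F x (q + tw e s) * G x (q + tw e s'))
  have h2 : ∀ q : K, ∑ x, F x (q + tw e s) * G x (q + tw e s') =
      (fun u => ∑ x, F x u * G x (u + tw e (s' - s))) (q + tw e s) := by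
    intro q
    refine sum_congr rfl (fun x _ => ?_)
    have : q + tw e s + tw e (s' - s) = q + tw e s' := by cases e <;> simp [tw] <;> abel
    rw [this]
  simp only [h1, h2]
  rw [sum_congr rfl (fun p _ => sum_shift' (tw e s) (fun u => ∑ x, F x u * G x (u + tw e (s' - s))))]
  simp only [sum_const, card_univ, nsmul_eq_mul]
  rw [sum_comm]; rfl

/-- The four-dimensional array built from eight arrays. -/
def arr (A : Bool → Bool → Bool → K → K → ℤ) (p q r s : Bool × K) : ℤ :=
  sg (p.1 && q.1) * sg (r.1 && s.1) *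
    A (xor p.1 s.1) (xor q.1 s.1) (xor r.1 s.1) (p.2 + tw p.1 r.2) (q.2 + tw q.1 s.2)

theorem sg_sq (b : Bool) : sg b * sg b = 1 := by cases b <;> simp [sg]

theorem split3 (f : Bool × K → Bool × K → Bool × K → ℤ) :
    ∑ q, ∑ r, ∑ s, f q r s =
      ∑ q1 : Bool, ∑ r1 : Bool, ∑ s1 : Bool, ∑ q2 : K, ∑ r2 : K, ∑ s2 : K,
        f (q1, q2) (r1, r2) (s1, s2) := by
  rw [Fintype.sum_prod_type]
  refine sum_congr rfl (fun q1 _ => ?_)
  have h1 : ∀ q2 : K, ∑ r, ∑ s, f (q1, q2) r s =
      ∑ r1 : Bool, ∑ s1 : Bool, ∑ r2 : K, ∑ s2 : K, f (q1, q2) (r1, r2) (s1, s2) := by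
    intro q2
    rw [Fintype.sum_prod_type]
    refine sum_congr rfl (fun r1 _ => ?_)
    rw [sum_comm, Fintype.sum_prod_type]
    refine sum_congr rfl (fun s1 _ => ?_)
    rw [sum_comm]
  rw [sum_congr rfl (fun q2 _ => h1 q2), sum_comm]
  refine sum_congr rfl (fun r1 _ => ?_)
  rw [sum_comm]

theorem bool_ne {b b' : Bool} (h : ¬ b' = b) : b' = !b := by
  cases b <;> cases b' <;> simp_all

section main

variable (A : Bool → Bool → Bool → K → K → ℤ)

theorem orth1 (hA : ∀ d : K, d ≠ 0 → ∑ a, ∑ b, ∑ c, C1 (A a b c) (A a b c) d = 0)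
    (x y : Bool × K) (hxy : x ≠ y) :
    ∑ q, ∑ r, ∑ s, arr A x q r s * arr A y q r s = 0 := by
  obtain ⟨p1, p2⟩ := x
  obtain ⟨p1', p2'⟩ := y
  rw [split3]
  by_cases h : p1' = p1
  · subst h
    have hd : p2' - p2 ≠ 0 := fun h => hxy (by rw [sub_eq_zero.1 h])
    have hin : ∀ q1 r1 s1 : Bool, ∑ q2 : K, ∑ r2 : K, ∑ s2 : K,
        arr A (p1', p2) (q1, q2) (r1, r2) (s1, s2) * arr A (p1', p2') (q1, q2) (r1, r2) (s1, s2) =
        (Fintype.card K : ℤ) * C1 (A (xor p1' s1) (xor q1 s1) (xor r1 s1))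
          (A (xor p1' s1) (xor q1 s1) (xor r1 s1)) (p2' - p2) := by
      intro q1 r1 s1
      rw [← sum1 _ _ p1' q1 p2 p2']
      refine sum_congr rfl (fun q2 _ => sum_congr rfl (fun r2 _ => sum_congr rfl (fun s2 _ => ?_)))
      simp only [arr]
      linear_combination (A (xor p1' s1) (xor q1 s1) (xor r1 s1) (p2 + tw p1' r2) (q2 + tw q1 s2)) *
        (A (xor p1' s1) (xor q1 s1) (xor r1 s1) (p2' + tw p1' r2) (q2 + tw q1 s2)) *
        (sg (r1 && s1) * sg (r1 && s1) * sg_sq (p1' && q1) + sg_sq (r1 && s1))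
    simp only [hin]
    have := hA _ hd
    cases p1' <;> simp only [Fintype.sum_bool, Bool.xor_true, Bool.xor_false, Bool.not_true,
      Bool.not_false] at this ⊢ <;> linear_combination (Fintype.card K : ℤ) * this
  · have h' := bool_ne h
    subst h'
    have hin : ∀ q1 r1 s1 : Bool, ∑ q2 : K, ∑ r2 : K, ∑ s2 : K,
        arr A (p1, p2) (q1, q2) (r1, r2) (s1, s2) * arr A (!p1, p2') (q1, q2) (r1, r2) (s1, s2) =
        sg q1 * ((Fintype.card K : ℤ) * Q1 (A (xor p1 s1) (xor q1 s1) (xor r1 s1))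
          (A (xor (!p1) s1) (xor q1 s1) (xor r1 s1)) (p2 + p2')) := by
      intro q1 r1 s1
      rw [← sum1' _ _ p1 q1 p2 p2']
      simp only [mul_sum]
      refine sum_congr rfl (fun q2 _ => sum_congr rfl (fun r2 _ => sum_congr rfl (fun s2 _ => ?_)))
      simp only [arr]
      have e : sg (p1 && q1) * sg (!p1 && q1) = sg q1 := by cases p1 <;> cases q1 <;> simp [sg]
      rw [← e]
      linear_combination (A (xor p1 s1) (xor q1 s1) (xor r1 s1) (p2 + tw p1 r2) (q2 + tw q1 s2)) *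
        (A (xor (!p1) s1) (xor q1 s1) (xor r1 s1) (p2' + tw (!p1) r2) (q2 + tw q1 s2)) *
        (sg (p1 && q1) * sg (!p1 && q1)) * sg_sq (r1 && s1)
    simp only [hin]
    have c := fun F G => Q1_comm (K := K) F G (p2 + p2')
    cases p1 <;> simp only [Fintype.sum_bool, Bool.xor_true, Bool.xor_false, Bool.not_true,
      Bool.not_false, sg] <;>
    rw [c (A true true true) (A false true true), c (A true true false) (A false true false),
      c (A true false true) (A false false true), c (A true false false) (A false false false)] <;>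
    simp <;> ring

theorem orth2 (hA : ∀ d : K, d ≠ 0 → ∑ a, ∑ b, ∑ c, C2 (A a b c) (A a b c) d = 0)
    (x y : Bool × K) (hxy : x ≠ y) :
    ∑ p, ∑ r, ∑ s, arr A p x r s * arr A p y r s = 0 := by
  obtain ⟨q1, q2⟩ := x
  obtain ⟨q1', q2'⟩ := y
  rw [split3]
  by_cases h : q1' = q1
  · subst h
    have hd : q2' - q2 ≠ 0 := fun h => hxy (by rw [sub_eq_zero.1 h])
    have hin : ∀ p1 r1 s1 : Bool, ∑ p2 : K, ∑ r2 : K, ∑ s2 : K,
        arr A (p1, p2) (q1', q2) (r1, r2) (s1, s2) * arr A (p1, p2) (q1', q2') (r1, r2) (s1, s2) =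
        (Fintype.card K : ℤ) * C2 (A (xor p1 s1) (xor q1' s1) (xor r1 s1))
          (A (xor p1 s1) (xor q1' s1) (xor r1 s1)) (q2' - q2) := by
      intro p1 r1 s1
      rw [← sum2 _ _ p1 q1' q2 q2']
      refine sum_congr rfl (fun p2 _ => sum_congr rfl (fun r2 _ => sum_congr rfl (fun s2 _ => ?_)))
      simp only [arr]
      linear_combination (A (xor p1 s1) (xor q1' s1) (xor r1 s1) (p2 + tw p1 r2) (q2 + tw q1' s2)) *
        (A (xor p1 s1) (xor q1' s1) (xor r1 s1) (p2 + tw p1 r2) (q2' + tw q1' s2)) *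
        (sg (r1 && s1) * sg (r1 && s1) * sg_sq (p1 && q1') + sg_sq (r1 && s1))
    simp only [hin]
    have := hA _ hd
    cases q1' <;> simp only [Fintype.sum_bool, Bool.xor_true, Bool.xor_false, Bool.not_true,
      Bool.not_false] at this ⊢ <;> linear_combination (Fintype.card K : ℤ) * this
  · have h' := bool_ne h
    subst h'
    have hin : ∀ p1 r1 s1 : Bool, ∑ p2 : K, ∑ r2 : K, ∑ s2 : K,
        arr A (p1, p2) (q1, q2) (r1, r2) (s1, s2) * arr A (p1, p2) (!q1, q2') (r1, r2) (s1, s2) =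
        sg p1 * ((Fintype.card K : ℤ) * Q2 (A (xor p1 s1) (xor q1 s1) (xor r1 s1))
          (A (xor p1 s1) (xor (!q1) s1) (xor r1 s1)) (q2 + q2')) := by
      intro p1 r1 s1
      rw [← sum2' _ _ p1 q1 q2 q2']
      simp only [mul_sum]
      refine sum_congr rfl (fun p2 _ => sum_congr rfl (fun r2 _ => sum_congr rfl (fun s2 _ => ?_)))
      simp only [arr]
      have e : sg (p1 && q1) * sg (p1 && !q1) = sg p1 := by cases p1 <;> cases q1 <;> simp [sg]
      rw [← e]
      linear_combination (A (xor p1 s1) (xor q1 s1) (xor r1 s1) (p2 + tw p1 r2) (q2 + tw q1 s2)) *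
        (A (xor p1 s1) (xor (!q1) s1) (xor r1 s1) (p2 + tw p1 r2) (q2' + tw (!q1) s2)) *
        (sg (p1 && q1) * sg (p1 && !q1)) * sg_sq (r1 && s1)
    simp only [hin]
    have c := fun F G => Q2_comm (K := K) F G (q2 + q2')
    cases q1 <;> simp only [Fintype.sum_bool, Bool.xor_true, Bool.xor_false, Bool.not_true,
      Bool.not_false, sg] <;>
    rw [c (A true true true) (A true false true), c (A true true false) (A true false false),
      c (A false true true) (A false false true), c (A false true false) (A false false false)] <;>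
    simp <;> ring

theorem orth3 (hA : ∀ d : K, d ≠ 0 → ∑ a, ∑ b, ∑ c, C1 (A a b c) (A a b c) d = 0)
    (x y : Bool × K) (hxy : x ≠ y) :
    ∑ p, ∑ q, ∑ s, arr A p q x s * arr A p q y s = 0 := by
  obtain ⟨r1, r2⟩ := x
  obtain ⟨r1', r2'⟩ := y
  rw [split3]
  by_cases h : r1' = r1
  · subst h
    have hd : r2' - r2 ≠ 0 := fun h => hxy (by rw [sub_eq_zero.1 h])
    have hin : ∀ p1 q1 s1 : Bool, ∑ p2 : K, ∑ q2 : K, ∑ s2 : K,
        arr A (p1, p2) (q1, q2) (r1', r2) (s1, s2) * arr A (p1, p2) (q1, q2) (r1', r2') (s1, s2) =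
        (Fintype.card K : ℤ) * C1 (A (xor p1 s1) (xor q1 s1) (xor r1' s1))
          (A (xor p1 s1) (xor q1 s1) (xor r1' s1)) (r2' - r2) := by
      intro p1 q1 s1
      have e : C1 (A (xor p1 s1) (xor q1 s1) (xor r1' s1))
          (A (xor p1 s1) (xor q1 s1) (xor r1' s1)) (r2' - r2) =
          C1 (A (xor p1 s1) (xor q1 s1) (xor r1' s1))
          (A (xor p1 s1) (xor q1 s1) (xor r1' s1)) (tw p1 (r2' - r2)) := by
        cases p1
        · simp [tw]
        · simp only [tw, if_true]; rw [C1_neg]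
      rw [e, ← sum3 _ _ p1 q1 r2 r2']
      refine sum_congr rfl (fun p2 _ => sum_congr rfl (fun q2 _ => sum_congr rfl (fun s2 _ => ?_)))
      simp only [arr]
      linear_combination (A (xor p1 s1) (xor q1 s1) (xor r1' s1) (p2 + tw p1 r2) (q2 + tw q1 s2)) *
        (A (xor p1 s1) (xor q1 s1) (xor r1' s1) (p2 + tw p1 r2') (q2 + tw q1 s2)) *
        (sg (r1' && s1) * sg (r1' && s1) * sg_sq (p1 && q1) + sg_sq (r1' && s1))
    simp only [hin]
    have := hA _ hd
    cases r1' <;> simp only [Fintype.sum_bool, Bool.xor_true, Bool.xor_false, Bool.not_true,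
      Bool.not_false] at this ⊢ <;> linear_combination (Fintype.card K : ℤ) * this
  · have h' := bool_ne h
    subst h'
    have hin : ∀ p1 q1 s1 : Bool, ∑ p2 : K, ∑ q2 : K, ∑ s2 : K,
        arr A (p1, p2) (q1, q2) (r1, r2) (s1, s2) * arr A (p1, p2) (q1, q2) (!r1, r2') (s1, s2) =
        sg s1 * ((Fintype.card K : ℤ) * C1 (A (xor p1 s1) (xor q1 s1) (xor r1 s1))
          (A (xor p1 s1) (xor q1 s1) (xor (!r1) s1)) (tw p1 (r2' - r2))) := by
      intro p1 q1 s1
      rw [← sum3 _ _ p1 q1 r2 r2']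
      simp only [mul_sum]
      refine sum_congr rfl (fun p2 _ => sum_congr rfl (fun q2 _ => sum_congr rfl (fun s2 _ => ?_)))
      simp only [arr]
      have e : sg (r1 && s1) * sg (!r1 && s1) = sg s1 := by cases r1 <;> cases s1 <;> simp [sg]
      rw [← e]
      linear_combination (A (xor p1 s1) (xor q1 s1) (xor r1 s1) (p2 + tw p1 r2) (q2 + tw q1 s2)) *
        (A (xor p1 s1) (xor q1 s1) (xor (!r1) s1) (p2 + tw p1 r2') (q2 + tw q1 s2)) *
        (sg (r1 && s1) * sg (!r1 && s1)) * sg_sq (p1 && q1)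
    simp only [hin]
    have c := fun F G => C1_neg (K := K) F G (r2' - r2)
    cases r1 <;> simp only [Fintype.sum_bool, Bool.xor_true, Bool.xor_false, Bool.not_true,
      Bool.not_false, sg, tw, if_true, if_false, c] <;> simp <;> ring

theorem orth4 (hA : ∀ d : K, d ≠ 0 → ∑ a, ∑ b, ∑ c, C2 (A a b c) (A a b c) d = 0)
    (x y : Bool × K) (hxy : x ≠ y) :
    ∑ p, ∑ q, ∑ r, arr A p q r x * arr A p q r y = 0 := by
  obtain ⟨s1, s2⟩ := x
  obtain ⟨s1', s2'⟩ := y
  rw [split3]
  by_cases h : s1' = s1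
  · subst h
    have hd : s2' - s2 ≠ 0 := fun h => hxy (by rw [sub_eq_zero.1 h])
    have hin : ∀ p1 q1 r1 : Bool, ∑ p2 : K, ∑ q2 : K, ∑ r2 : K,
        arr A (p1, p2) (q1, q2) (r1, r2) (s1', s2) * arr A (p1, p2) (q1, q2) (r1, r2) (s1', s2') =
        (Fintype.card K : ℤ) * C2 (A (xor p1 s1') (xor q1 s1') (xor r1 s1'))
          (A (xor p1 s1') (xor q1 s1') (xor r1 s1')) (s2' - s2) := by
      intro p1 q1 r1
      have e : C2 (A (xor p1 s1') (xor q1 s1') (xor r1 s1'))
          (A (xor p1 s1') (xor q1 s1') (xor r1 s1')) (s2' - s2) =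
          C2 (A (xor p1 s1') (xor q1 s1') (xor r1 s1'))
          (A (xor p1 s1') (xor q1 s1') (xor r1 s1')) (tw q1 (s2' - s2)) := by
        cases q1
        · simp [tw]
        · simp only [tw, if_true]; rw [C2_neg]
      rw [e, ← sum4 _ _ p1 q1 s2 s2']
      refine sum_congr rfl (fun p2 _ => sum_congr rfl (fun q2 _ => sum_congr rfl (fun r2 _ => ?_)))
      simp only [arr]
      linear_combination (A (xor p1 s1') (xor q1 s1') (xor r1 s1') (p2 + tw p1 r2) (q2 + tw q1 s2)) *
        (A (xor p1 s1') (xor q1 s1') (xor r1 s1') (p2 + tw p1 r2) (q2 + tw q1 s2')) *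
        (sg (r1 && s1') * sg (r1 && s1') * sg_sq (p1 && q1) + sg_sq (r1 && s1'))
    simp only [hin]
    have := hA _ hd
    cases s1' <;> simp only [Fintype.sum_bool, Bool.xor_true, Bool.xor_false, Bool.not_true,
      Bool.not_false] at this ⊢ <;> linear_combination (Fintype.card K : ℤ) * this
  · have h' := bool_ne h
    subst h'
    have hin : ∀ p1 q1 r1 : Bool, ∑ p2 : K, ∑ q2 : K, ∑ r2 : K,
        arr A (p1, p2) (q1, q2) (r1, r2) (s1, s2) * arr A (p1, p2) (q1, q2) (r1, r2) (!s1, s2') =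
        sg r1 * ((Fintype.card K : ℤ) * C2 (A (xor p1 s1) (xor q1 s1) (xor r1 s1))
          (A (xor p1 (!s1)) (xor q1 (!s1)) (xor r1 (!s1))) (tw q1 (s2' - s2))) := by
      intro p1 q1 r1
      rw [← sum4 _ _ p1 q1 s2 s2']
      simp only [mul_sum]
      refine sum_congr rfl (fun p2 _ => sum_congr rfl (fun q2 _ => sum_congr rfl (fun r2 _ => ?_)))
      simp only [arr]
      have e : sg (r1 && s1) * sg (r1 && !s1) = sg r1 := by cases r1 <;> cases s1 <;> simp [sg]
      rw [← e]
      linear_combination (A (xor p1 s1) (xor q1 s1) (xor r1 s1) (p2 + tw p1 r2) (q2 + tw q1 s2)) *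
        (A (xor p1 (!s1)) (xor q1 (!s1)) (xor r1 (!s1)) (p2 + tw p1 r2) (q2 + tw q1 s2')) *
        (sg (r1 && s1) * sg (r1 && !s1)) * sg_sq (p1 && q1)
    simp only [hin]
    have c := fun F G => C2_neg (K := K) F G (s2' - s2)
    cases s1 <;> simp only [Fintype.sum_bool, Bool.xor_true, Bool.xor_false, Bool.not_true,
      Bool.not_false, sg, tw, if_true, if_false, c] <;> simp <;> ring

/-- Eight complementary arrays on `K × K` give a four-dimensional Hadamard array of order `2 |K|`. -/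
theorem isH4_arr (hpm : ∀ a b c x u, A a b c x u = 1 ∨ A a b c x u = -1)
    (h1 : ∀ d : K, d ≠ 0 → ∑ a, ∑ b, ∑ c, C1 (A a b c) (A a b c) d = 0)
    (h2 : ∀ d : K, d ≠ 0 → ∑ a, ∑ b, ∑ c, C2 (A a b c) (A a b c) d = 0) : IsH4 (arr A) := by
  refine ⟨fun p q r s => ?_, orth1 A h1, orth2 A h2, orth3 A h1, orth4 A h2⟩
  unfold arr
  rcases sg_pm (p.1 && q.1) with ha | ha <;> rcases sg_pm (r.1 && s.1) with hb | hb <;>
    rcases hpm (xor p.1 s.1) (xor q.1 s.1) (xor r.1 s.1) (p.2 + tw p.1 r.2) (q.2 + tw q.1 s.2)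
      with hc | hc <;> rw [ha, hb, hc] <;> norm_num

end main

end Pool.Agent.Q148.HD
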