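import Pool.Agent.Q148.HD.Four

set_option autoImplicit false

/-! `n`-dimensional Hadamard arrays from `2 ^ (n - 1)` arrays on `K × K`, `n` even. -/

namespace Pool.Agent.Q148.HD

open Finset

/-- An `n`-dimensional Hadamard array on the index set `X`. -/
def IsHn {n : ℕ} {X : Type} [Fintype X] [DecidableEq X] (A : (Fin n → X) → ℤ) : Prop :=
  (∀ i, A i = 1 ∨ A i = -1) ∧
  ∀ l : Fin n, ∀ x y : X, x ≠ y →
    ∑ i : Fin n → X, A (Function.update i l x) * A (Function.update i l y) = 0

section general

variable {n : ℕ}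

/-- Complement of a bit vector. -/
def cpl (δ : Fin n → Bool) : Fin n → Bool := fun r => !δ r

/-- Number of ones. -/
def wt (δ : Fin n → Bool) : ℕ := (univ.filter (fun r => δ r = true)).card

/-- The sign attached to a weight. -/
def tau (w : ℕ) : ℤ := if w % 4 = 0 ∨ w % 4 = 1 then 1 else -1

theorem tau_pm (w : ℕ) : tau w = 1 ∨ tau w = -1 := by unfold tau; split_ifs <;> simp

theorem tau_sq (w : ℕ) : tau w * tau w = 1 := by
  rcases tau_pm w with h | h <;> rw [h] <;> norm_num

theorem tau_succ (w : ℕ) : tau w * tau (w + 1) = if w % 2 = 0 then 1 else -1 := by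
  unfold tau
  have h : w % 4 = 0 ∨ w % 4 = 1 ∨ w % 4 = 2 ∨ w % 4 = 3 := by omega
  rcases h with h | h | h | h
  · rw [if_pos (by omega), if_pos (by omega), if_pos (by omega)]; norm_num
  · rw [if_pos (by omega), if_neg (by omega), if_neg (by omega)]; norm_num
  · rw [if_neg (by omega), if_neg (by omega), if_pos (by omega)]; norm_num
  · rw [if_neg (by omega), if_pos (by omega), if_neg (by omega)]; norm_num

theorem tau_pair (hn : Even n) {w : ℕ} (hw : w + 1 ≤ n) :
    tau (n - w) * tau (n - (w + 1)) = -(tau w * tau (w + 1)) := by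
  have h1 : n - w = (n - (w + 1)) + 1 := by omega
  rw [h1, mul_comm, tau_succ, tau_succ]
  obtain ⟨m, hm⟩ := hn
  by_cases h : w % 2 = 0
  · rw [if_pos h, if_neg (by omega)]
  · rw [if_neg h, if_pos (by omega)]; norm_num

theorem wt_cpl (δ : Fin n → Bool) : wt (cpl δ) = n - wt δ := by
  have h := card_filter_add_card_filter_not (s := (univ : Finset (Fin n))) (fun r => δ r = true)
  have e : (univ.filter (fun r => cpl δ r = true)) = univ.filter (fun r => ¬ δ r = true) := by
    ext r; simp [cpl]
  unfold wt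
  rw [e]
  simp only [card_univ, Fintype.card_fin] at h
  omega

theorem wt_update_true (δ : Fin n → Bool) (p : Fin n) :
    wt (Function.update δ p true) = wt (Function.update δ p false) + 1 := by
  unfold wt
  have e : (univ.filter (fun r => Function.update δ p true r = true)) =
      insert p (univ.filter (fun r => Function.update δ p false r = true)) := by
    ext r
    by_cases h : r = p
    · subst h; simp
    · simp [h]
  rw [e, card_insert_of_notMem (by simp)]

theorem wt_le (δ : Fin n → Bool) : wt δ ≤ n := by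
  unfold wt
  refine (card_filter_le _ _).trans ?_
  simp

theorem tau_flip (hn : Even n) (δ : Fin n → Bool) (p : Fin n) (b : Bool) :
    tau (wt (cpl (Function.update δ p (!b)))) * tau (wt (cpl (Function.update δ p b))) =
      -(tau (wt (Function.update δ p b)) * tau (wt (Function.update δ p (!b)))) := by
  have h := wt_update_true δ p
  have hle := wt_le (Function.update δ p true)
  rw [wt_cpl, wt_cpl]
  have key := tau_pair hn (w := wt (Function.update δ p false)) (by omega)
  cases b
  · simp only [Bool.not_false]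
    rw [h]
    rw [mul_comm] at key
    rw [key]
  · simp only [Bool.not_true]
    rw [h, key]
    ring

theorem cpl_update (δ : Fin n → Bool) (p : Fin n) (b : Bool) :
    Function.update (cpl δ) p b = cpl (Function.update δ p (!b)) := by
  ext r
  by_cases h : r = p
  · subst h; simp [cpl]
  · simp [cpl, h]

theorem cpl_cpl (δ : Fin n → Bool) : cpl (cpl δ) = δ := by ext r; simp [cpl]

/-- Complement invariant functions have the same sum after fixing one bit. -/
theorem sum_fix (f : (Fin n → Bool) → ℤ) (hf : ∀ δ, f (cpl δ) = f δ) (p : Fin n) (b : Bool) :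
    ∑ δ, f (Function.update δ p b) = ∑ δ, f δ := by
  classical
  let φ : (Fin n → Bool) → (Fin n → Bool) := fun δ =>
    if δ p = b then δ else cpl (Function.update δ p b)
  have hinv : ∀ δ, φ (φ δ) = δ := by
    intro δ
    by_cases h : δ p = b
    · simp [φ, h]
    · have h1 : φ δ = cpl (Function.update δ p b) := by simp [φ, h]
      have h2 : ¬ (cpl (Function.update δ p b)) p = b := by simp [cpl]
      rw [h1]
      show (if (cpl (Function.update δ p b)) p = b then _ else _) = _
      rw [if_neg h2, cpl_update, cpl_cpl]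
      ext r
      by_cases hr : r = p
      · subst hr
        simp only [Function.update_self]
        cases b <;> cases hd : δ r <;> simp_all
      · simp [hr]
  refine Fintype.sum_equiv ⟨φ, φ, hinv, hinv⟩ _ _ (fun δ => ?_)
  show f (Function.update δ p b) = f (φ δ)
  by_cases h : δ p = b
  · have : Function.update δ p b = δ := by
      ext r
      by_cases hr : r = p
      · subst hr; simp [h]
      · simp [hr]
    rw [this]; simp [φ, h]
  · simp only [φ, if_neg h, hf]

variable {K : Type} [AddCommGroup K] [Fintype K]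

/-- The general array, as a function of the bits and of the group parts. -/
def gb (P : Finset (Fin n)) (o o' : Fin n) (A : (Fin n → Bool) → K → K → ℤ)
    (δ : Fin n → Bool) (s : Fin n → K) : ℤ :=
  tau (wt δ) * A δ (tw (δ o) (∑ r ∈ P, s r)) (tw (δ o') (∑ r ∈ Pᶜ, s r))

theorem tw_not_neg (b : Bool) (k : K) : tw (!b) (-k) = tw b k := by cases b <;> simp [tw]

theorem tw_tw (b : Bool) (k : K) : tw b (tw b k) = k := by cases b <;> simp [tw]

theorem tw_add (b : Bool) (k l : K) : tw b (k + l) = tw b k + tw b l := by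
  cases b <;> simp [tw, add_comm]

/-- Reindexing a double sum over two linear forms. -/
theorem sum_forms (S1 S2 : Finset (Fin n)) (r0 r1 : Fin n) (h0 : r0 ∈ S1) (h0' : r0 ∉ S2)
    (h1 : r1 ∈ S2) (h1' : r1 ∉ S1) (Φ : K → K → ℤ) :
    (Fintype.card K : ℤ) ^ 2 * ∑ s : Fin n → K, Φ (∑ r ∈ S1, s r) (∑ r ∈ S2, s r) =
      (Fintype.card (Fin n → K) : ℤ) * ∑ x, ∑ u, Φ x u := by
  classical
  have hshift : ∀ a c : K, ∑ s : Fin n → K, Φ (∑ r ∈ S1, s r + a) (∑ r ∈ S2, s r + c) =
      ∑ s : Fin n → K, Φ (∑ r ∈ S1, s r) (∑ r ∈ S2, s r) := by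
    intro a c
    let w : Fin n → K := Pi.single r0 a + Pi.single r1 c
    have e1 : ∀ s : Fin n → K, ∑ r ∈ S1, (s + w) r = ∑ r ∈ S1, s r + a := by
      intro s
      simp only [w, Pi.add_apply, sum_add_distrib]
      rw [Finset.sum_pi_single', Finset.sum_pi_single', if_pos h0, if_neg h1', add_zero]
    have e2 : ∀ s : Fin n → K, ∑ r ∈ S2, (s + w) r = ∑ r ∈ S2, s r + c := by
      intro s
      simp only [w, Pi.add_apply, sum_add_distrib]
      rw [Finset.sum_pi_single', Finset.sum_pi_single', if_neg h0', if_pos h1, zero_add]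
    refine Fintype.sum_equiv (Equiv.addRight w) _ _ (fun s => ?_)
    show _ = Φ (∑ r ∈ S1, (s + w) r) (∑ r ∈ S2, (s + w) r)
    rw [e1, e2]
  have hL : (Fintype.card K : ℤ) ^ 2 * ∑ s : Fin n → K, Φ (∑ r ∈ S1, s r) (∑ r ∈ S2, s r) =
      ∑ a : K, ∑ c : K, ∑ s : Fin n → K, Φ (∑ r ∈ S1, s r + a) (∑ r ∈ S2, s r + c) := by
    simp only [hshift]
    simp
    ring
  rw [hL]
  have hR : ∀ s : Fin n → K, ∑ a : K, ∑ c : K, Φ (∑ r ∈ S1, s r + a) (∑ r ∈ S2, s r + c) =
      ∑ x, ∑ u, Φ x u := by
    intro s
    refine Fintype.sum_equiv (Equiv.addLeft (∑ r ∈ S1, s r)) _ _ (fun a => ?_)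
    exact Fintype.sum_equiv (Equiv.addLeft (∑ r ∈ S2, s r)) _ _ (fun c => rfl)
  have hcomm : ∑ a : K, ∑ c : K, ∑ s : Fin n → K, Φ (∑ r ∈ S1, s r + a) (∑ r ∈ S2, s r + c) =
      ∑ s : Fin n → K, ∑ a : K, ∑ c : K, Φ (∑ r ∈ S1, s r + a) (∑ r ∈ S2, s r + c) := by
    rw [sum_congr rfl (fun a _ => sum_comm), sum_comm]
  rw [hcomm, sum_congr rfl (fun s _ => hR s)]
  simp

/-- The correlation in the first variable after a sign change. -/
theorem C1_tw (F : K → K → ℤ) (e e' : Bool) (z z' : K) :
    ∑ x, ∑ u, F (tw e (z + x)) (tw e' u) * F (tw e (z' + x)) (tw e' u) = C1 F F (z' - z) := by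
  have h1 : ∀ x : K, ∑ u, F (tw e (z + x)) (tw e' u) * F (tw e (z' + x)) (tw e' u) =
      ∑ u, F (tw e (z + x)) u * F (tw e (z' + x)) u := fun x =>
    Fintype.sum_equiv ⟨tw e', tw e', tw_tw e', tw_tw e'⟩ _ _ (fun u => rfl)
  simp only [h1]
  have h2 : ∑ x, ∑ u, F (tw e (z + x)) u * F (tw e (z' + x)) u = C1 F F (tw e (z' - z)) := by
    unfold C1
    refine Fintype.sum_equiv ((Equiv.addLeft z).trans ⟨tw e, tw e, tw_tw e, tw_tw e⟩) _ _
      (fun x => ?_)
    refine sum_congr rfl (fun u _ => ?_)
    show _ = F (tw e (z + x)) u * F (tw e (z + x) + tw e (z' - z)) u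
    rw [← tw_add, show z + x + (z' - z) = z' + x by abel]
  rw [h2]
  cases e
  · rfl
  · show C1 F F (-(z' - z)) = _
    rw [C1_neg]

/-- Orthogonality in a direction belonging to `P`. -/
theorem orthP (hn : Even n) (P : Finset (Fin n)) (o o' : Fin n) (ho : o ∉ P)
    (A : (Fin n → Bool) → K → K → ℤ) (hc : ∀ δ, A (cpl δ) = A δ)
    (hA : ∀ d : K, d ≠ 0 → ∑ δ, C1 (A δ) (A δ) d = 0)
    (p r0 : Fin n) (hp : p ∈ P) (hr0 : r0 ∈ P) (hr0p : r0 ≠ p)
    (b b' : Bool) (z z' : K) (hne : (b, z) ≠ (b', z')) :
    ∑ δ : Fin n → Bool, ∑ s : Fin n → K,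
      gb P o o' A (Function.update δ p b) (Function.update s p z) *
      gb P o o' A (Function.update δ p b') (Function.update s p z') = 0 := by
  classical
  have hop : o ≠ p := fun h => ho (h ▸ hp)
  have hX : ∀ (s : Fin n → K) (z : K), ∑ r ∈ P, Function.update s p z r =
      z + ∑ r ∈ P.erase p, s r := by
    intro s z
    rw [Finset.sum_update_of_mem hp, ← Finset.erase_eq]
  have hpc : p ∉ Pᶜ := by simpa using hp
  have hU : ∀ (s : Fin n → K) (z : K), ∑ r ∈ Pᶜ, Function.update s p z r = ∑ r ∈ Pᶜ, s r :=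
    fun s z => Finset.sum_update_of_notMem hpc _ _
  have hgb : ∀ (δ : Fin n → Bool) (s : Fin n → K) (b : Bool) (z : K),
      gb P o o' A (Function.update δ p b) (Function.update s p z) =
      tau (wt (Function.update δ p b)) * A (Function.update δ p b)
        (tw (δ o) (z + ∑ r ∈ P.erase p, s r))
        (tw (Function.update δ p b o') (∑ r ∈ Pᶜ, s r)) := by
    intro δ s b z
    rw [gb, hX, hU, Function.update_of_ne hop]
  by_cases hb : b' = b
  · subst hb
    have hz : z' - z ≠ 0 := fun h => hne (by rw [sub_eq_zero.1 h])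
    have hK : (0 : ℤ) < (Fintype.card K : ℤ) := by
      have : 0 < Fintype.card K := Fintype.card_pos
      exact_mod_cast this
    have hin : ∀ δ : Fin n → Bool, (Fintype.card K : ℤ) ^ 2 * ∑ s : Fin n → K,
        gb P o o' A (Function.update δ p b') (Function.update s p z) *
        gb P o o' A (Function.update δ p b') (Function.update s p z') =
        (Fintype.card (Fin n → K) : ℤ) *
          C1 (A (Function.update δ p b')) (A (Function.update δ p b')) (z' - z) := by
      intro δ
      rw [← C1_tw _ (δ o) (Function.update δ p b' o') z z',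
        ← sum_forms (P.erase p) Pᶜ r0 o (mem_erase.2 ⟨hr0p, hr0⟩) (by simpa using hr0)
          (by simpa using ho) (fun h => ho (mem_of_mem_erase h))]
      congr 1
      refine sum_congr rfl (fun s _ => ?_)
      rw [hgb, hgb]
      linear_combination (A (Function.update δ p b') (tw (δ o) (z + ∑ r ∈ P.erase p, s r))
        (tw (Function.update δ p b' o') (∑ r ∈ Pᶜ, s r)) *
        A (Function.update δ p b') (tw (δ o) (z' + ∑ r ∈ P.erase p, s r))
        (tw (Function.update δ p b' o') (∑ r ∈ Pᶜ, s r))) *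
        tau_sq (wt (Function.update δ p b'))
    have htot : (Fintype.card K : ℤ) ^ 2 * ∑ δ : Fin n → Bool, ∑ s : Fin n → K,
        gb P o o' A (Function.update δ p b') (Function.update s p z) *
        gb P o o' A (Function.update δ p b') (Function.update s p z') = 0 := by
      rw [mul_sum]
      simp only [hin]
      rw [← mul_sum, sum_fix (fun δ => C1 (A δ) (A δ) (z' - z)) (fun δ => by rw [hc]) p b',
        hA _ hz, mul_zero]
    exact (mul_eq_zero.1 htot).resolve_left (pow_pos hK 2).ne'
  · have hb' := bool_ne hb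
    subst hb'
    let ψ : (Fin n → K) → (Fin n → K) := fun s r => if r = r0 then -s r - (z + z') else -s r
    have hψ : ∀ s, ψ (ψ s) = s := by
      intro s
      ext r
      by_cases hr : r = r0 <;> simp [ψ, hr]
    have hS : ∀ s, ∑ r ∈ P.erase p, ψ s r = -(∑ r ∈ P.erase p, s r) - (z + z') := by
      intro s
      have : ∀ r, ψ s r = -s r + (if r = r0 then -(z + z') else 0) := by
        intro r
        by_cases hr : r = r0 <;> simp [ψ, hr, sub_eq_add_neg]
      simp only [this, sum_add_distrib, sum_neg_distrib]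
      rw [Finset.sum_ite_eq', if_pos (mem_erase.2 ⟨hr0p, hr0⟩), sub_eq_add_neg]
    have hC : ∀ s, ∑ r ∈ Pᶜ, ψ s r = -(∑ r ∈ Pᶜ, s r) := by
      intro s
      rw [← sum_neg_distrib]
      refine sum_congr rfl (fun r hr => ?_)
      have : r ≠ r0 := by
        rintro rfl
        exact (mem_compl.1 hr) hr0
      simp [ψ, this]
    have hneg : ∑ δ : Fin n → Bool, ∑ s : Fin n → K,
        gb P o o' A (Function.update δ p b) (Function.update s p z) *
        gb P o o' A (Function.update δ p (!b)) (Function.update s p z') =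
        ∑ δ : Fin n → Bool, ∑ s : Fin n → K,
        -(gb P o o' A (Function.update δ p b) (Function.update s p z) *
        gb P o o' A (Function.update δ p (!b)) (Function.update s p z')) := by
      refine Fintype.sum_equiv ⟨cpl, cpl, cpl_cpl, cpl_cpl⟩ _ _ (fun δ => ?_)
      refine Fintype.sum_equiv ⟨ψ, ψ, hψ, hψ⟩ _ _ (fun s => ?_)
      show _ = -(gb P o o' A (Function.update (cpl δ) p b) (Function.update (ψ s) p z) *
        gb P o o' A (Function.update (cpl δ) p (!b)) (Function.update (ψ s) p z'))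
      rw [hgb, hgb, hgb, hgb, cpl_update, cpl_update, Bool.not_not, hc, hc, hS, hC]
      have e1 : tw (cpl δ o) (z + (-(∑ r ∈ P.erase p, s r) - (z + z'))) =
          tw (δ o) (z' + ∑ r ∈ P.erase p, s r) := by
        rw [show z + (-(∑ r ∈ P.erase p, s r) - (z + z')) = -(z' + ∑ r ∈ P.erase p, s r) by abel]
        exact tw_not_neg _ _
      have e2 : tw (cpl δ o) (z' + (-(∑ r ∈ P.erase p, s r) - (z + z'))) =
          tw (δ o) (z + ∑ r ∈ P.erase p, s r) := by
        rw [show z' + (-(∑ r ∈ P.erase p, s r) - (z + z')) = -(z + ∑ r ∈ P.erase p, s r) by abel]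
        exact tw_not_neg _ _
      have e3 : ∀ δ' : Fin n → Bool, tw (cpl δ' o') (-(∑ r ∈ Pᶜ, s r)) =
          tw (δ' o') (∑ r ∈ Pᶜ, s r) := fun δ' => tw_not_neg _ _
      rw [e1, e2, e3, e3]
      have ht := tau_flip hn δ p b
      linear_combination (-(A (Function.update δ p b) (tw (δ o) (z + ∑ r ∈ P.erase p, s r))
        (tw (Function.update δ p b o') (∑ r ∈ Pᶜ, s r)) *
        A (Function.update δ p (!b)) (tw (δ o) (z' + ∑ r ∈ P.erase p, s r))
        (tw (Function.update δ p (!b) o') (∑ r ∈ Pᶜ, s r)))) * (-ht)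
    simp only [sum_neg_distrib] at hneg
    linarith

end general

end Pool.Agent.Q148.HD
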