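import Pool.Agent.Q148.HD.Big

set_option autoImplicit false

/-! Complementary families from Golay pairs on dyadic pieces of a cyclic group. -/

namespace Pool.Agent.Q148.HD

open Finset

section golay

variable {K : Type} [AddCommGroup K] [Fintype K] [DecidableEq K]

/-- A Golay pair with support `S`. -/
def Gol (S : Finset K) : Prop :=
  ∃ P Q : K → ℤ, (∀ x ∈ S, P x = 1 ∨ P x = -1) ∧ (∀ x, x ∉ S → P x = 0) ∧
    (∀ x ∈ S, Q x = 1 ∨ Q x = -1) ∧ (∀ x, x ∉ S → Q x = 0) ∧
    ∀ d : K, d ≠ 0 → ∑ x, (P x * P (x + d) + Q x * Q (x + d)) = 0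

theorem gol_singleton (a : K) : Gol ({a} : Finset K) := by
  refine ⟨fun x => if x = a then 1 else 0, fun x => if x = a then 1 else 0, ?_, ?_, ?_, ?_, ?_⟩
  · intro x hx; simp [mem_singleton.1 hx]
  · intro x hx; simp [mem_singleton] at hx; simp [hx]
  · intro x hx; simp [mem_singleton.1 hx]
  · intro x hx; simp [mem_singleton] at hx; simp [hx]
  · intro d hd
    refine sum_eq_zero (fun x _ => ?_)
    by_cases h1 : x = a
    · subst h1
      have : ¬ x + d = x := fun h => hd (by simpa using h)
      simp [this]
    · simp [h1]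

theorem gol_double {S : Finset K} (h : Gol S) (s : K)
    (hd : Disjoint S (S.image (fun x => x + s))) : Gol (S ∪ S.image (fun x => x + s)) := by
  obtain ⟨P, Q, p1, p0, q1, q0, hc⟩ := h
  have hmem : ∀ x, x ∈ S.image (fun x => x + s) ↔ x - s ∈ S := by
    intro x
    rw [mem_image]
    constructor
    · rintro ⟨y, hy, rfl⟩; simpa using hy
    · intro h; exact ⟨x - s, h, by abel⟩
  have hdis : ∀ x, x ∈ S → x - s ∉ S := fun x hx hx' =>
    (disjoint_left.1 hd) hx ((hmem x).2 hx')
  refine ⟨fun x => P x + Q (x - s), fun x => P x - Q (x - s), ?_, ?_, ?_, ?_, ?_⟩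
  · intro x hx
    rcases mem_union.1 hx with h | h
    · simp only [q0 _ (hdis x h), add_zero]; exact p1 x h
    · have h' := (hmem x).1 h
      have hx' : x ∉ S := fun hh => hdis x hh h'
      simp only [p0 _ hx', zero_add]; exact q1 _ h'
  · intro x hx
    rw [mem_union, not_or] at hx
    have h' : x - s ∉ S := fun h => hx.2 ((hmem x).2 h)
    simp [p0 _ hx.1, q0 _ h']
  · intro x hx
    rcases mem_union.1 hx with h | h
    · simp only [q0 _ (hdis x h), sub_zero]; exact p1 x h
    · have h' := (hmem x).1 h
      have hx' : x ∉ S := fun hh => hdis x hh h'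
      simp only [p0 _ hx', zero_sub]
      rcases q1 _ h' with h | h <;> simp [h]
  · intro x hx
    rw [mem_union, not_or] at hx
    have h' : x - s ∉ S := fun h => hx.2 ((hmem x).2 h)
    simp [p0 _ hx.1, q0 _ h']
  · intro d hd0
    have e : ∀ x, (P x + Q (x - s)) * (P (x + d) + Q (x + d - s)) +
        (P x - Q (x - s)) * (P (x + d) - Q (x + d - s)) =
        2 * (P x * P (x + d)) + 2 * (Q (x - s) * Q (x - s + d)) := by
      intro x
      rw [show x + d - s = x - s + d by abel]
      ring
    simp only [e]
    rw [sum_add_distrib, ← mul_sum, ← mul_sum]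
    have e2 : ∑ x, Q (x - s) * Q (x - s + d) = ∑ x, Q x * Q (x + d) :=
      Fintype.sum_equiv (Equiv.subRight s) _ _ (fun x => rfl)
    rw [e2, ← mul_add, ← sum_add_distrib, hc d hd0, mul_zero]

/-- `S` is a disjoint union of `h` supports of Golay pairs. -/
def Parts (S : Finset K) (h : ℕ) : Prop :=
  ∃ π : K → ℕ, (∀ x ∈ S, π x < h) ∧ ∀ j, j < h → Gol (S.filter (fun x => π x = j))

theorem parts_empty : Parts (∅ : Finset K) 0 :=
  ⟨fun _ => 0, fun x hx => absurd hx (notMem_empty x), fun j hj => absurd hj (by omega)⟩

theorem parts_union {S T : Finset K} {h : ℕ} (hS : Parts S h) (hT : Gol T) (hd : Disjoint S T) :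
    Parts (S ∪ T) (h + 1) := by
  obtain ⟨π, hπ, hg⟩ := hS
  refine ⟨fun x => if x ∈ T then h else π x, fun x hx => ?_, fun j hj => ?_⟩
  · by_cases hT' : x ∈ T
    · simp [hT']
    · have hxS : x ∈ S := (mem_union.1 hx).resolve_right hT'
      simp only [hT', if_false]
      have := hπ x hxS
      omega
  · by_cases hjh : j = h
    · subst hjh
      have : (S ∪ T).filter (fun x => (if x ∈ T then j else π x) = j) = T := by
        ext x
        rw [mem_filter, mem_union]
        constructor
        · rintro ⟨h1, h2⟩
          by_contra hx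
          rw [if_neg hx] at h2
          have := hπ x (h1.resolve_right hx)
          omega
        · intro hx
          exact ⟨Or.inr hx, by simp [hx]⟩
      rw [this]; exact hT
    · have hjlt : j < h := by omega
      have : (S ∪ T).filter (fun x => (if x ∈ T then h else π x) = j) =
          S.filter (fun x => π x = j) := by
        ext x
        rw [mem_filter, mem_filter, mem_union]
        constructor
        · rintro ⟨h1, h2⟩
          by_cases hx : x ∈ T
          · rw [if_pos hx] at h2; omega
          · rw [if_neg hx] at h2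
            exact ⟨h1.resolve_right hx, h2⟩
        · rintro ⟨h1, h2⟩
          have hx : x ∉ T := fun hx => (disjoint_left.1 hd) h1 hx
          exact ⟨Or.inl h1, by rw [if_neg hx]; exact h2⟩
      rw [this]; exact hg j hjlt

end golay

/-- Walsh functions. -/
def walsh {r : ℕ} (v c : Fin r → Bool) : ℤ := ∏ i, (if v i && c i then -1 else 1)

theorem walsh_pm {r : ℕ} (v c : Fin r → Bool) : walsh v c = 1 ∨ walsh v c = -1 := by
  unfold walsh
  refine Finset.prod_induction _ (fun z => z = 1 ∨ z = -1) ?_ (Or.inl rfl) ?_
  · rintro a b (rfl | rfl) (rfl | rfl) <;> simp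
  · intro i _; split_ifs <;> simp

theorem walsh_orth {r : ℕ} (v w : Fin r → Bool) :
    ∑ c, walsh v c * walsh w c = if v = w then (2 : ℤ) ^ r else 0 := by
  have e : ∀ c : Fin r → Bool, walsh v c * walsh w c =
      ∏ i, (if v i && c i then (-1 : ℤ) else 1) * (if w i && c i then -1 else 1) := fun c =>
    prod_mul_distrib.symm
  simp only [e]
  rw [← Fintype.prod_sum (fun i b => (if v i && b then (-1 : ℤ) else 1) * (if w i && b then -1 else 1))]
  have e2 : ∀ i, ∑ b, (if v i && b then (-1 : ℤ) else 1) * (if w i && b then -1 else 1) =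
      if v i = w i then 2 else 0 := by
    intro i
    cases v i <;> cases w i <;> simp
  simp only [e2]
  by_cases h : v = w
  · subst h; simp
  · rw [if_neg h]
    obtain ⟨i, hi⟩ := Function.ne_iff.1 h
    exact prod_eq_zero (mem_univ i) (by simp [hi])

section build

variable {K : Type} [AddCommGroup K] [Fintype K] [DecidableEq K]

/-- A partition into at most `2 ^ r` Golay supports gives `2 ^ (r + 1)` complementary sequences,
hence a complementary family of arrays. -/
theorem fam_of_parts {r h : ℕ} (hr : h ≤ 2 ^ r) (hp : Parts (univ : Finset K) h) :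
    Fam (r + 1) K := by
  classical
  obtain ⟨π, hπ, hg⟩ := hp
  choose! P Q p1 p0 q1 q0 hc using hg
  have hcard : Fintype.card (Fin r → Bool) = 2 ^ r := by simp
  let ι : Fin (2 ^ r) ≃ (Fin r → Bool) := (Fintype.equivFinOfCardEq hcard).symm
  have hlt : ∀ x, π x < 2 ^ r := fun x => lt_of_lt_of_le (hπ x (mem_univ x)) hr
  let lab : K → (Fin r → Bool) := fun x => ι ⟨π x, hlt x⟩
  have hlab : ∀ x y, lab x = lab y ↔ π x = π y := by
    intro x y
    constructor
    · intro h
      have := ι.injective h
      simpa using this
    · intro h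
      show ι _ = ι _
      congr 1
      exact Fin.ext h
  let R : Bool → K → ℤ := fun b x => if b then P (π x) x else Q (π x) x
  have hRpm : ∀ b x, R b x = 1 ∨ R b x = -1 := by
    intro b x
    have hx : x ∈ (univ : Finset K).filter (fun y => π y = π x) := by simp
    cases b
    · exact q1 _ (hπ x (mem_univ x)) x hx
    · exact p1 _ (hπ x (mem_univ x)) x hx
  let f : Bool → (Fin r → Bool) → K → ℤ := fun b c x => walsh (lab x) c * R b x
  have hfpm : ∀ b c x, f b c x = 1 ∨ f b c x = -1 := by
    intro b c x
    show walsh (lab x) c * R b x = 1 ∨ walsh (lab x) c * R b x = -1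
    rcases walsh_pm (lab x) c with h | h <;> rcases hRpm b x with h' | h' <;> rw [h, h'] <;> norm_num
  have key : ∀ d : K, d ≠ 0 → ∑ b, ∑ c, ∑ x, f b c x * f b c (x + d) = 0 := by
    intro d hd
    have h1 : ∀ b, ∑ c, ∑ x, f b c x * f b c (x + d) =
        (2 : ℤ) ^ r * ∑ x, (if π x = π (x + d) then R b x * R b (x + d) else 0) := by
      intro b
      rw [sum_comm, mul_sum]
      refine sum_congr rfl (fun x _ => ?_)
      have : ∀ c, f b c x * f b c (x + d) = (walsh (lab x) c * walsh (lab (x + d)) c) *
          (R b x * R b (x + d)) := fun c => by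
        show walsh (lab x) c * R b x * (walsh (lab (x + d)) c * R b (x + d)) = _
        ring
      simp only [this]
      rw [← sum_mul, walsh_orth]
      by_cases h : π x = π (x + d)
      · rw [if_pos ((hlab _ _).2 h), if_pos h]
      · rw [if_neg (fun hh => h ((hlab _ _).1 hh)), if_neg h]; ring
    simp only [h1]
    rw [← mul_sum, Fintype.sum_bool, ← sum_add_distrib]
    have h2 : ∀ x, ((if π x = π (x + d) then R true x * R true (x + d) else 0) +
        if π x = π (x + d) then R false x * R false (x + d) else 0) =
        ∑ j ∈ range h, (P j x * P j (x + d) + Q j x * Q j (x + d)) := by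
      intro x
      have hx := hπ x (mem_univ x)
      rw [sum_eq_single_of_mem (π x) (mem_range.2 hx)]
      · by_cases hh : π x = π (x + d)
        · rw [if_pos hh, if_pos hh]
          simp only [R, if_true, Bool.false_eq_true, if_false]
          rw [← hh]
        · rw [if_neg hh, if_neg hh]
          have hn : x + d ∉ (univ : Finset K).filter (fun y => π y = π x) := by
            simp only [mem_filter, mem_univ, true_and]
            exact fun h' => hh h'.symm
          rw [p0 _ hx _ hn, q0 _ hx _ hn]
          ring
      · intro j hj hne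
        have hn : x ∉ (univ : Finset K).filter (fun y => π y = j) := by
          simp only [mem_filter, mem_univ, true_and]
          exact fun h' => hne h'.symm
        rw [p0 j (mem_range.1 hj) x hn, q0 j (mem_range.1 hj) x hn]
        ring
    simp only [h2]
    rw [sum_comm, sum_eq_zero (fun j hj => hc j (mem_range.1 hj) d hd), mul_zero]
  have hsq : ∀ b c (x : K), f b c x * f b c x = 1 := fun b c x => by
    rcases hfpm b c x with h | h <;> rw [h] <;> norm_num
  refine ⟨fun c x u => f (c 0) (Fin.tail c) x * f (c 0) (Fin.tail c) u, fun c x u => ?_,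
    fun d hd => ?_, fun d hd => ?_⟩
  · show f (c 0) (Fin.tail c) x * f (c 0) (Fin.tail c) u = 1 ∨
      f (c 0) (Fin.tail c) x * f (c 0) (Fin.tail c) u = -1
    rcases hfpm (c 0) (Fin.tail c) x with h | h <;> rcases hfpm (c 0) (Fin.tail c) u with h' | h' <;>
      rw [h, h'] <;> norm_num
  · rw [sum_cons]
    simp only [Fin.cons_zero, Fin.tail_cons]
    have e : ∀ b c, C1 (fun x u => f b c x * f b c u) (fun x u => f b c x * f b c u) d =
        (Fintype.card K : ℤ) * ∑ x, f b c x * f b c (x + d) := by
      intro b c
      unfold C1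
      rw [mul_sum]
      refine sum_congr rfl (fun x _ => ?_)
      have : ∀ u, f b c x * f b c u * (f b c (x + d) * f b c u) = f b c x * f b c (x + d) := by
        intro u
        linear_combination (f b c x * f b c (x + d)) * hsq b c u
      simp only [this]
      simp
    simp only [e, ← mul_sum]
    rw [key d hd, mul_zero]
  · rw [sum_cons]
    simp only [Fin.cons_zero, Fin.tail_cons]
    have e : ∀ b c, C2 (fun x u => f b c x * f b c u) (fun x u => f b c x * f b c u) d =
        (Fintype.card K : ℤ) * ∑ x, f b c x * f b c (x + d) := by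
      intro b c
      unfold C2
      have : ∀ x u, f b c x * f b c u * (f b c x * f b c (u + d)) = f b c u * f b c (u + d) := by
        intro x u
        linear_combination (f b c u * f b c (u + d)) * hsq b c x
      simp only [this]
      simp
    simp only [e, ← mul_sum]
    rw [key d hd, mul_zero]

end build

end Pool.Agent.Q148.HD
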