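import Mathlib

set_option autoImplicit false

/-! Good groups: a sign array on `G × G` whose autocorrelation at every nonzero axis shift is one. -/

namespace Pool.Agent.Q148.HD

open Finset

/-- A finite abelian group `G` is good when there is a sign array `E` on `G × G`, equal to one on both
axes, whose autocorrelation at every nonzero shift parallel to an axis equals one. -/
def Good (G : Type) [AddCommGroup G] [Fintype G] : Prop :=
  ∃ E : G → G → ℤ, (∀ x u, E x u = 1 ∨ E x u = -1) ∧ (∀ x, E x 0 = 1) ∧ (∀ u, E 0 u = 1) ∧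
    (∀ d : G, d ≠ 0 → ∑ x, ∑ u, E x u * E (x + d) u = 1) ∧
    (∀ d : G, d ≠ 0 → ∑ x, ∑ u, E x u * E x (u + d) = 1)

theorem good_punit : Good PUnit :=
  ⟨fun _ _ => 1, by simp, by simp, by simp, fun d hd => absurd (Subsingleton.elim d 0) hd,
    fun d hd => absurd (Subsingleton.elim d 0) hd⟩

theorem exists_eps (F : Type) [Field F] [Fintype F] [DecidableEq F] (hodd : Odd (Fintype.card F)) :
    ∃ ε : F → ℤ, (∀ y, ε y = 1 ∨ ε y = -1) ∧ ε 0 = 1 ∧ ∑ y, ε y = 1 := by
  obtain ⟨m, hm⟩ := hodd
  have hc : (univ.erase (0 : F)).card = 2 * m := by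
    rw [card_erase_of_mem (mem_univ _), card_univ, hm]; rfl
  obtain ⟨S, hS, hSc⟩ := exists_subset_card_eq (s := univ.erase (0 : F)) (n := m) (by omega)
  refine ⟨fun y => if y ∈ S then -1 else 1, fun y => by by_cases h : y ∈ S <;> simp [h], ?_, ?_⟩
  · have : (0 : F) ∉ S := fun h => by simpa using hS h
    simp [this]
  · rw [sum_ite]
    simp only [sum_const, nsmul_eq_mul, mul_one]
    have h1 : (univ.filter (fun y => y ∈ S)).card = m := by
      rw [← hSc]; congr 1; ext y; simp
    have h2 : (univ.filter (fun y => ¬ y ∈ S)).card = m + 1 := by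
      have := card_filter_add_card_filter_not (s := (univ : Finset F)) (fun y => y ∈ S)
      rw [card_univ, hm, h1] at this
      omega
    rw [h1, h2]; push_cast; ring

theorem corr_field (F : Type) [Field F] [Fintype F] [DecidableEq F] (ε : F → ℤ)
    (hsq : ∀ y, ε y * ε y = 1) (h0 : ε 0 = 1) (hs : ∑ y, ε y = 1) (d : F) (hd : d ≠ 0) :
    ∑ u, ∑ x, ε (x * u) * ε ((x + d) * u) = 1 := by
  have hu : ∀ u : F, u ≠ 0 → ∑ x, ε (x * u) * ε ((x + d) * u) = ∑ y, ε y * ε (y + d * u) := by
    intro u hu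
    refine Fintype.sum_equiv (Equiv.mulRight₀ u hu) _ _ (fun x => ?_)
    simp [add_mul]
  have hz : ∑ x, ε (x * 0) * ε ((x + d) * 0) = (Fintype.card F : ℤ) := by
    simp [h0]
  rw [← add_sum_erase univ _ (mem_univ (0 : F)), hz]
  have h1 : ∑ u ∈ univ.erase (0 : F), ∑ x, ε (x * u) * ε ((x + d) * u) =
      ∑ u ∈ univ.erase (0 : F), ∑ y, ε y * ε (y + d * u) :=
    sum_congr rfl (fun u h => hu u (by simpa using h))
  rw [h1]
  have h2 : ∑ u, ∑ y, ε y * ε (y + d * u) = 1 := by
    rw [sum_comm]
    have : ∀ y, ∑ u, ε y * ε (y + d * u) = ε y := by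
      intro y
      rw [← mul_sum]
      have : ∑ u, ε (y + d * u) = ∑ z, ε z :=
        Fintype.sum_equiv ((Equiv.mulLeft₀ d hd).trans (Equiv.addLeft y)) _ _ (fun u => by simp)
      rw [this, hs, mul_one]
    rw [sum_congr rfl (fun y _ => this y), hs]
  rw [← add_sum_erase univ _ (mem_univ (0 : F))] at h2
  have h3 : ∑ y, ε y * ε (y + d * 0) = (Fintype.card F : ℤ) := by
    simp [hsq]
  rw [h3] at h2
  linarith

theorem good_field (F : Type) [Field F] [Fintype F] (hodd : Odd (Fintype.card F)) : Good F := by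
  classical
  obtain ⟨ε, h1, h0, hs⟩ := exists_eps F hodd
  have hsq : ∀ y, ε y * ε y = 1 := fun y => by rcases h1 y with h | h <;> rw [h] <;> norm_num
  refine ⟨fun x u => ε (x * u), fun x u => h1 _, fun x => by simp [h0], fun u => by simp [h0],
    fun d hd => ?_, fun d hd => ?_⟩
  · rw [sum_comm]; exact corr_field F ε hsq h0 hs d hd
  · have := corr_field F ε hsq h0 hs d hd
    rw [← this]
    refine sum_congr rfl (fun x _ => sum_congr rfl (fun u _ => ?_))
    show ε (x * u) * ε (x * (u + d)) = ε (u * x) * ε ((u + d) * x)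
    rw [mul_comm x u, mul_comm x (u + d)]

/-- A good group of every odd prime power order. -/
theorem good_primePow {q : ℕ} (hq : IsPrimePow q) (hodd : Odd q) :
    ∃ (G : Type) (_ : AddCommGroup G) (_ : Fintype G), Fintype.card G = q ∧ Good G := by
  obtain ⟨p, k, hp, hk, rfl⟩ := (isPrimePow_nat_iff _).1 hq
  haveI : Fact p.Prime := ⟨hp⟩
  have hcard : Nat.card (GaloisField p k) = p ^ k := GaloisField.card p k hk.ne'
  haveI : Finite (GaloisField p k) := Nat.finite_of_card_ne_zero (by rw [hcard]; exact (pow_pos hp.pos k).ne')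
  haveI := Fintype.ofFinite (GaloisField p k)
  have hc : Fintype.card (GaloisField p k) = p ^ k := by rw [← Nat.card_eq_fintype_card, hcard]
  exact ⟨GaloisField p k, inferInstance, inferInstance, hc, good_field _ (by rw [hc]; exact hodd)⟩

end Pool.Agent.Q148.HD
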