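import Pool.Agent.Q148.HD.Dyadic

set_option autoImplicit false

/-! Complementary families on `(ZMod 2) ^ v × L` from partitions of `L` into Golay supports. -/

namespace Pool.Agent.Q148.HD

open Finset

/-- The characters of an elementary abelian group. -/
def chi {v : ℕ} (μ z : Fin v → ZMod 2) : ℤ := ∏ i, (if μ i * z i = 0 then 1 else -1)

theorem chi_pm {v : ℕ} (μ z : Fin v → ZMod 2) : chi μ z = 1 ∨ chi μ z = -1 := by
  unfold chi
  refine Finset.prod_induction _ (fun z => z = 1 ∨ z = -1) ?_ (Or.inl rfl) ?_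
  · rintro a b (rfl | rfl) (rfl | rfl) <;> simp
  · intro i _; split_ifs <;> simp

theorem chi_sq {v : ℕ} (μ z : Fin v → ZMod 2) : chi μ z * chi μ z = 1 := by
  rcases chi_pm μ z with h | h <;> rw [h] <;> norm_num

theorem chi_add {v : ℕ} (μ z e : Fin v → ZMod 2) : chi μ (z + e) = chi μ z * chi μ e := by
  unfold chi
  rw [← prod_mul_distrib]
  refine prod_congr rfl (fun i _ => ?_)
  have : ∀ a b c : ZMod 2, (if a * (b + c) = 0 then (1 : ℤ) else -1) =
      (if a * b = 0 then 1 else -1) * (if a * c = 0 then 1 else -1) := by decide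
  exact this _ _ _

theorem chi_orth {v : ℕ} (μ ν : Fin v → ZMod 2) :
    ∑ z, chi μ z * chi ν z = if μ = ν then (2 : ℤ) ^ v else 0 := by
  have e : ∀ z : Fin v → ZMod 2, chi μ z * chi ν z =
      ∏ i, (if μ i * z i = 0 then (1 : ℤ) else -1) * (if ν i * z i = 0 then 1 else -1) := fun z =>
    prod_mul_distrib.symm
  simp only [e]
  rw [← Fintype.prod_sum (fun i b => (if μ i * b = 0 then (1 : ℤ) else -1) *
    (if ν i * b = 0 then 1 else -1))]
  have e1 : ∀ a b : ZMod 2, ∑ c, (if a * c = 0 then (1 : ℤ) else -1) *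
      (if b * c = 0 then 1 else -1) = if a = b then 2 else 0 := by decide
  simp only [e1]
  by_cases h : μ = ν
  · subst h; simp
  · rw [if_neg h]
    obtain ⟨i, hi⟩ := Function.ne_iff.1 h
    exact prod_eq_zero (mem_univ i) (by simp [hi])

section lift

variable {v : ℕ} {L : Type} [AddCommGroup L] [Fintype L] [DecidableEq L]

/-- The part of `(ZMod 2) ^ v × S` with vanishing coordinates from `i` on. -/
def lft (v : ℕ) (S : Finset L) (i : ℕ) : Finset ((Fin v → ZMod 2) × L) :=
  univ.filter (fun X => X.2 ∈ S ∧ ∀ j : Fin v, i ≤ j.val → X.1 j = 0)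

theorem mem_lft (S : Finset L) (i : ℕ) (X : (Fin v → ZMod 2) × L) :
    X ∈ lft v S i ↔ X.2 ∈ S ∧ ∀ j : Fin v, i ≤ j.val → X.1 j = 0 := by
  simp [lft]

theorem gol_lft_zero {S : Finset L} (h : Gol S) : Gol (lft v S 0) := by
  obtain ⟨P, Q, p1, p0, q1, q0, hc⟩ := h
  have hm : ∀ X : (Fin v → ZMod 2) × L, X ∈ lft v S 0 ↔ X.2 ∈ S ∧ X.1 = 0 := by
    intro X
    rw [mem_lft]
    refine and_congr_right (fun _ => ?_)
    constructor
    · intro h; funext j; exact h j (Nat.zero_le _)
    · intro h j _; rw [h]; rfl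
  refine ⟨fun X => if X.1 = 0 then P X.2 else 0, fun X => if X.1 = 0 then Q X.2 else 0,
    ?_, ?_, ?_, ?_, ?_⟩
  · intro X hX
    obtain ⟨h1, h2⟩ := (hm X).1 hX
    simp only [h2, if_true]; exact p1 _ h1
  · intro X hX
    by_cases h2 : X.1 = 0
    · simp only [h2, if_true]
      exact p0 _ (fun h1 => hX ((hm X).2 ⟨h1, h2⟩))
    · simp only [h2, if_false]
  · intro X hX
    obtain ⟨h1, h2⟩ := (hm X).1 hX
    simp only [h2, if_true]; exact q1 _ h1
  · intro X hX
    by_cases h2 : X.1 = 0
    · simp only [h2, if_true]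
      exact q0 _ (fun h1 => hX ((hm X).2 ⟨h1, h2⟩))
    · simp only [h2, if_false]
  · intro D hD
    by_cases he : D.1 = 0
    · have hd : D.2 ≠ 0 := fun h => hD (Prod.ext he h)
      have e : ∀ X : (Fin v → ZMod 2) × L,
          ((if X.1 = 0 then P X.2 else 0) * (if (X + D).1 = 0 then P (X + D).2 else 0) +
          (if X.1 = 0 then Q X.2 else 0) * (if (X + D).1 = 0 then Q (X + D).2 else 0)) =
          if X.1 = 0 then (P X.2 * P (X.2 + D.2) + Q X.2 * Q (X.2 + D.2)) else 0 := by
        intro X
        rw [Prod.fst_add, he, add_zero, Prod.snd_add]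
        by_cases h : X.1 = 0 <;> simp [h]
      simp only [e]
      rw [Fintype.sum_prod_type]
      refine sum_eq_zero (fun z _ => ?_)
      by_cases h : z = 0
      · simp only [h, if_true]; exact hc _ hd
      · simp [h]
    · refine sum_eq_zero (fun X _ => ?_)
      by_cases h : X.1 = 0
      · have : ¬ (X + D).1 = 0 := by rw [Prod.fst_add, h, zero_add]; exact he
        show (if X.1 = 0 then P X.2 else 0) * (if (X + D).1 = 0 then P (X + D).2 else 0) +
          (if X.1 = 0 then Q X.2 else 0) * (if (X + D).1 = 0 then Q (X + D).2 else 0) = 0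
        rw [if_neg this, if_neg this, mul_zero, mul_zero, add_zero]
      · simp [h]

theorem gol_lft {S : Finset L} (h : Gol S) : ∀ i, i ≤ v → Gol (lft v S i) := by
  intro i
  induction i with
  | zero => intro _; exact gol_lft_zero h
  | succ i ih =>
    intro hi
    have h1 := ih (by omega)
    let k : Fin v := ⟨i, by omega⟩
    let s : (Fin v → ZMod 2) × L := (Pi.single k 1, 0)
    have hss : s + s = 0 := by
      refine Prod.ext ?_ ?_
      · show (Pi.single k 1 : Fin v → ZMod 2) + Pi.single k 1 = 0
        rw [← Pi.single_add]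
        have : (1 : ZMod 2) + 1 = 0 := by decide
        rw [this, Pi.single_zero]
      · simp [s]
    have himg : ∀ X, X ∈ (lft v S i).image (fun x => x + s) ↔ X + s ∈ lft v S i := by
      intro X
      rw [mem_image]
      constructor
      · rintro ⟨Y, hY, rfl⟩; rw [add_assoc, hss, add_zero]; exact hY
      · intro hX; exact ⟨X + s, hX, by rw [add_assoc, hss, add_zero]⟩
    have hk : ∀ X : (Fin v → ZMod 2) × L, X ∈ lft v S i → X.1 k = 0 := fun X hX =>
      ((mem_lft S i X).1 hX).2 k le_rfl
    have hsk : ∀ X : (Fin v → ZMod 2) × L, (X + s).1 k = X.1 k + 1 := fun X => by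
      simp [s]
    have hsj : ∀ (X : (Fin v → ZMod 2) × L) (j : Fin v), j ≠ k → (X + s).1 j = X.1 j :=
      fun X j hj => by simp [s, Pi.single_eq_of_ne hj]
    have hs2 : ∀ X : (Fin v → ZMod 2) × L, (X + s).2 = X.2 := fun X => by simp [s]
    have hd : Disjoint (lft v S i) ((lft v S i).image (fun x => x + s)) := by
      rw [disjoint_left]
      intro X hX hX'
      have h2 := hk _ ((himg X).1 hX')
      rw [hsk, hk X hX] at h2
      exact absurd h2 (by decide)
    have h2 := gol_double h1 s hd
    have : lft v S i ∪ (lft v S i).image (fun x => x + s) = lft v S (i + 1) := by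
      ext X
      rw [mem_union, himg, mem_lft, mem_lft, mem_lft, hs2]
      constructor
      · rintro (⟨h1, h2⟩ | ⟨h1, h2⟩)
        · exact ⟨h1, fun j hj => h2 j (by omega)⟩
        · refine ⟨h1, fun j hj => ?_⟩
          have hjk : j ≠ k := fun hh => by rw [hh] at hj; simp [k] at hj
          have := h2 j (by omega)
          rwa [hsj X j hjk] at this
      · rintro ⟨h1, h2⟩
        have h01 : ∀ a : ZMod 2, a = 0 ∨ a + 1 = 0 := by decide
        rcases h01 (X.1 k) with h | h
        · refine Or.inl ⟨h1, fun j hj => ?_⟩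
          by_cases hjk : j = k
          · rw [hjk]; exact h
          · refine h2 j ?_
            have : j.val ≠ i := fun hh => hjk (Fin.ext hh)
            omega
        · refine Or.inr ⟨h1, fun j hj => ?_⟩
          by_cases hjk : j = k
          · rw [hjk, hsk]; exact h
          · rw [hsj X j hjk]
            refine h2 j ?_
            have : j.val ≠ i := fun hh => hjk (Fin.ext hh)
            omega
    rw [this] at h2
    exact h2

theorem gol_lift {S : Finset L} (h : Gol S) :
    Gol ((univ : Finset ((Fin v → ZMod 2) × L)).filter (fun X => X.2 ∈ S)) := by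
  have h1 := gol_lft (v := v) h v le_rfl
  have : lft v S v = (univ : Finset ((Fin v → ZMod 2) × L)).filter (fun X => X.2 ∈ S) := by
    ext X
    rw [mem_lft]
    simp only [mem_filter, mem_univ, true_and]
    constructor
    · exact fun h => h.1
    · intro h
      refine ⟨h, fun j hj => ?_⟩
      have := j.isLt
      omega
  rw [this] at h1
  exact h1

/-- A partition of `L` into at most `2 ^ (v + r)` Golay supports gives a complementary family of
`2 ^ (r + 1)` arrays on `(ZMod 2) ^ v × L`. -/
theorem fam_of_parts_chi {r h : ℕ} (hr : h ≤ 2 ^ v * 2 ^ r) (hp : Parts (univ : Finset L) h) :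
    Fam (r + 1) ((Fin v → ZMod 2) × L) := by
  classical
  obtain ⟨π, hπ, hg⟩ := hp
  have hg' : ∀ j, j < h → Gol ((univ : Finset ((Fin v → ZMod 2) × L)).filter
      (fun X => X.2 ∈ (univ : Finset L).filter (fun x => π x = j))) := fun j hj => gol_lift (hg j hj)
  choose! P Q p1 p0 q1 q0 hc using hg'
  have hcard : Fintype.card ((Fin v → ZMod 2) × (Fin r → Bool)) = 2 ^ v * 2 ^ r := by
    simp [ZMod.card]
  let ι : Fin (2 ^ v * 2 ^ r) ≃ (Fin v → ZMod 2) × (Fin r → Bool) :=
    (Fintype.equivFinOfCardEq hcard).symm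
  have hlt : ∀ x, π x < 2 ^ v * 2 ^ r := fun x => lt_of_lt_of_le (hπ x (mem_univ x)) hr
  let lab : L → (Fin v → ZMod 2) × (Fin r → Bool) := fun x => ι ⟨π x, hlt x⟩
  have hlab : ∀ x y, lab x = lab y ↔ π x = π y := by
    intro x y
    constructor
    · intro h
      have := ι.injective h
      simpa using this
    · intro h
      show ι _ = ι _
      congr 1
      exact Fin.ext h
  let R : Bool → (Fin v → ZMod 2) × L → ℤ := fun b X => if b then P (π X.2) X else Q (π X.2) X
  have hRpm : ∀ b X, R b X = 1 ∨ R b X = -1 := by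
    intro b X
    have hX : X ∈ (univ : Finset ((Fin v → ZMod 2) × L)).filter
        (fun Y => Y.2 ∈ (univ : Finset L).filter (fun x => π x = π X.2)) := by simp
    cases b
    · exact q1 _ (hπ X.2 (mem_univ _)) X hX
    · exact p1 _ (hπ X.2 (mem_univ _)) X hX
  let f : Bool → (Fin r → Bool) → (Fin v → ZMod 2) × L → ℤ :=
    fun b c X => walsh (lab X.2).2 c * R b X
  have hfpm : ∀ b c X, f b c X = 1 ∨ f b c X = -1 := by
    intro b c X
    show walsh (lab X.2).2 c * R b X = 1 ∨ walsh (lab X.2).2 c * R b X = -1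
    rcases walsh_pm (lab X.2).2 c with h | h <;> rcases hRpm b X with h' | h' <;> rw [h, h'] <;>
      norm_num
  have hsq : ∀ b c X, f b c X * f b c X = 1 := fun b c X => by
    rcases hfpm b c X with h | h <;> rw [h] <;> norm_num
  let g : (Fin v → ZMod 2) × L → (Fin v → ZMod 2) × L → ℤ :=
    fun X U => chi (lab X.2).1 U.1 * chi (lab U.2).1 X.1
  have hgpm : ∀ X U, g X U = 1 ∨ g X U = -1 := by
    intro X U
    show chi (lab X.2).1 U.1 * chi (lab U.2).1 X.1 = 1 ∨ chi (lab X.2).1 U.1 * chi (lab U.2).1 X.1 = -1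
    rcases chi_pm (lab X.2).1 U.1 with h | h <;> rcases chi_pm (lab U.2).1 X.1 with h' | h' <;>
      rw [h, h'] <;> norm_num
  have hG : ∀ (D X : (Fin v → ZMod 2) × L), ∑ U, g X U * g (X + D) U =
      (if (lab X.2).1 = (lab (X + D).2).1 then (2 : ℤ) ^ v else 0) *
        ∑ u : L, chi (lab u).1 D.1 := by
    intro D X
    have e : ∀ U : (Fin v → ZMod 2) × L, g X U * g (X + D) U =
        (chi (lab X.2).1 U.1 * chi (lab (X + D).2).1 U.1) * chi (lab U.2).1 D.1 := by
      intro U
      show chi (lab X.2).1 U.1 * chi (lab U.2).1 X.1 *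
        (chi (lab (X + D).2).1 U.1 * chi (lab U.2).1 (X + D).1) = _
      rw [Prod.fst_add, chi_add]
      linear_combination (chi (lab X.2).1 U.1 * chi (lab (X + D).2).1 U.1 * chi (lab U.2).1 D.1) *
        chi_sq (lab U.2).1 X.1
    simp only [e]
    rw [Fintype.sum_prod_type]
    simp only [← mul_sum]
    rw [← sum_mul, chi_orth]
  have key : ∀ D : (Fin v → ZMod 2) × L, D ≠ 0 → ∑ b, ∑ c,
      C1 (fun X U => f b c X * f b c U * g X U) (fun X U => f b c X * f b c U * g X U) D = 0 := by
    intro D hD
    have h1 : ∀ b, ∑ c, C1 (fun X U => f b c X * f b c U * g X U)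
        (fun X U => f b c X * f b c U * g X U) D =
        ((2 : ℤ) ^ v * 2 ^ r * ∑ u : L, chi (lab u).1 D.1) *
          ∑ X, (if π X.2 = π (X + D).2 then R b X * R b (X + D) else 0) := by
      intro b
      have h2 : ∀ c, C1 (fun X U => f b c X * f b c U * g X U)
          (fun X U => f b c X * f b c U * g X U) D =
          ∑ X, (walsh (lab X.2).2 c * walsh (lab (X + D).2).2 c) * ((R b X * R b (X + D)) *
            ((if (lab X.2).1 = (lab (X + D).2).1 then (2 : ℤ) ^ v else 0) *
              ∑ u : L, chi (lab u).1 D.1)) := by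
        intro c
        unfold C1
        refine sum_congr rfl (fun X _ => ?_)
        rw [← hG D X, mul_sum, mul_sum]
        refine sum_congr rfl (fun U _ => ?_)
        show f b c X * f b c U * g X U * (f b c (X + D) * f b c U * g (X + D) U) =
          walsh (lab X.2).2 c * walsh (lab (X + D).2).2 c * (R b X * R b (X + D) *
            (g X U * g (X + D) U))
        have e1 : f b c X = walsh (lab X.2).2 c * R b X := rfl
        have e2 : f b c (X + D) = walsh (lab (X + D).2).2 c * R b (X + D) := rfl
        have e3 := hsq b c U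
        rw [e1, e2]
        linear_combination (walsh (lab X.2).2 c * R b X * g X U * (walsh (lab (X + D).2).2 c *
          R b (X + D)) * g (X + D) U) * e3
      simp only [h2]
      rw [sum_comm, mul_sum]
      refine sum_congr rfl (fun X _ => ?_)
      rw [← sum_mul, walsh_orth]
      by_cases h : π X.2 = π (X + D).2
      · have hl := (hlab _ _).2 h
        rw [if_pos h, if_pos (by rw [hl]), if_pos (by rw [hl])]
        ring
      · rw [if_neg h]
        by_cases h3 : (lab X.2).2 = (lab (X + D).2).2
        · have h4 : ¬ (lab X.2).1 = (lab (X + D).2).1 := fun h4 =>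
            h ((hlab _ _).1 (Prod.ext h4 h3))
          rw [if_neg h4]; ring
        · rw [if_neg h3]; ring
    simp only [h1]
    rw [← mul_sum, Fintype.sum_bool, ← sum_add_distrib]
    have h2 : ∀ X, ((if π X.2 = π (X + D).2 then R true X * R true (X + D) else 0) +
        if π X.2 = π (X + D).2 then R false X * R false (X + D) else 0) =
        ∑ j ∈ range h, (P j X * P j (X + D) + Q j X * Q j (X + D)) := by
      intro X
      have hx := hπ X.2 (mem_univ _)
      rw [sum_eq_single_of_mem (π X.2) (mem_range.2 hx)]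
      · by_cases hh : π X.2 = π (X + D).2
        · rw [if_pos hh, if_pos hh]
          simp only [R, if_true, Bool.false_eq_true, if_false]
          rw [← hh]
        · rw [if_neg hh, if_neg hh]
          have hn : X + D ∉ (univ : Finset ((Fin v → ZMod 2) × L)).filter
              (fun Y => Y.2 ∈ (univ : Finset L).filter (fun x => π x = π X.2)) := by
            simp only [mem_filter, mem_univ, true_and]
            exact fun h' => hh h'.symm
          rw [p0 _ hx _ hn, q0 _ hx _ hn]
          ring
      · intro j hj hne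
        have hn : X ∉ (univ : Finset ((Fin v → ZMod 2) × L)).filter
            (fun Y => Y.2 ∈ (univ : Finset L).filter (fun x => π x = j)) := by
          simp only [mem_filter, mem_univ, true_and]
          exact fun h' => hne h'.symm
        rw [p0 j (mem_range.1 hj) X hn, q0 j (mem_range.1 hj) X hn]
        ring
    simp only [h2]
    rw [sum_comm, sum_eq_zero (fun j hj => hc j (mem_range.1 hj) D hD), mul_zero]
  have hsym : ∀ b c X U, f b c X * f b c U * g X U = f b c U * f b c X * g U X := by
    intro b c X U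
    show f b c X * f b c U * (chi (lab X.2).1 U.1 * chi (lab U.2).1 X.1) =
      f b c U * f b c X * (chi (lab U.2).1 X.1 * chi (lab X.2).1 U.1)
    ring
  have hC : ∀ b c D, C2 (fun X U => f b c X * f b c U * g X U)
      (fun X U => f b c X * f b c U * g X U) D =
      C1 (fun X U => f b c X * f b c U * g X U) (fun X U => f b c X * f b c U * g X U) D := by
    intro b c D
    unfold C1 C2
    rw [sum_comm]
    refine sum_congr rfl (fun U _ => sum_congr rfl (fun X _ => ?_))
    show f b c X * f b c U * g X U * (f b c X * f b c (U + D) * g X (U + D)) =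
      f b c U * f b c X * g U X * (f b c (U + D) * f b c X * g (U + D) X)
    rw [hsym b c X U, hsym b c X (U + D)]
  refine ⟨fun c X U => f (c 0) (Fin.tail c) X * f (c 0) (Fin.tail c) U * g X U, fun c X U => ?_,
    fun D hD => ?_, fun D hD => ?_⟩
  · show f (c 0) (Fin.tail c) X * f (c 0) (Fin.tail c) U * g X U = 1 ∨
      f (c 0) (Fin.tail c) X * f (c 0) (Fin.tail c) U * g X U = -1
    rcases hfpm (c 0) (Fin.tail c) X with h | h <;> rcases hfpm (c 0) (Fin.tail c) U with h' | h' <;>
      rcases hgpm X U with h'' | h'' <;> rw [h, h', h''] <;> norm_num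
  · rw [sum_cons]
    simp only [Fin.cons_zero, Fin.tail_cons]
    exact key D hD
  · rw [sum_cons]
    simp only [Fin.cons_zero, Fin.tail_cons, hC]
    exact key D hD

end lift

/-- If `t` is a sum of at most `2 ^ (v + r)` powers of two, there is a complementary family of
`2 ^ (r + 1)` arrays on a group of order `2 ^ v t`. -/
theorem fn_label {v r t : ℕ} (ht : 1 ≤ t) (l : List ℕ) (hl : l.length ≤ 2 ^ v * 2 ^ r)
    (hs : (l.map (fun a => 2 ^ a)).sum = t) : FN (r + 1) (2 ^ v * t) := by
  haveI : NeZero t := ⟨by omega⟩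
  have h := parts_itv (m := t) l (by omega)
  rw [hs] at h
  have hu : itv t 0 t = univ := by
    ext x
    rw [mem_itv]
    simp [ZMod.val_lt x]
  rw [hu] at h
  exact ⟨(Fin v → ZMod 2) × ZMod t, inferInstance, inferInstance, by simp [ZMod.card],
    fam_of_parts_chi hl h⟩

theorem main_label (n : ℕ) (hn : 4 ≤ n) (v t : ℕ) (ht : 1 ≤ t) (l : List ℕ)
    (hl : l.length ≤ 2 ^ v * 4 ^ (n / 2 - 1)) (hs : (l.map (fun a => 2 ^ a)).sum = t) :
    HasH n (2 ^ (v + 1) * t) := by
  classical
  obtain ⟨j, hj⟩ : ∃ j, n / 2 = j + 2 := ⟨n / 2 - 2, by omega⟩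
  have hj' : n / 2 - 1 = j + 1 := by omega
  have hl' : l.length ≤ 2 ^ v * 2 ^ (2 * j + 2) := by
    rw [hj'] at hl
    refine hl.trans (le_of_eq ?_)
    rw [show (4 : ℕ) = 2 ^ 2 by norm_num, ← pow_mul]
    congr 1
  obtain ⟨K, _, _, hK, h⟩ := fn_label ht l hl' hs
  obtain ⟨A, hA⟩ := exists_hn (m := 2 * j + 2 + 1) ⟨j + 1, by ring⟩ (by omega) h
  have h1 : On (2 * j + 4) (2 ^ (v + 1) * t) :=
    ⟨Bool × K, inferInstance, inferInstance, A, by simp [hK]; ring, hA⟩
  have h2 := hasH_of_on h1
  have hpos : 1 ≤ 2 ^ (v + 1) * t := Nat.mul_pos (by positivity) ht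
  have hn' : n = 2 * j + 4 ∨ n = 2 * j + 5 := by omega
  rcases hn' with rfl | rfl
  · exact h2
  · exact HasH_succ hpos h2

end Pool.Agent.Q148.HD
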