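import Mathlib

set_option autoImplicit false

/-! Ordinary Hadamard matrices of the orders `2 ^ i (3 ^ a + 1)`, `a` odd, and decompositions. -/

namespace Pool.Agent.Q148.HD

open Finset

/-- A Hadamard matrix of order `h` exists, on some index set. -/
def HT (h : ℕ) : Prop :=
  ∃ (X : Type) (_ : Fintype X) (_ : DecidableEq X) (H : X → X → ℤ), Fintype.card X = h ∧
    (∀ x y, H x y = 1 ∨ H x y = -1) ∧ ∀ x x', x ≠ x' → ∑ y, H x y * H x' y = 0

/-- A Hadamard matrix of order `h` exists, indexed by natural numbers. -/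
def HO (h : ℕ) : Prop :=
  ∃ H : ℕ → ℕ → ℤ, (∀ i j, H i j = 1 ∨ H i j = -1) ∧
    ∀ i < h, ∀ j < h, i ≠ j → ∑ y : Fin h, H i y * H j y = 0

theorem ho_of_ht {h : ℕ} (hh : HT h) : HO h := by
  obtain ⟨X, _, _, H, hX, hpm, ho⟩ := hh
  let e : Fin h ≃ X := (Fintype.equivFinOfCardEq hX).symm
  refine ⟨fun i j => if hi : i < h then (if hj : j < h then H (e ⟨i, hi⟩) (e ⟨j, hj⟩) else 1) else 1,
    fun i j => ?_, fun i hi j hj hij => ?_⟩
  · by_cases hi : i < h
    · by_cases hj : j < h
      · simp only [hi, hj, dif_pos]; exact hpm _ _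
      · simp [hi, hj]
    · simp [hi]
  · have hne : e ⟨i, hi⟩ ≠ e ⟨j, hj⟩ := fun hh => hij (by simpa using e.injective hh)
    rw [← ho _ _ hne, ← Equiv.sum_comp e]
    refine sum_congr rfl (fun y _ => ?_)
    simp [hi, hj]

theorem ht_one : HT 1 :=
  ⟨PUnit, inferInstance, inferInstance, fun _ _ => 1, rfl, fun _ _ => Or.inl rfl,
    fun _ _ h => absurd (Subsingleton.elim _ _) h⟩

theorem ht_double {h : ℕ} (hh : HT h) : HT (2 * h) := by
  obtain ⟨X, _, _, H, hX, hpm, ho⟩ := hh
  refine ⟨Bool × X, inferInstance, inferInstance,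
    fun x y => (if x.1 && y.1 then -1 else 1) * H x.2 y.2, by simp [hX], fun x y => ?_,
    fun x x' hne => ?_⟩
  · show (if x.1 && y.1 then -1 else 1) * H x.2 y.2 = 1 ∨
      (if x.1 && y.1 then -1 else 1) * H x.2 y.2 = -1
    rcases hpm x.2 y.2 with h | h <;> split_ifs <;> rw [h] <;> norm_num
  · have e : ∀ y : Bool × X, ((if x.1 && y.1 then (-1 : ℤ) else 1) * H x.2 y.2) *
        ((if x'.1 && y.1 then -1 else 1) * H x'.2 y.2) =
        ((if x.1 && y.1 then (-1 : ℤ) else 1) * (if x'.1 && y.1 then -1 else 1)) *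
          (H x.2 y.2 * H x'.2 y.2) := fun y => by ring
    simp only [e]
    have hprod : ∑ y : Bool × X, ((if x.1 && y.1 then (-1 : ℤ) else 1) *
        (if x'.1 && y.1 then -1 else 1)) * (H x.2 y.2 * H x'.2 y.2) =
        (∑ b : Bool, (if x.1 && b then (-1 : ℤ) else 1) * (if x'.1 && b then -1 else 1)) *
          ∑ y, H x.2 y * H x'.2 y := by
      rw [sum_mul_sum, Fintype.sum_prod_type]
    rw [hprod]
    by_cases h2 : x.2 = x'.2
    · have h1 : x.1 ≠ x'.1 := fun h1 => hne (Prod.ext h1 h2)
      have : ∑ b : Bool, (if x.1 && b then (-1 : ℤ) else 1) * (if x'.1 && b then -1 else 1) = 0 := by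
        revert h1
        cases x.1 <;> cases x'.1 <;> simp
      rw [this, zero_mul]
    · rw [ho _ _ h2, mul_zero]

theorem ht_pow_mul (i : ℕ) {h : ℕ} (hh : HT h) : HT (2 ^ i * h) := by
  induction i with
  | zero => simpa using hh
  | succ i ih =>
    have := ht_double ih
    rwa [← mul_assoc, ← pow_succ'] at this

section paley

variable {F : Type} [Field F] [Fintype F] [DecidableEq F]

theorem chi_neg3 (h4 : Fintype.card F % 4 = 3) (x : F) :
    quadraticChar F (-x) = -quadraticChar F x := by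
  have h1 : quadraticChar F (-1) = -1 := by
    rw [quadraticChar_neg_one_iff_not_isSquare, FiniteField.isSquare_neg_one_iff]
    simp [h4]
  rw [← neg_one_mul, map_mul, h1, neg_one_mul]

theorem char_ne_two3 (h4 : Fintype.card F % 4 = 3) : ringChar F ≠ 2 := by
  intro h
  have h1 := FiniteField.even_card_of_char_two h
  omega

theorem sum_chi_ne (h4 : Fintype.card F % 4 = 3) (d : F) (hd : d ≠ 0) :
    ∑ w, quadraticChar F w * quadraticChar F (w + d) = -1 := by
  have hF := char_ne_two3 h4
  have h1 : ∑ w, quadraticChar F w * quadraticChar F (w + d) =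
      ∑ w ∈ univ.erase (0 : F), quadraticChar F (1 + d * w⁻¹) := by
    rw [← add_sum_erase univ _ (mem_univ (0 : F))]
    simp only [MulChar.map_zero, quadraticChar_zero, zero_mul, zero_add]
    refine sum_congr rfl (fun w hw => ?_)
    have hw0 : w ≠ 0 := by simpa using hw
    have : w + d = w * (1 + d * w⁻¹) := by field_simp
    rw [this, map_mul, ← mul_assoc, ← sq, quadraticChar_sq_one hw0, one_mul]
  rw [h1]
  have h2 : ∑ w ∈ univ.erase (0 : F), quadraticChar F (1 + d * w⁻¹) =
      ∑ z ∈ univ.erase (1 : F), quadraticChar F z := by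
    refine sum_bij' (fun w _ => 1 + d * w⁻¹) (fun z _ => d * (z - 1)⁻¹) ?_ ?_ ?_ ?_ ?_
    · intro w hw
      have hw0 : w ≠ 0 := by simpa using hw
      simp only [mem_erase, mem_univ, and_true]
      intro h
      have : d * w⁻¹ = 0 := by linear_combination h
      rcases mul_eq_zero.1 this with h | h
      · exact hd h
      · exact hw0 (inv_eq_zero.1 h)
    · intro z hz
      have hz1 : z - 1 ≠ 0 := sub_ne_zero.2 (by simpa using hz)
      simp only [mem_erase, mem_univ, and_true]
      exact mul_ne_zero hd (inv_ne_zero hz1)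
    · intro w hw
      have h9 : 1 + d * w⁻¹ - 1 = d * w⁻¹ := by ring
      show d * (1 + d * w⁻¹ - 1)⁻¹ = w
      rw [h9, mul_inv, inv_inv, ← mul_assoc, mul_inv_cancel₀ hd, one_mul]
    · intro z hz
      show 1 + d * (d * (z - 1)⁻¹)⁻¹ = z
      rw [mul_inv, inv_inv, ← mul_assoc, mul_inv_cancel₀ hd, one_mul]
      ring
    · intro w hw; rfl
  rw [h2]
  have h3 := quadraticChar_sum_zero hF
  rw [← add_sum_erase univ _ (mem_univ (1 : F)), map_one] at h3
  linarith

theorem ht_paley (h4 : Fintype.card F % 4 = 3) : HT (Fintype.card F + 1) := by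
  have hF := char_ne_two3 h4
  let H : Option F → Option F → ℤ := fun x y =>
    match x, y with
    | none, _ => 1
    | some _, none => -1
    | some a, some b => if a = b then 1 else quadraticChar F (a - b)
  have hH : ∀ a b : F, H (some a) (some b) = quadraticChar F (a - b) + if a = b then 1 else 0 := by
    intro a b
    show (if a = b then 1 else quadraticChar F (a - b)) = _
    by_cases h : a = b
    · simp [h]
    · simp [h]
  have hrow : ∀ a : F, ∑ b, H (some a) (some b) = 1 := by
    intro a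
    simp only [hH, sum_add_distrib]
    have : ∑ b, quadraticChar F (a - b) = 0 := by
      rw [← quadraticChar_sum_zero hF]
      exact Fintype.sum_equiv (Equiv.subLeft a) _ _ (fun b => rfl)
    rw [this]; simp
  refine ⟨Option F, inferInstance, inferInstance, H, by simp, ?_, ?_⟩
  · intro x y
    rcases x with _ | a
    · exact Or.inl rfl
    · rcases y with _ | b
      · exact Or.inr rfl
      · show (if a = b then (1 : ℤ) else quadraticChar F (a - b)) = 1 ∨
          (if a = b then (1 : ℤ) else quadraticChar F (a - b)) = -1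
        by_cases h : a = b
        · simp [h]
        · rw [if_neg h]; exact quadraticChar_dichotomy (sub_ne_zero.2 h)
  · have hns : ∀ a : F, ∑ y, H none y * H (some a) y = 0 := by
      intro a
      rw [Fintype.sum_option]
      show (1 : ℤ) * (-1) + ∑ b, 1 * H (some a) (some b) = 0
      simp only [one_mul, hrow]; norm_num
    intro x x' hne
    rcases x with _ | a <;> rcases x' with _ | b
    · exact absurd rfl hne
    · exact hns b
    · rw [← hns a]
      exact sum_congr rfl (fun y _ => mul_comm _ _)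
    · have hab : a ≠ b := fun h => hne (by rw [h])
      rw [Fintype.sum_option]
      show (-1 : ℤ) * (-1) + ∑ c, H (some a) (some c) * H (some b) (some c) = 0
      have e : ∀ c, H (some a) (some c) * H (some b) (some c) =
          quadraticChar F (a - c) * quadraticChar F (b - c) +
          (if a = c then quadraticChar F (b - c) else 0) +
          (if b = c then quadraticChar F (a - c) else 0) := by
        intro c
        rw [hH, hH]
        by_cases h1 : a = c
        · subst h1
          have : ¬ b = a := fun h => hab h.symm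
          simp [this]
        · by_cases h2 : b = c
          · subst h2; simp [hab]
          · simp [h1, h2]
      simp only [e, sum_add_distrib, sum_ite_eq, mem_univ, if_true]
      have h5 : ∑ c, quadraticChar F (a - c) * quadraticChar F (b - c) = -1 := by
        rw [← sum_chi_ne h4 (b - a) (sub_ne_zero.2 (fun h => hab h.symm))]
        refine Fintype.sum_equiv (Equiv.subLeft a) _ _ (fun c => ?_)
        simp only [Equiv.subLeft_apply]
        congr 2
        ring
      have h6 : quadraticChar F (b - a) = - quadraticChar F (a - b) := by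
        rw [← chi_neg3 h4]; congr 1; ring
      rw [h5, h6]; ring

end paley

theorem ht_three (c : ℕ) : HT (3 ^ (2 * c + 1) + 1) := by
  haveI : Fact (Nat.Prime 3) := ⟨Nat.prime_three⟩
  have hcard : Nat.card (GaloisField 3 (2 * c + 1)) = 3 ^ (2 * c + 1) :=
    GaloisField.card 3 (2 * c + 1) (by omega)
  haveI : Finite (GaloisField 3 (2 * c + 1)) :=
    Nat.finite_of_card_ne_zero (by rw [hcard]; positivity)
  haveI := Fintype.ofFinite (GaloisField 3 (2 * c + 1))
  classical
  have hc : Fintype.card (GaloisField 3 (2 * c + 1)) = 3 ^ (2 * c + 1) := by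
    rw [← Nat.card_eq_fintype_card, hcard]
  have h4 : Fintype.card (GaloisField 3 (2 * c + 1)) % 4 = 3 := by
    rw [hc, pow_succ, pow_mul, Nat.mul_mod, Nat.pow_mod]
    norm_num
  have := ht_paley h4
  rwa [hc] at this

/-- `N` is a sum of orders of Hadamard matrices lying between `R` and `B`. -/
def Dec (R B N : ℕ) : Prop :=
  ∃ (k : ℕ) (n : Fin k → ℕ), (∀ i, HO (n i) ∧ R ≤ n i ∧ n i ≤ B) ∧ ∑ i, n i = N

theorem dec_zero (R B : ℕ) : Dec R B 0 := ⟨0, Fin.elim0, fun i => i.elim0, by simp⟩

theorem dec_add {R B N h : ℕ} (h1 : HO h) (h2 : R ≤ h) (h3 : h ≤ B) (hN : Dec R B N) :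
    Dec R B (h + N) := by
  obtain ⟨k, n, hn, hs⟩ := hN
  refine ⟨k + 1, Fin.cons h n, ?_, ?_⟩
  · intro i
    refine Fin.cases ?_ (fun j => ?_) i
    · exact ⟨h1, h2, h3⟩
    · simpa using hn j
  · rw [Fin.sum_univ_succ]
    simp [hs]

theorem exists_order {j R : ℕ} (hj : 2 ≤ j) (hR : 2 ^ j ≤ 9 * R) :
    ∃ h u, HO h ∧ R ≤ h ∧ h ≤ 9 * R ∧ h = 2 ^ j * u ∧ Odd u := by
  classical
  obtain ⟨i, rfl⟩ : ∃ i, j = i + 2 := ⟨j - 2, by omega⟩
  have hex : ∃ c : ℕ, R ≤ 2 ^ i * (3 ^ (2 * c + 1) + 1) := by
    refine ⟨R, ?_⟩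
    have h1 : R < 3 ^ R := Nat.lt_pow_self (by norm_num)
    have h2 : 3 ^ R ≤ 3 ^ (2 * R + 1) := Nat.pow_le_pow_right (by norm_num) (by omega)
    have h3 : 1 ≤ 2 ^ i := Nat.one_le_two_pow
    calc R ≤ 1 * (3 ^ (2 * R + 1) + 1) := by omega
      _ ≤ 2 ^ i * (3 ^ (2 * R + 1) + 1) := Nat.mul_le_mul_right _ h3
  have hc := Nat.find_spec hex
  set c := Nat.find hex with hcdef
  have hu : ∃ u, 3 ^ (2 * c + 1) + 1 = 4 * u ∧ Odd u := by
    have h9 : 3 ^ (2 * c + 1) % 8 = 3 := by
      rw [pow_succ, pow_mul, Nat.mul_mod, Nat.pow_mod]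
      norm_num
    refine ⟨(3 ^ (2 * c + 1) + 1) / 4, by omega, ?_⟩
    rw [Nat.odd_iff]
    omega
  obtain ⟨u, hu, huo⟩ := hu
  refine ⟨2 ^ i * (3 ^ (2 * c + 1) + 1), u, ho_of_ht (ht_pow_mul i (ht_three c)), hc, ?_, ?_, huo⟩
  · rcases Nat.eq_zero_or_pos c with h0 | h0
    · rw [h0]
      have : 2 ^ (i + 2) = 2 ^ i * 4 := by rw [pow_add]; norm_num
      rw [this] at hR
      simpa using hR
    · have hm := Nat.find_min hex (m := c - 1) (by omega)
      push Not at hm
      have e : 3 ^ (2 * c + 1) = 9 * 3 ^ (2 * (c - 1) + 1) := by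
        rw [show 2 * c + 1 = (2 * (c - 1) + 1) + 2 by omega, pow_add]
        norm_num
        ring
      rw [e]
      calc 2 ^ i * (9 * 3 ^ (2 * (c - 1) + 1) + 1) ≤ 9 * (2 ^ i * (3 ^ (2 * (c - 1) + 1) + 1)) := by
            have h3 : 0 ≤ 2 ^ i := Nat.zero_le _
            nlinarith
        _ ≤ 9 * R := by omega
  · rw [hu, pow_add]; ring

theorem dec_greedy {R b : ℕ} (hR : 1 ≤ R) (hb1 : R ≤ 2 ^ b) (hb2 : 2 ^ b ≤ 9 * R) :
    ∀ d j N : ℕ, j + d = b → 2 ≤ j → 2 ^ j ∣ N → 9 * R * d ≤ N → Dec R (9 * R) N := by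
  intro d
  induction d with
  | zero =>
    intro j N hj h2 hdvd hN
    obtain ⟨c, rfl⟩ := hdvd
    have hjb : j = b := by omega
    subst hjb
    clear hN
    induction c with
    | zero => simpa using dec_zero R (9 * R)
    | succ c ih =>
      have h1 : HO (2 ^ j) := by
        have := ht_pow_mul j ht_one
        rw [mul_one] at this
        exact ho_of_ht this
      have := dec_add h1 hb1 hb2 ih
      have e : 2 ^ j * (c + 1) = 2 ^ j + 2 ^ j * c := by ring
      rw [e]; exact this
  | succ d ih =>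
    intro j N hj h2 hdvd hN
    by_cases h : 2 ^ (j + 1) ∣ N
    · exact ih (j + 1) N (by omega) (by omega) h (by
        have : 9 * R * d ≤ 9 * R * (d + 1) := Nat.mul_le_mul_left _ (by omega)
        omega)
    · have hjb : 2 ^ j ≤ 2 ^ b := Nat.pow_le_pow_right (by norm_num) (by omega)
      obtain ⟨h0, u, ho, hh1, hh2, hh3, huo⟩ := exists_order (R := R) h2 (by omega)
      obtain ⟨w, hw⟩ := hdvd
      have hwo : Odd w := by
        rw [← Nat.not_even_iff_odd]
        rintro ⟨x, hx⟩
        exact h ⟨x, by rw [hw, hx, pow_succ]; ring⟩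
      have hle : h0 + 9 * R * d ≤ N := by
        have : 9 * R * (d + 1) = 9 * R * d + 9 * R := by ring
        omega
      have hrec := ih (j + 1) (N - h0) (by omega) (by omega) (by
        have hle2 : u ≤ w := by
          by_contra hcon
          have : 2 ^ j * w < 2 ^ j * u := Nat.mul_lt_mul_of_pos_left (by omega) (by positivity)
          omega
        obtain ⟨x, hx⟩ := Nat.Odd.sub_odd hwo huo
        refine ⟨x, ?_⟩
        rw [hw, hh3, ← Nat.mul_sub, hx, pow_succ]
        ring) (by omega)
      have := dec_add ho hh1 hh2 hrec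
      have e : h0 + (N - h0) = N := by omega
      rwa [e] at this

end Pool.Agent.Q148.HD
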