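import Pool.Agent.Q148.HD.Ord
import Pool.Agent.Q148.HD.Dim

set_option autoImplicit false

/-! Four-dimensional Hadamard arrays as products of functions of two variables. -/

namespace Pool.Agent.Q148.HD

open Finset

theorem pm_sq {z : ℤ} (h : z = 1 ∨ z = -1) : z * z = 1 := by
  rcases h with h | h <;> rw [h] <;> norm_num

/-- The product construction. -/
theorem isH4_pair {X : Type} [Fintype X] (M T : X → X → ℤ) (hM : ∀ x y, M x y = 1 ∨ M x y = -1)
    (hT : ∀ x y, T x y = 1 ∨ T x y = -1) (hsym : ∀ x y, T x y = T y x)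
    (h : ∀ x y, x ≠ y → (∑ q, M x q * M y q = 0) ∨ (∑ q, T x q * T y q = 0)) :
    IsH4 (fun p q r s => M p q * M q r * M r s * M s p * T p r * T q s) := by
  have key : ∀ x y, x ≠ y → ∀ W : X → ℤ,
      (∑ q, M x q * M y q) * (∑ r, T x r * T y r) * (∑ s, W s) = 0 := by
    intro x y hxy W
    rcases h x y hxy with h | h <;> rw [h] <;> ring
  refine ⟨fun p q r s => ?_, fun x y hxy => ?_, fun x y hxy => ?_, fun x y hxy => ?_,
    fun x y hxy => ?_⟩
  · have hm : ∀ a b : ℤ, (a = 1 ∨ a = -1) → (b = 1 ∨ b = -1) → (a * b = 1 ∨ a * b = -1) := by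
      rintro a b (rfl | rfl) (rfl | rfl) <;> norm_num
    exact hm _ _ (hm _ _ (hm _ _ (hm _ _ (hm _ _ (hM p q) (hM q r)) (hM r s)) (hM s p)) (hT p r))
      (hT q s)
  · have e : ∀ q r s, (M x q * M q r * M r s * M s x * T x r * T q s) *
        (M y q * M q r * M r s * M s y * T y r * T q s) =
        (M x q * M y q) * ((T x r * T y r) * (M s x * M s y)) := by
      intro q r s
      have h1 := pm_sq (hM q r)
      have h2 := pm_sq (hM r s)
      have h3 := pm_sq (hT q s)
      calc _ = (M x q * M y q) * ((T x r * T y r) * (M s x * M s y)) *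
            (M q r * M q r) * (M r s * M r s) * (T q s * T q s) := by ring
        _ = _ := by rw [h1, h2, h3]; ring
    simp only [e, ← mul_sum, ← sum_mul]
    have := key x y hxy (fun s => M s x * M s y)
    linear_combination this
  · have e : ∀ p r s, (M p x * M x r * M r s * M s p * T p r * T x s) *
        (M p y * M y r * M r s * M s p * T p r * T y s) =
        (M p x * M p y) * ((M x r * M y r) * (T x s * T y s)) := by
      intro p r s
      have h1 := pm_sq (hM r s)
      have h2 := pm_sq (hM s p)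
      have h3 := pm_sq (hT p r)
      calc _ = (M p x * M p y) * ((M x r * M y r) * (T x s * T y s)) *
            (M r s * M r s) * (M s p * M s p) * (T p r * T p r) := by ring
        _ = _ := by rw [h1, h2, h3]; ring
    simp only [e, ← mul_sum, ← sum_mul]
    have := key x y hxy (fun p => M p x * M p y)
    linear_combination this
  · have e : ∀ p q s, (M p q * M q x * M x s * M s p * T p x * T q s) *
        (M p q * M q y * M y s * M s p * T p y * T q s) =
        (T x p * T y p) * ((M q x * M q y) * (M x s * M y s)) := by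
      intro p q s
      have h1 := pm_sq (hM p q)
      have h2 := pm_sq (hM s p)
      have h3 := pm_sq (hT q s)
      rw [hsym p x, hsym p y]
      calc _ = (T x p * T y p) * ((M q x * M q y) * (M x s * M y s)) *
            (M p q * M p q) * (M s p * M s p) * (T q s * T q s) := by ring
        _ = _ := by rw [h1, h2, h3]; ring
    simp only [e, ← mul_sum, ← sum_mul]
    have := key x y hxy (fun q => M q x * M q y)
    linear_combination this
  · have e : ∀ p q r, (M p q * M q r * M r x * M x p * T p r * T q x) *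
        (M p q * M q r * M r y * M y p * T p r * T q y) =
        (M x p * M y p) * ((T x q * T y q) * (M r x * M r y)) := by
      intro p q r
      have h1 := pm_sq (hM p q)
      have h2 := pm_sq (hM q r)
      have h3 := pm_sq (hT p r)
      rw [hsym q x, hsym q y]
      calc _ = (M x p * M y p) * ((T x q * T y q) * (M r x * M r y)) *
            (M p q * M p q) * (M q r * M q r) * (T p r * T p r) := by ring
        _ = _ := by rw [h1, h2, h3]; ring
    simp only [e, ← mul_sum, ← sum_mul]
    have := key x y hxy (fun r => M r x * M r y)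
    linear_combination this

theorem O4_pair {N R B : ℕ} (h1 : ∃ (k : ℕ) (n : Fin k → ℕ), (∀ i, HO (n i) ∧ k ≤ n i ∧ n i ≤ R) ∧
    ∑ i, n i = N) (h2 : Dec R B N) : O4 N := by
  classical
  obtain ⟨k, n, hn, hN⟩ := h1
  obtain ⟨k', m, hm, hN'⟩ := h2
  choose H hpm ho using fun i => (hn i).1
  choose G gpm go using fun j => (hm j).1
  let X : Type := Σ i : Fin k, Fin (n i)
  let Y : Type := Σ j : Fin k', Fin (m j)
  have hX : Fintype.card X = N := by simp [X, hN]
  have hY : Fintype.card Y = N := by simp [Y, hN']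
  let e : X ≃ Y := Fintype.equivOfCardEq (by rw [hX, hY])
  let M : X → X → ℤ := fun x y => G (e y).1 x.2 (e y).2
  let T : X → X → ℤ := fun x y => H y.1 x.1 y.2 * H x.1 y.1 x.2
  refine ⟨X, inferInstance, _, hX, isH4_pair M T (fun x y => gpm _ _ _) (fun x y => ?_)
    (fun x y => ?_) (fun x y hxy => ?_)⟩
  · show H y.1 x.1 y.2 * H x.1 y.1 x.2 = 1 ∨ H y.1 x.1 y.2 * H x.1 y.1 x.2 = -1
    rcases hpm y.1 x.1 y.2 with h | h <;> rcases hpm x.1 y.1 x.2 with h' | h' <;> rw [h, h'] <;>
      norm_num
  · show H y.1 x.1 y.2 * H x.1 y.1 x.2 = H x.1 y.1 x.2 * H y.1 x.1 y.2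
    ring
  · by_cases h : x.1 = y.1
    · left
      have h2 : (x.2 : ℕ) ≠ (y.2 : ℕ) := by
        intro h2
        apply hxy
        obtain ⟨i, a⟩ := x
        obtain ⟨j, b⟩ := y
        simp only at h h2
        subst h
        rw [Fin.ext h2]
      have hx : (x.2 : ℕ) < R := lt_of_lt_of_le x.2.isLt (hn x.1).2.2
      have hy : (y.2 : ℕ) < R := lt_of_lt_of_le y.2.isLt (hn y.1).2.2
      have h3 : ∑ q : X, M x q * M y q = ∑ z : Y, G z.1 x.2 z.2 * G z.1 y.2 z.2 :=
        Fintype.sum_equiv e _ _ (fun q => rfl)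
      rw [h3, Fintype.sum_sigma]
      refine sum_eq_zero (fun j _ => ?_)
      exact go j _ (lt_of_lt_of_le hx (hm j).2.1) _ (lt_of_lt_of_le hy (hm j).2.1) h2
    · right
      have h2 : (x.1 : ℕ) ≠ (y.1 : ℕ) := fun h2 => h (Fin.ext h2)
      rw [Fintype.sum_sigma]
      refine sum_eq_zero (fun j _ => ?_)
      have h3 : ∀ p : Fin (n j), T x ⟨j, p⟩ * T y ⟨j, p⟩ =
          (H x.1 j x.2 * H y.1 j y.2) * (H j x.1 p * H j y.1 p) := by
        intro p
        show H j x.1 p * H x.1 j x.2 * (H j y.1 p * H y.1 j y.2) = _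
        ring
      simp only [h3]
      rw [← mul_sum]
      have h4 := ho j x.1 (lt_of_lt_of_le x.1.isLt (hn j).2.1) y.1
        (lt_of_lt_of_le y.1.isLt (hn j).2.1) h2
      rw [h4, mul_zero]

/-- All large orders divisible by four. -/
theorem O4_large {N : ℕ} (h4 : 4 ∣ N) (hN : 19399380 ≤ N) : O4 N := by
  set s := Nat.sqrt N + 1 with hs
  have hs1 : N < s * s := Nat.lt_succ_sqrt N
  have hs2 : (s - 1) * (s - 1) ≤ N := by
    have := Nat.sqrt_le N
    simpa [hs] using this
  have hs3 : 4405 ≤ s := by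
    by_contra hcon
    push Not at hcon
    have : s * s ≤ 4404 * 4404 := Nat.mul_le_mul (by omega) (by omega)
    omega
  have hpow : ∀ m : ℕ, 14 ≤ m → 900 * (m + 1) ≤ 2 ^ m := by
    intro m hm
    induction m, hm using Nat.le_induction with
    | base => norm_num
    | succ m hm ih => rw [pow_succ]; omega
  have hbig : 9 * s ≤ 2 ^ (s / 100) := by
    have h1 := hpow (s / 100) (by omega)
    have h2 : s < 100 * (s / 100 + 1) := by omega
    omega
  have hclog : ∀ u : ℕ, 2 ≤ u → u ≤ 9 * s → ∃ b, 2 ≤ b ∧ u ≤ 2 ^ b ∧ 2 ^ b ≤ 9 * u ∧ b ≤ s / 100 := by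
    intro u hu hu2
    have hb : Nat.clog 2 u ≤ s / 100 := Nat.clog_le_of_le_pow (hu2.trans hbig)
    have hp : 2 ^ (Nat.clog 2 u - 1) < u := by
      have := Nat.pow_pred_clog_lt_self (b := 2) (by norm_num) (x := u) (by omega)
      simpa using this
    have hc1 : 1 ≤ Nat.clog 2 u := Nat.clog_pos (by norm_num) (by omega)
    have hq : 2 ^ Nat.clog 2 u = 2 * 2 ^ (Nat.clog 2 u - 1) := by
      rw [← pow_succ']; congr 1; omega
    refine ⟨max 2 (Nat.clog 2 u), le_max_left _ _, ?_, ?_, ?_⟩
    · exact (Nat.le_pow_clog (by norm_num) u).trans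
        (Nat.pow_le_pow_right (by norm_num) (le_max_right _ _))
    · rcases le_total 2 (Nat.clog 2 u) with h | h
      · rw [max_eq_right h]; omega
      · rw [max_eq_left h]; omega
    · have : 2 ≤ s / 100 := by omega
      omega
  have hdec : ∀ u : ℕ, 2 ≤ u → u ≤ 9 * s → Dec u (9 * u) N := by
    intro u hu hu2
    obtain ⟨b, h2, hb1, hb2, hb3⟩ := hclog u hu hu2
    refine dec_greedy (by omega) hb1 hb2 (b - 2) 2 N (by omega) le_rfl (by simpa using h4) ?_
    have e1 : 9 * u * (b - 2) ≤ 9 * (9 * s) * (s / 100) :=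
      Nat.mul_le_mul (Nat.mul_le_mul_left _ hu2) (by omega)
    have e2 : 9 * (9 * s) * (s / 100) ≤ (s - 1) * (s - 1) := by
      have e3 : 100 * (s / 100) ≤ s := Nat.mul_div_le s 100
      obtain ⟨t, ht⟩ : ∃ t, s = t + 1 := ⟨s - 1, by omega⟩
      have e4 : 100 * (9 * (9 * s) * (s / 100)) ≤ 81 * s * s := by
        calc 100 * (9 * (9 * s) * (s / 100)) = 81 * s * (100 * (s / 100)) := by ring
          _ ≤ 81 * s * s := Nat.mul_le_mul_left _ e3
      have e5 : 81 * s * s ≤ 100 * ((s - 1) * (s - 1)) := by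
        rw [ht]
        simp only [Nat.add_sub_cancel]
        nlinarith
      omega
    omega
  obtain ⟨k, n, hn, hsum⟩ := hdec s (by omega) (by omega)
  have hk : k ≤ s := by
    by_contra hcon
    push Not at hcon
    have h1 : ∑ i : Fin k, s ≤ ∑ i, n i := sum_le_sum (fun i _ => (hn i).2.1)
    simp only [sum_const, card_univ, Fintype.card_fin, smul_eq_mul] at h1
    have h2 : s * s ≤ k * s := Nat.mul_le_mul_right _ (by omega)
    omega
  exact O4_pair (R := 9 * s) (B := 9 * (9 * s))
    ⟨k, n, fun i => ⟨(hn i).1, hk.trans (hn i).2.1, (hn i).2.2⟩, hsum⟩ (hdec (9 * s) (by omega) le_rfl)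

end Pool.Agent.Q148.HD
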