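import Mathlib

set_option autoImplicit false

namespace Pool.Agent.Q148.HD

open Finset

/-- A positive integer below 1155 has at most three odd prime factors. -/
theorem card_odd_primes_le {t : ℕ} (ht : 1 ≤ t) (hlt : t < 1155) :
    (t.primeFactors.erase 2).card ≤ 3 := by
  by_contra hcon
  push Not at hcon
  obtain ⟨T, hT, hTc⟩ := exists_subset_card_eq (s := t.primeFactors.erase 2) (n := 4) hcon
  have hprime : ∀ p ∈ T, p.Prime ∧ p ∣ t ∧ 3 ≤ p ∧ Odd p := by
    intro p hp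
    have h := hT hp
    rw [mem_erase, Nat.mem_primeFactors] at h
    have h2 := h.2.1.two_le
    exact ⟨h.2.1, h.2.2.1, by have := h.1; omega, h.2.1.odd_of_ne_two h.1⟩
  let f := T.orderEmbOfFin hTc
  have hmem : ∀ i, f i ∈ T := fun i => T.orderEmbOfFin_mem hTc i
  have h01 : f 0 < f 1 := f.strictMono (by decide)
  have h12 : f 1 < f 2 := f.strictMono (by decide)
  have h23 : f 2 < f 3 := f.strictMono (by decide)
  have hdvd : ∏ p ∈ T, p ∣ t := by
    refine (Finset.prod_primes_dvd t (fun p hp => (hprime p hp).1.prime)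
      (fun p hp => (hprime p hp).2.1))
  have hprod : ∏ p ∈ T, p = f 0 * f 1 * f 2 * f 3 := by
    have : ∏ i : Fin 4, f i = ∏ p ∈ T, p := by
      rw [← Finset.map_orderEmbOfFin_univ T hTc, prod_map]; rfl
    rw [← this, Fin.prod_univ_four]
  obtain ⟨a, ha⟩ := (hprime _ (hmem 0)).2.2.2
  obtain ⟨b, hb⟩ := (hprime _ (hmem 1)).2.2.2
  obtain ⟨c, hc⟩ := (hprime _ (hmem 2)).2.2.2
  obtain ⟨e, he⟩ := (hprime _ (hmem 3)).2.2.2
  have h0 : 3 ≤ f 0 := (hprime _ (hmem 0)).2.2.1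
  have h1 : 5 ≤ f 1 := by omega
  have h2 : 7 ≤ f 2 := by omega
  have h3 : 9 ≤ f 3 := by omega
  have h3' : f 3 ≠ 9 := by
    intro h
    have := (hprime _ (hmem 3)).1
    rw [h] at this
    exact absurd this (by norm_num)
  have h3'' : 11 ≤ f 3 := by omega
  have hle : 3 * 5 * 7 * 11 ≤ f 0 * f 1 * f 2 * f 3 :=
    Nat.mul_le_mul (Nat.mul_le_mul (Nat.mul_le_mul h0 h1) h2) h3''
  have := Nat.le_of_dvd ht hdvd
  rw [hprod] at this
  omega

end Pool.Agent.Q148.HD
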