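import Pool.Agent.Q148.HD.Even
import Pool.Agent.Q148.HD.Small

set_option autoImplicit false

/-! Six-dimensional Hadamard arrays of every even order, as products of functions of three
variables. -/

namespace Pool.Agent.Q148.HD

open Finset

section
variable {X : Type}

/-- The product of the six factors. -/
def a6 (P : X → X → X → ℤ) (i : Fin 6 → X) : ℤ :=
  P (i 0) (i 1) (i 4) * P (i 1) (i 2) (i 5) * P (i 2) (i 3) (i 0) * P (i 3) (i 4) (i 1) *
    P (i 4) (i 5) (i 2) * P (i 5) (i 0) (i 3)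

theorem a6_rot (P : X → X → X → ℤ) (i : Fin 6 → X) (l : Fin 6) :
    a6 P (fun k => i (k + l)) = a6 P i := by
  fin_cases l
  · simp [a6]
  · show P (i 1) (i 2) (i 5) * P (i 2) (i 3) (i 0) * P (i 3) (i 4) (i 1) * P (i 4) (i 5) (i 2) *
      P (i 5) (i 0) (i 3) * P (i 0) (i 1) (i 4) = _
    unfold a6; ring
  · show P (i 2) (i 3) (i 0) * P (i 3) (i 4) (i 1) * P (i 4) (i 5) (i 2) *
      P (i 5) (i 0) (i 3) * P (i 0) (i 1) (i 4) * P (i 1) (i 2) (i 5) = _
    unfold a6; ring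
  · show P (i 3) (i 4) (i 1) * P (i 4) (i 5) (i 2) *
      P (i 5) (i 0) (i 3) * P (i 0) (i 1) (i 4) * P (i 1) (i 2) (i 5) * P (i 2) (i 3) (i 0) = _
    unfold a6; ring
  · show P (i 4) (i 5) (i 2) * P (i 5) (i 0) (i 3) * P (i 0) (i 1) (i 4) * P (i 1) (i 2) (i 5) *
      P (i 2) (i 3) (i 0) * P (i 3) (i 4) (i 1) = _
    unfold a6; ring
  · show P (i 5) (i 0) (i 3) * P (i 0) (i 1) (i 4) * P (i 1) (i 2) (i 5) *
      P (i 2) (i 3) (i 0) * P (i 3) (i 4) (i 1) * P (i 4) (i 5) (i 2) = _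
    unfold a6; ring

/-- Separating the coordinates `1` and `4`. -/
def split6 : (Fin 6 → X) ≃ (X × X) × (X × X × X × X) where
  toFun i := ((i 1, i 4), (i 0, i 2, i 3, i 5))
  invFun p := ![p.2.1, p.1.1, p.2.2.1, p.2.2.2.1, p.1.2, p.2.2.2.2]
  left_inv i := by
    funext k
    fin_cases k <;> rfl
  right_inv p := rfl

variable [Fintype X] [DecidableEq X]

theorem dir_zero (P : X → X → X → ℤ) (hpm : ∀ x y z, P x y z = 1 ∨ P x y z = -1)
    (h : ∀ x x', x ≠ x' → ∑ p : X × X, P x p.1 p.2 * P x' p.1 p.2 = 0) (x y : X) (hxy : x ≠ y) :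
    ∑ i : Fin 6 → X, a6 P (Function.update i 0 x) * a6 P (Function.update i 0 y) = 0 := by
  have e : ∀ i : Fin 6 → X, a6 P (Function.update i 0 x) * a6 P (Function.update i 0 y) =
      (P x (i 1) (i 4) * P y (i 1) (i 4)) * ((P (i 2) (i 3) x * P (i 2) (i 3) y) *
        (P (i 5) x (i 3) * P (i 5) y (i 3))) := by
    intro i
    have u0 : ∀ z : X, Function.update i 0 z 0 = z := fun z => Function.update_self _ _ _
    have u1 : ∀ z : X, Function.update i 0 z 1 = i 1 :=
      fun z => Function.update_of_ne (by decide) _ _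
    have u2 : ∀ z : X, Function.update i 0 z 2 = i 2 :=
      fun z => Function.update_of_ne (by decide) _ _
    have u3 : ∀ z : X, Function.update i 0 z 3 = i 3 :=
      fun z => Function.update_of_ne (by decide) _ _
    have u4 : ∀ z : X, Function.update i 0 z 4 = i 4 :=
      fun z => Function.update_of_ne (by decide) _ _
    have u5 : ∀ z : X, Function.update i 0 z 5 = i 5 :=
      fun z => Function.update_of_ne (by decide) _ _
    unfold a6
    simp only [u0, u1, u2, u3, u4, u5]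
    have h1 := pm_sq (hpm (i 1) (i 2) (i 5))
    have h2 := pm_sq (hpm (i 3) (i 4) (i 1))
    have h3 := pm_sq (hpm (i 4) (i 5) (i 2))
    calc _ = (P x (i 1) (i 4) * P y (i 1) (i 4)) * ((P (i 2) (i 3) x * P (i 2) (i 3) y) *
        (P (i 5) x (i 3) * P (i 5) y (i 3))) * (P (i 1) (i 2) (i 5) * P (i 1) (i 2) (i 5)) *
        (P (i 3) (i 4) (i 1) * P (i 3) (i 4) (i 1)) *
        (P (i 4) (i 5) (i 2) * P (i 4) (i 5) (i 2)) := by ring
      _ = _ := by rw [h1, h2, h3]; ring
  simp only [e]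
  have h4 : ∑ i : Fin 6 → X, (P x (i 1) (i 4) * P y (i 1) (i 4)) *
      ((P (i 2) (i 3) x * P (i 2) (i 3) y) * (P (i 5) x (i 3) * P (i 5) y (i 3))) =
      ∑ p : (X × X) × (X × X × X × X), (P x p.1.1 p.1.2 * P y p.1.1 p.1.2) *
        ((P p.2.2.1 p.2.2.2.1 x * P p.2.2.1 p.2.2.2.1 y) *
          (P p.2.2.2.2 x p.2.2.2.1 * P p.2.2.2.2 y p.2.2.2.1)) :=
    Fintype.sum_equiv split6 _ _ (fun i => rfl)
  rw [h4, Fintype.sum_prod_type]
  simp only [← mul_sum]
  rw [← sum_mul, h x y hxy, zero_mul]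

/-- The product construction in dimension six. -/
theorem isHn_six (P : X → X → X → ℤ) (hpm : ∀ x y z, P x y z = 1 ∨ P x y z = -1)
    (h : ∀ x x', x ≠ x' → ∑ p : X × X, P x p.1 p.2 * P x' p.1 p.2 = 0) :
    IsHn (a6 P) := by
  refine ⟨fun i => ?_, fun l x y hxy => ?_⟩
  · have hm : ∀ a b : ℤ, (a = 1 ∨ a = -1) → (b = 1 ∨ b = -1) → (a * b = 1 ∨ a * b = -1) := by
      rintro a b (rfl | rfl) (rfl | rfl) <;> norm_num
    exact hm _ _ (hm _ _ (hm _ _ (hm _ _ (hm _ _ (hpm _ _ _) (hpm _ _ _)) (hpm _ _ _))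
      (hpm _ _ _)) (hpm _ _ _)) (hpm _ _ _)
  · have hu : ∀ (i : Fin 6 → X) (z : X), (fun k => Function.update i l z (k + l)) =
        Function.update (fun k => i (k + l)) 0 z := by
      intro i z
      funext k
      by_cases hk : k = 0
      · subst hk
        simp
      · have : k + l ≠ l := by
          intro h
          exact hk (add_eq_right.1 h)
        rw [Function.update_of_ne this, Function.update_of_ne hk]
    rw [← dir_zero P hpm h x y hxy]
    let r : (Fin 6 → X) ≃ (Fin 6 → X) := (Equiv.addRight l).symm.arrowCongr (Equiv.refl X)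
    have hr : ∀ i : Fin 6 → X, r i = fun k => i (k + l) := by
      intro i
      funext k
      simp [r, Equiv.arrowCongr]
    refine Fintype.sum_equiv r _ _ (fun i => ?_)
    rw [hr, ← hu, ← hu, a6_rot, a6_rot]

end

theorem on_six {N B : ℕ} (h : Dec N B (N * N)) : On 6 N := by
  classical
  obtain ⟨k, m, hm, hN⟩ := h
  choose G gpm go using fun j => (hm j).1
  let Y : Type := Σ j : Fin k, Fin (m j)
  have hY : Fintype.card Y = N * N := by simp [Y, hN]
  let e : (Fin N × Fin N) ≃ Y := Fintype.equivOfCardEq (by rw [hY]; simp)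
  refine ⟨Fin N, inferInstance, inferInstance,
    a6 (fun x y z => G (e (y, z)).1 (x : ℕ) ((e (y, z)).2 : ℕ)), by simp,
    isHn_six _ (fun x y z => gpm _ _ _) (fun x x' hxx => ?_)⟩
  have h3 : ∑ p : Fin N × Fin N, G (e (p.1, p.2)).1 (x : ℕ) ((e (p.1, p.2)).2 : ℕ) *
      G (e (p.1, p.2)).1 (x' : ℕ) ((e (p.1, p.2)).2 : ℕ) =
      ∑ z : Y, G z.1 (x : ℕ) (z.2 : ℕ) * G z.1 (x' : ℕ) (z.2 : ℕ) :=
    Fintype.sum_equiv e _ _ (fun p => rfl)
  rw [h3, Fintype.sum_sigma]
  refine sum_eq_zero (fun j _ => ?_)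
  exact go j _ (lt_of_lt_of_le x.isLt (hm j).2.1) _ (lt_of_lt_of_le x'.isLt (hm j).2.1)
    (fun h => hxx (Fin.ext h))

/-- All even orders, at least `128`. -/
theorem on_six_large {N : ℕ} (h2 : 2 ∣ N) (hN : 128 ≤ N) : On 6 N := by
  have hpow : ∀ m : ℕ, 7 ≤ m → 9 * (m - 1) ≤ 2 ^ (m - 1) := by
    intro m hm
    induction m, hm using Nat.le_induction with
    | base => norm_num
    | succ m hm ih =>
      have e : 2 ^ (m + 1 - 1) = 2 * 2 ^ (m - 1) := by
        rw [← pow_succ']; congr 1; omega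
      rw [e]
      omega
  have hb7 : 7 ≤ Nat.clog 2 N := by
    have : Nat.clog 2 128 ≤ Nat.clog 2 N := Nat.clog_mono_right 2 hN
    have h7 : Nat.clog 2 128 = 7 := by
      have : (128 : ℕ) = 2 ^ 7 := by norm_num
      rw [this, Nat.clog_pow 2 7 (by norm_num)]
    omega
  have hp : 2 ^ (Nat.clog 2 N - 1) < N := by
    have := Nat.pow_pred_clog_lt_self (b := 2) (by norm_num) (x := N) (by omega)
    simpa using this
  have hq : 2 ^ Nat.clog 2 N = 2 * 2 ^ (Nat.clog 2 N - 1) := by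
    rw [← pow_succ']; congr 1; omega
  have h9 : 9 * (Nat.clog 2 N - 2) ≤ N := by
    have := hpow _ hb7
    omega
  refine on_six (B := 9 * N) (dec_greedy (b := Nat.clog 2 N) (by omega)
    (Nat.le_pow_clog (by norm_num) N) (by omega) (Nat.clog 2 N - 2) 2 (N * N) (by omega) le_rfl ?_ ?_)
  · obtain ⟨c, rfl⟩ := h2
    exact ⟨c * c, by ring⟩
  · calc 9 * N * (Nat.clog 2 N - 2) = N * (9 * (Nat.clog 2 N - 2)) := by ring
      _ ≤ N * N := Nat.mul_le_mul_left _ h9

theorem main_six (n : ℕ) (hn : 6 ≤ n) (t : ℕ) (ht : 1 ≤ t) : HasH n (2 * t) := by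
  by_cases h : 2 * t < 128
  · have h3 := card_odd_primes_le (t := t) ht (by omega)
    have h4 : 1 ≤ n / 2 - 1 := by omega
    have h5 : 3 * 1 * 1 ≤ 3 * (n / 2 - 1) * (t.factorization 2 + 1) :=
      Nat.mul_le_mul (Nat.mul_le_mul le_rfl h4) (by omega)
    exact main_all n (by omega) t ht (by omega)
  · induction n, hn using Nat.le_induction with
    | base => exact hasH_of_on (on_six_large (Dvd.intro _ rfl) (by omega))
    | succ n hn ih =>
      obtain ⟨m, rfl⟩ : ∃ m, n = m + 1 := ⟨n - 1, by omega⟩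
      exact HasH_succ (by omega) ih

end Pool.Agent.Q148.HD
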