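import Pool.Agent.Q148.HD.Table

set_option autoImplicit false

/-! Sixteen complementary arrays on the product of six good groups. -/

namespace Pool.Agent.Q148.HD

open Finset

/-- The table of the sixty-four sign vectors, sixteen bits each. -/
def bigT : ℕ := 20869319628884867344511526925422344221318636239386469696038352947261046357416744842435631067202750989687421661542662001586239574093958963223515824764109017837966523820764671373302964339206878304584035282293293889416288301903573285175358724875660673114064200858744435527178073496525898311330877613468553838592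

/-- The sign vector with a given index. -/
def mask (i : ℕ) : ℕ := (bigT >>> (16 * i)) % 65536

/-- The index of a list of bits. -/
def bidx : List Bool → ℕ
  | [] => 0
  | b :: t => (if b then 1 else 0) + 2 * bidx t

/-- The sign of a bit. -/
def sb (x k : ℕ) : ℤ := if Nat.testBit x k then -1 else 1

theorem sb_pm (x k : ℕ) : sb x k = 1 ∨ sb x k = -1 := by unfold sb; split_ifs <;> simp

/-- The number of ones of a number with sixteen bits. -/
def pop16 (x : ℕ) : ℕ :=
  x % 2 + x / 2 % 2 + x / 4 % 2 + x / 8 % 2 + x / 16 % 2 + x / 32 % 2 + x / 64 % 2 +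
    x / 128 % 2 + x / 256 % 2 + x / 512 % 2 + x / 1024 % 2 + x / 2048 % 2 + x / 4096 % 2 +
    x / 8192 % 2 + x / 16384 % 2 + x / 32768 % 2

theorem sb_mul (x y k : ℕ) : sb x k * sb y k = 1 - 2 * (((x ^^^ y) / 2 ^ k % 2 : ℕ) : ℤ) := by
  rw [← Nat.toNat_testBit, Nat.testBit_xor]
  unfold sb
  cases Nat.testBit x k <;> cases Nat.testBit y k <;> simp

/-- The fast form of the Gram matrix. -/
def gram (i j : ℕ) : ℤ := 16 - 2 * (pop16 (mask i ^^^ mask j) : ℤ)

/-- The sign of the array `c` at a list of bits. -/
def sgn6 (c : Fin 4 → Bool) (t : List Bool) : ℤ :=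
  sb (mask (bidx t)) ((if c 0 then 1 else 0) + 2 * (if c 1 then 1 else 0) +
    4 * (if c 2 then 1 else 0) + 8 * (if c 3 then 1 else 0))

theorem sgn6_sum (t t' : List Bool) : ∑ c, sgn6 c t * sgn6 c t' = gram (bidx t) (bidx t') := by
  have hs : ∀ f : Bool → Bool → Bool → Bool → ℤ, ∑ c : Fin 4 → Bool, f (c 0) (c 1) (c 2) (c 3) =
      ∑ a, ∑ b, ∑ c, ∑ d, f a b c d := by
    intro f
    rw [sum_cons]
    refine sum_congr rfl (fun a _ => ?_)
    rw [sum_cons]
    refine sum_congr rfl (fun b _ => ?_)
    rw [sum_cons]
    refine sum_congr rfl (fun c _ => ?_)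
    rw [sum_cons]
    refine sum_congr rfl (fun d _ => ?_)
    rw [Fintype.sum_unique]
    rfl
  refine (hs (fun a b c d => sb (mask (bidx t)) ((if a then 1 else 0) + 2 * (if b then 1 else 0) +
    4 * (if c then 1 else 0) + 8 * (if d then 1 else 0)) *
    sb (mask (bidx t')) ((if a then 1 else 0) + 2 * (if b then 1 else 0) +
    4 * (if c then 1 else 0) + 8 * (if d then 1 else 0)))).trans ?_
  simp only [sb_mul, gram, pop16, Fintype.sum_bool]
  norm_num
  ring

/-- All mode vectors of a given length. -/
def modes : ℕ → List (List (Fin 3))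
  | 0 => [[]]
  | k + 1 => (modes k).map (fun l => 0 :: l) ++ ((modes k).map (fun l => 1 :: l) ++
      (modes k).map (fun l => 2 :: l))

theorem mem_modes (k : ℕ) : ∀ ms : List (Fin 3), ms.length = k → ms ∈ modes k := by
  induction k with
  | zero => intro ms h; rw [List.length_eq_zero_iff.1 h]; exact List.mem_singleton.2 rfl
  | succ k ih =>
    intro ms h
    cases ms with
    | nil => simp at h
    | cons m ms =>
      have := ih ms (by simpa using h)
      fin_cases m <;> simp [modes, this]

/-- The check of all modes of length six. -/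
def check6 : Bool := (modes 6).all (fun ms => (!ms.contains 2) ||
  decide (evM ms (fun t t' => gram (bidx t) (bidx t')) = 0))

theorem check6_true : check6 = true := by decide +kernel

theorem modes6 (ms : List (Fin 3)) (h : ms.length = 6) (h2 : (2 : Fin 3) ∈ ms) :
    evM ms (fun t t' => ∑ c, sgn6 c t * sgn6 c t') = 0 := by
  have := List.all_eq_true.1 check6_true ms (mem_modes 6 ms h)
  simp only [Bool.or_eq_true, decide_eq_true_eq] at this
  rcases this with h' | h'
  · have : ms.contains 2 = true := List.contains_iff_mem.2 h2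
    rw [this] at h'
    simp at h'
  · simp only [sgn6_sum]
    exact h'

theorem fam_six {G1 G2 G3 G4 G5 G6 : Type} [AddCommGroup G1] [Fintype G1] [AddCommGroup G2]
    [Fintype G2] [AddCommGroup G3] [Fintype G3] [AddCommGroup G4] [Fintype G4] [AddCommGroup G5]
    [Fintype G5] [AddCommGroup G6] [Fintype G6] (g1 : Good G1) (g2 : Good G2) (g3 : Good G3)
    (g4 : Good G4) (g5 : Good G5) (g6 : Good G6) :
    Fam 4 (G1 × (G2 × (G3 × (G4 × (G5 × (G6 × PUnit)))))) :=
  fam_of_table (sys_succ g1 (sys_succ g2 (sys_succ g3 (sys_succ g4 (sys_succ g5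
    (sys_succ g6 sys_zero)))))) sgn6 (fun c t => sb_pm _ _) modes6

end Pool.Agent.Q148.HD
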