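import Pool.Agent.Q148.HD.Good
import Pool.Agent.Q148.HD.Four

set_option autoImplicit false

/-! Eight complementary arrays on the product of three good groups. -/

namespace Pool.Agent.Q148.HD

open Finset

/-- The sign table. -/
def gt : Bool → Bool → Bool → Bool → Bool → Bool → ℤ
  | _, _, _, false, false, false => 1
  | _, b, c, true, false, false => if b || c then 1 else -1
  | a, b, c, false, true, false => if (a && b && !c) || (!a && !b && c) then -1 else 1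
  | a, b, c, true, true, false => if (a && !b && !c) || (!a && !b && c) then -1 else 1
  | a, b, _, false, false, true => if a && b then -1 else 1
  | a, b, c, true, false, true => if (!a && !b && !c) || (a && b && !c) then -1 else 1
  | a, b, c, false, true, true => if (!a && !b) || (a && b) then -1 else 1
  | a, b, c, true, true, true => if (!a && !b) || (a && !c) then -1 else 1

/-- The kernel of one coordinate. -/
def kap (n : Bool) (Q : ℤ) (f : Bool → Bool → ℤ) : ℤ :=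
  if n then -f false false + f false true + f true false else Q * f false false + f true true

theorem kap_table (n1 n2 n3 : Bool) (h : ¬(n1 = false ∧ n2 = false ∧ n3 = false)) (Q1 Q2 Q3 : ℤ) :
    ∑ a, ∑ b, ∑ c, kap n1 Q1 (fun x x' => kap n2 Q2 (fun y y' => kap n3 Q3
      (fun z z' => gt a b c x y z * gt a b c x' y' z'))) = 0 := by
  cases n1 <;> cases n2 <;> cases n3 <;> simp at h <;>
    simp [kap, gt, Fintype.sum_bool] <;> ring

section kernel

variable {G : Type} [AddCommGroup G] [Fintype G] [DecidableEq G]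

/-- Whether both coordinates vanish. -/
def zz (x u : G) : Bool := decide (x = 0 ∧ u = 0)

theorem kernel1 (E : G → G → ℤ) (hpm : ∀ x u, E x u = 1 ∨ E x u = -1) (h0 : ∀ x, E x 0 = 1)
    (hc : ∀ d : G, d ≠ 0 → ∑ x, ∑ u, E x u * E (x + d) u = 1) (d : G) (f : Bool → Bool → ℤ) :
    ∑ x, ∑ u, f (zz x u) (zz (x + d) u) * (E x u * E (x + d) u) =
      kap (decide (d ≠ 0)) ((Fintype.card G : ℤ) ^ 2 - 1) f := by
  have hsq : ∀ x u, E x u * E x u = 1 := fun x u => by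
    rcases hpm x u with h | h <;> rw [h] <;> norm_num
  by_cases hd : d = 0
  · subst hd
    have key : ∀ x u : G, f (zz x u) (zz (x + 0) u) * (E x u * E (x + 0) u) =
        f false false + (if x = 0 then (if u = 0 then (f true true - f false false) else 0) else 0) := by
      intro x u
      rw [add_zero, hsq]
      by_cases hx : x = 0 <;> by_cases hu : u = 0 <;> simp [zz, hx, hu]
    simp only [key, sum_add_distrib, sum_const, card_univ, nsmul_eq_mul]
    simp [kap]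
    ring
  · have key : ∀ x u : G, f (zz x u) (zz (x + d) u) * (E x u * E (x + d) u) =
        f false false * (E x u * E (x + d) u) +
        (if x = 0 then (if u = 0 then (f true false - f false false) else 0) else 0) +
        (if x = -d then (if u = 0 then (f false true - f false false) else 0) else 0) := by
      intro x u
      by_cases hu : u = 0
      · subst hu
        rw [h0, h0]
        by_cases hx : x = 0
        · subst hx
          have : ¬ (0 : G) = -d := fun h => hd (by simpa using h.symm)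
          simp [zz, hd, this]
        · by_cases hx' : x = -d
          · subst hx'
            have h2 : ¬ (-d = 0) := by simpa using hd
            simp [zz, hd]
          · have h2 : ¬ x + d = 0 := fun h => hx' (eq_neg_of_add_eq_zero_left h)
            simp [zz, hx, hx', h2]
      · simp [zz, hu]
    simp only [key, sum_add_distrib, ← mul_sum]
    rw [hc d hd]
    simp [kap, hd]
    ring

theorem kernel2 (E : G → G → ℤ) (hpm : ∀ x u, E x u = 1 ∨ E x u = -1) (h0 : ∀ u, E 0 u = 1)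
    (hc : ∀ d : G, d ≠ 0 → ∑ x, ∑ u, E x u * E x (u + d) = 1) (d : G) (f : Bool → Bool → ℤ) :
    ∑ x, ∑ u, f (zz x u) (zz x (u + d)) * (E x u * E x (u + d)) =
      kap (decide (d ≠ 0)) ((Fintype.card G : ℤ) ^ 2 - 1) f := by
  have h := kernel1 (fun x u => E u x) (fun x u => hpm u x) h0
    (fun d hd => by rw [sum_comm]; exact hc d hd) d f
  rw [← h, sum_comm]
  refine sum_congr rfl (fun x _ => sum_congr rfl (fun u _ => ?_))
  have e : ∀ x u : G, zz x u = zz u x := fun x u => by simp [zz, and_comm]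
  rw [e u x, e u (x + d)]

end kernel

theorem sum_prod4 {G H : Type} [Fintype G] [Fintype H] (φ : G × H → G × H → ℤ) :
    ∑ x, ∑ u, φ x u = ∑ x1, ∑ u1, ∑ x2, ∑ u2, φ (x1, x2) (u1, u2) := by
  rw [Fintype.sum_prod_type]
  refine sum_congr rfl (fun x1 _ => ?_)
  have : ∀ x2 : H, ∑ u, φ (x1, x2) u = ∑ u1, ∑ u2, φ (x1, x2) (u1, u2) :=
    fun x2 => Fintype.sum_prod_type _
  rw [sum_congr rfl (fun x2 _ => this x2), sum_comm]

section system

variable {G1 G2 G3 : Type} [AddCommGroup G1] [Fintype G1] [DecidableEq G1]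
  [AddCommGroup G2] [Fintype G2] [DecidableEq G2] [AddCommGroup G3] [Fintype G3] [DecidableEq G3]

/-- The eight arrays. -/
def sysA (E1 : G1 → G1 → ℤ) (E2 : G2 → G2 → ℤ) (E3 : G3 → G3 → ℤ) (a b c : Bool)
    (x u : G1 × G2 × G3) : ℤ :=
  gt a b c (zz x.1 u.1) (zz x.2.1 u.2.1) (zz x.2.2 u.2.2) *
    (E1 x.1 u.1 * (E2 x.2.1 u.2.1 * E3 x.2.2 u.2.2))

theorem gt_pm (a b c x y z : Bool) : gt a b c x y z = 1 ∨ gt a b c x y z = -1 := by
  revert a b c x y z; decide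

theorem sysA_pm (E1 : G1 → G1 → ℤ) (E2 : G2 → G2 → ℤ) (E3 : G3 → G3 → ℤ)
    (h1 : ∀ x u, E1 x u = 1 ∨ E1 x u = -1) (h2 : ∀ x u, E2 x u = 1 ∨ E2 x u = -1)
    (h3 : ∀ x u, E3 x u = 1 ∨ E3 x u = -1) (a b c : Bool) (x u : G1 × G2 × G3) :
    sysA E1 E2 E3 a b c x u = 1 ∨ sysA E1 E2 E3 a b c x u = -1 := by
  unfold sysA
  rcases gt_pm a b c (zz x.1 u.1) (zz x.2.1 u.2.1) (zz x.2.2 u.2.2) with h | h <;>
  rcases h1 x.1 u.1 with h1 | h1 <;> rcases h2 x.2.1 u.2.1 with h2 | h2 <;>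
  rcases h3 x.2.2 u.2.2 with h3 | h3 <;> rw [h, h1, h2, h3] <;> norm_num

theorem sysA_C1 (E1 : G1 → G1 → ℤ) (E2 : G2 → G2 → ℤ) (E3 : G3 → G3 → ℤ)
    (h1 : ∀ x u, E1 x u = 1 ∨ E1 x u = -1) (h2 : ∀ x u, E2 x u = 1 ∨ E2 x u = -1)
    (h3 : ∀ x u, E3 x u = 1 ∨ E3 x u = -1) (z1 : ∀ x, E1 x 0 = 1) (z2 : ∀ x, E2 x 0 = 1)
    (z3 : ∀ x, E3 x 0 = 1) (c1 : ∀ d : G1, d ≠ 0 → ∑ x, ∑ u, E1 x u * E1 (x + d) u = 1)
    (c2 : ∀ d : G2, d ≠ 0 → ∑ x, ∑ u, E2 x u * E2 (x + d) u = 1)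
    (c3 : ∀ d : G3, d ≠ 0 → ∑ x, ∑ u, E3 x u * E3 (x + d) u = 1) (a b c : Bool)
    (d : G1 × G2 × G3) :
    C1 (sysA E1 E2 E3 a b c) (sysA E1 E2 E3 a b c) d =
      kap (decide (d.1 ≠ 0)) ((Fintype.card G1 : ℤ) ^ 2 - 1) (fun x x' =>
        kap (decide (d.2.1 ≠ 0)) ((Fintype.card G2 : ℤ) ^ 2 - 1) (fun y y' =>
          kap (decide (d.2.2 ≠ 0)) ((Fintype.card G3 : ℤ) ^ 2 - 1) (fun z z' =>
            gt a b c x y z * gt a b c x' y' z'))) := by
  obtain ⟨d1, d2, d3⟩ := d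
  rw [C1, sum_prod4, ← kernel1 E1 h1 z1 c1]
  refine sum_congr rfl (fun x1 _ => sum_congr rfl (fun u1 _ => ?_))
  rw [sum_prod4, ← kernel1 E2 h2 z2 c2]
  simp only [sum_mul]
  refine sum_congr rfl (fun x2 _ => sum_congr rfl (fun u2 _ => ?_))
  rw [← kernel1 E3 h3 z3 c3]
  simp only [sum_mul]
  refine sum_congr rfl (fun x3 _ => sum_congr rfl (fun u3 _ => ?_))
  simp only [sysA, Prod.fst_add, Prod.snd_add]
  ring

theorem sysA_C2 (E1 : G1 → G1 → ℤ) (E2 : G2 → G2 → ℤ) (E3 : G3 → G3 → ℤ)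
    (h1 : ∀ x u, E1 x u = 1 ∨ E1 x u = -1) (h2 : ∀ x u, E2 x u = 1 ∨ E2 x u = -1)
    (h3 : ∀ x u, E3 x u = 1 ∨ E3 x u = -1) (z1 : ∀ x, E1 0 x = 1) (z2 : ∀ x, E2 0 x = 1)
    (z3 : ∀ x, E3 0 x = 1) (c1 : ∀ d : G1, d ≠ 0 → ∑ x, ∑ u, E1 x u * E1 x (u + d) = 1)
    (c2 : ∀ d : G2, d ≠ 0 → ∑ x, ∑ u, E2 x u * E2 x (u + d) = 1)
    (c3 : ∀ d : G3, d ≠ 0 → ∑ x, ∑ u, E3 x u * E3 x (u + d) = 1) (a b c : Bool)
    (d : G1 × G2 × G3) :
    C2 (sysA E1 E2 E3 a b c) (sysA E1 E2 E3 a b c) d =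
      kap (decide (d.1 ≠ 0)) ((Fintype.card G1 : ℤ) ^ 2 - 1) (fun x x' =>
        kap (decide (d.2.1 ≠ 0)) ((Fintype.card G2 : ℤ) ^ 2 - 1) (fun y y' =>
          kap (decide (d.2.2 ≠ 0)) ((Fintype.card G3 : ℤ) ^ 2 - 1) (fun z z' =>
            gt a b c x y z * gt a b c x' y' z'))) := by
  obtain ⟨d1, d2, d3⟩ := d
  rw [C2, sum_prod4, ← kernel2 E1 h1 z1 c1]
  refine sum_congr rfl (fun x1 _ => sum_congr rfl (fun u1 _ => ?_))
  rw [sum_prod4, ← kernel2 E2 h2 z2 c2]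
  simp only [sum_mul]
  refine sum_congr rfl (fun x2 _ => sum_congr rfl (fun u2 _ => ?_))
  rw [← kernel2 E3 h3 z3 c3]
  simp only [sum_mul]
  refine sum_congr rfl (fun x3 _ => sum_congr rfl (fun u3 _ => ?_))
  simp only [sysA, Prod.fst_add, Prod.snd_add]
  ring

end system

/-- A four-dimensional Hadamard array of order `2 |G1| |G2| |G3|` for good groups. -/
theorem exists_h4_good {G1 G2 G3 : Type} [AddCommGroup G1] [Fintype G1] [AddCommGroup G2]
    [Fintype G2] [AddCommGroup G3] [Fintype G3] (g1 : Good G1) (g2 : Good G2) (g3 : Good G3) :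
    ∃ a : (Bool × (G1 × G2 × G3)) → (Bool × (G1 × G2 × G3)) → (Bool × (G1 × G2 × G3)) →
      (Bool × (G1 × G2 × G3)) → ℤ, IsH4 a := by
  classical
  obtain ⟨E1, p1, zl1, zr1, c1, e1⟩ := g1
  obtain ⟨E2, p2, zl2, zr2, c2, e2⟩ := g2
  obtain ⟨E3, p3, zl3, zr3, c3, e3⟩ := g3
  have hn : ∀ d : G1 × G2 × G3, d ≠ 0 → ¬(decide (d.1 ≠ 0) = false ∧ decide (d.2.1 ≠ 0) = false ∧
      decide (d.2.2 ≠ 0) = false) := by
    rintro ⟨d1, d2, d3⟩ hd ⟨h1, h2, h3⟩
    simp only [ne_eq, decide_eq_false_iff_not, not_not] at h1 h2 h3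
    exact hd (by rw [h1, h2, h3]; rfl)
  refine ⟨arr (sysA E1 E2 E3), isH4_arr _ (sysA_pm E1 E2 E3 p1 p2 p3) (fun d hd => ?_)
    (fun d hd => ?_)⟩
  · simp only [sysA_C1 E1 E2 E3 p1 p2 p3 zl1 zl2 zl3 c1 c2 c3]
    exact kap_table _ _ _ (hn d hd) _ _ _
  · simp only [sysA_C2 E1 E2 E3 p1 p2 p3 zr1 zr2 zr3 e1 e2 e3]
    exact kap_table _ _ _ (hn d hd) _ _ _

end Pool.Agent.Q148.HD
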