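import Pool.Agent.Q148.HD.Family

set_option autoImplicit false

/-! Complementary families from sign tables on `k` good groups. -/

namespace Pool.Agent.Q148.HD

open Finset

/-- The iterated kernel. -/
def evK : List (Bool × ℤ) → (List Bool → List Bool → ℤ) → ℤ
  | [], f => f [] []
  | e :: l, f => kap e.1 e.2 (fun s s' => evK l (fun t t' => f (s :: t) (s' :: t')))

/-- One coordinate of a mode: two diagonal modes and the off-diagonal mode. -/
def md (m : Fin 3) (g : Bool → Bool → ℤ) : ℤ :=
  if m = 0 then g false false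
  else if m = 1 then g true true
  else -g false false + g false true + g true false

/-- The iterated mode. -/
def evM : List (Fin 3) → (List Bool → List Bool → ℤ) → ℤ
  | [], f => f [] []
  | m :: l, f => evM l (fun t t' => md m (fun s s' => f (s :: t) (s' :: t')))

theorem evK_lin (l : List (Bool × ℤ)) : ∀ f g h : List Bool → List Bool → ℤ,
    evK l (fun t t' => -f t t' + g t t' + h t t') = -evK l f + evK l g + evK l h := by
  induction l with
  | nil => intro f g h; rfl
  | cons e l ih =>
    intro f g h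
    simp only [evK, ih]
    obtain ⟨n, Q⟩ := e
    cases n <;> simp [kap] <;> ring

/-- Whether a mode vector fits a shift pattern. -/
def fits : List (Bool × ℤ) → List (Fin 3) → Prop
  | [], [] => True
  | e :: l, m :: ms => (if e.1 then m = 2 else m ≠ 2) ∧ fits l ms
  | _, _ => False

theorem evK_zero (l : List (Bool × ℤ)) : ∀ f : List Bool → List Bool → ℤ,
    (∀ ms, fits l ms → evM ms f = 0) → evK l f = 0 := by
  induction l with
  | nil => intro f h; exact h [] trivial
  | cons e l ih =>
    intro f h
    obtain ⟨n, Q⟩ := e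
    cases n
    · have h0 : evK l (fun t t' => f (false :: t) (false :: t')) = 0 := by
        refine ih _ (fun ms hms => ?_)
        have := h (0 :: ms) ⟨by simp, hms⟩
        simpa [evM, md] using this
      have h1 : evK l (fun t t' => f (true :: t) (true :: t')) = 0 := by
        refine ih _ (fun ms hms => ?_)
        have := h (1 :: ms) ⟨by simp, hms⟩
        simpa [evM, md] using this
      simp [evK, kap, h0, h1]
    · have h2 : evK l (fun t t' => -f (false :: t) (false :: t') + f (false :: t) (true :: t') +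
          f (true :: t) (false :: t')) = 0 := by
        refine ih _ (fun ms hms => ?_)
        have := h (2 :: ms) ⟨by simp, hms⟩
        simpa [evM, md] using this
      rw [evK_lin] at h2
      simp [evK, kap, h2]

theorem fits_length (l : List (Bool × ℤ)) : ∀ ms, fits l ms → ms.length = l.length := by
  induction l with
  | nil => intro ms h; cases ms with
    | nil => rfl
    | cons m ms => exact h.elim
  | cons e l ih => intro ms h; cases ms with
    | nil => exact h.elim
    | cons m ms => simp [ih ms h.2]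

theorem fits_mem (l : List (Bool × ℤ)) : ∀ ms, fits l ms → (∃ e ∈ l, e.1 = true) → (2 : Fin 3) ∈ ms := by
  induction l with
  | nil => rintro ms h ⟨e, he, _⟩; exact absurd he (List.not_mem_nil)
  | cons e l ih =>
    intro ms h hex
    cases ms with
    | nil => exact h.elim
    | cons m ms =>
      obtain ⟨e', he', h1⟩ := hex
      rcases List.mem_cons.1 he' with rfl | he'
      · have := h.1
        rw [if_pos h1] at this
        rw [this]; exact List.mem_cons_self
      · exact List.mem_cons_of_mem _ (ih ms h.2 ⟨e', he', h1⟩)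

theorem evK_sum {ι : Type} (s : Finset ι) (l : List (Bool × ℤ)) :
    ∀ f : ι → List Bool → List Bool → ℤ,
    ∑ c ∈ s, evK l (f c) = evK l (fun t t' => ∑ c ∈ s, f c t t') := by
  induction l with
  | nil => intro f; rfl
  | cons e l ih =>
    intro f
    obtain ⟨n, Q⟩ := e
    cases n
    · simp only [evK, kap, Bool.false_eq_true, if_false]
      rw [sum_add_distrib, ← mul_sum, ih, ih]
    · simp only [evK, kap, if_true]
      rw [sum_add_distrib, sum_add_distrib, sum_neg_distrib, ih, ih, ih]

/-- A system of arrays on `K × K` depending on a sign table with `k` bits. -/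
def Sys (k : ℕ) (K : Type) [AddCommGroup K] [Fintype K] : Prop :=
  ∃ B : (List Bool → ℤ) → K → K → ℤ,
    (∀ g : List Bool → ℤ, (∀ t, g t = 1 ∨ g t = -1) → ∀ x u, B g x u = 1 ∨ B g x u = -1) ∧
    (∀ d : K, ∃ l : List (Bool × ℤ), l.length = k ∧ (d ≠ 0 → ∃ e ∈ l, e.1 = true) ∧
      ∀ g g', C1 (B g) (B g') d = evK l (fun t t' => g t * g' t')) ∧
    (∀ d : K, ∃ l : List (Bool × ℤ), l.length = k ∧ (d ≠ 0 → ∃ e ∈ l, e.1 = true) ∧
      ∀ g g', C2 (B g) (B g') d = evK l (fun t t' => g t * g' t'))

theorem sys_zero : Sys 0 PUnit := by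
  refine ⟨fun g _ _ => g [], fun g hg x u => hg [], fun d => ⟨[], rfl, fun h =>
    absurd (Subsingleton.elim _ _) h, fun g g' => ?_⟩, fun d => ⟨[], rfl, fun h =>
    absurd (Subsingleton.elim _ _) h, fun g g' => ?_⟩⟩
  · simp [C1, evK]
  · simp [C2, evK]

theorem sys_succ {k : ℕ} {G K : Type} [AddCommGroup G] [Fintype G] [AddCommGroup K] [Fintype K]
    (hG : Good G) (hK : Sys k K) : Sys (k + 1) (G × K) := by
  classical
  obtain ⟨E, p, zl, zr, c, e⟩ := hG
  obtain ⟨B, pb, h1, h2⟩ := hK
  refine ⟨fun g x u => E x.1 u.1 * B (fun t => g (zz x.1 u.1 :: t)) x.2 u.2, fun g hg x u => ?_,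
    fun d => ?_, fun d => ?_⟩
  · show E x.1 u.1 * B (fun t => g (zz x.1 u.1 :: t)) x.2 u.2 = 1 ∨
      E x.1 u.1 * B (fun t => g (zz x.1 u.1 :: t)) x.2 u.2 = -1
    rcases p x.1 u.1 with h | h <;>
      rcases pb (fun t => g (zz x.1 u.1 :: t)) (fun t => hg _) x.2 u.2 with h' | h' <;>
      rw [h, h'] <;> norm_num
  · obtain ⟨l, hl, hd, hc⟩ := h1 d.2
    refine ⟨(decide (d.1 ≠ 0), (Fintype.card G : ℤ) ^ 2 - 1) :: l, by simp [hl], fun hd0 => ?_,
      fun g g' => ?_⟩
    · by_cases h : d.1 = 0
      · obtain ⟨e', he', h1⟩ := hd (fun h2 => hd0 (Prod.ext h h2))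
        exact ⟨e', List.mem_cons_of_mem _ he', h1⟩
      · exact ⟨_, List.mem_cons_self, by simp [h]⟩
    · obtain ⟨d1, d2⟩ := d
      rw [C1, sum_prod4]
      simp only [evK]
      rw [← kernel1 E p zl c]
      refine sum_congr rfl (fun x1 _ => sum_congr rfl (fun u1 _ => ?_))
      rw [← hc (fun t => g (zz x1 u1 :: t)) (fun t => g' (zz (x1 + d1) u1 :: t)), C1]
      simp only [sum_mul]
      refine sum_congr rfl (fun x2 _ => sum_congr rfl (fun u2 _ => ?_))
      simp only [Prod.fst_add, Prod.snd_add]
      ring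
  · obtain ⟨l, hl, hd, hc⟩ := h2 d.2
    refine ⟨(decide (d.1 ≠ 0), (Fintype.card G : ℤ) ^ 2 - 1) :: l, by simp [hl], fun hd0 => ?_,
      fun g g' => ?_⟩
    · by_cases h : d.1 = 0
      · obtain ⟨e', he', h1⟩ := hd (fun h2 => hd0 (Prod.ext h h2))
        exact ⟨e', List.mem_cons_of_mem _ he', h1⟩
      · exact ⟨_, List.mem_cons_self, by simp [h]⟩
    · obtain ⟨d1, d2⟩ := d
      rw [C2, sum_prod4]
      simp only [evK]
      rw [← kernel2 E p zr e]
      refine sum_congr rfl (fun x1 _ => sum_congr rfl (fun u1 _ => ?_))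
      rw [← hc (fun t => g (zz x1 u1 :: t)) (fun t => g' (zz x1 (u1 + d1) :: t)), C2]
      simp only [sum_mul]
      refine sum_congr rfl (fun x2 _ => sum_congr rfl (fun u2 _ => ?_))
      simp only [Prod.fst_add, Prod.snd_add]
      ring

/-- A sign table with vanishing modes gives a complementary family. -/
theorem fam_of_table {r k : ℕ} {K : Type} [AddCommGroup K] [Fintype K] (h : Sys k K)
    (g : (Fin r → Bool) → List Bool → ℤ) (hg : ∀ c t, g c t = 1 ∨ g c t = -1)
    (ht : ∀ ms : List (Fin 3), ms.length = k → (2 : Fin 3) ∈ ms →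
      evM ms (fun t t' => ∑ c, g c t * g c t') = 0) : Fam r K := by
  obtain ⟨B, pb, h1, h2⟩ := h
  refine ⟨fun c => B (g c), fun c => pb _ (hg c), fun d hd => ?_, fun d hd => ?_⟩
  · obtain ⟨l, hl, hd', hc⟩ := h1 d
    simp only [hc]
    rw [evK_sum univ l (fun c t t' => g c t * g c t')]
    exact evK_zero l _ (fun ms hms => ht ms (by rw [fits_length l ms hms, hl])
      (fits_mem l ms hms (hd' hd)))
  · obtain ⟨l, hl, hd', hc⟩ := h2 d
    simp only [hc]
    rw [evK_sum univ l (fun c t t' => g c t * g c t')]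
    exact evK_zero l _ (fun ms hms => ht ms (by rw [fits_length l ms hms, hl])
      (fits_mem l ms hms (hd' hd)))

end Pool.Agent.Q148.HD
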